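import Pool.Agent.J4.H90.UGW.Law

set_option autoImplicit false
open Finset MeasureTheory Measure ProbabilityTheory
open scoped ENNReal

namespace Pool.Agent.J4.H90.UGW

/-- solvable trees whose solution does not vanish at the root -/
def Zt (lam : ℝ) (x : Tr) : Prop := Solv lam x ∧ ¬ HasPos lam x

/-- the block of the root of a cavity tree -/
def Blk (lam : ℝ) : List ℕ → Tr → Prop
  | [], x => Zt lam x
  | a :: w, x => Zt lam x ∧ a < x [] ∧ Blk lam w (child x a)

open Classical in
noncomputable def sz (lam : ℝ) (x : Tr) : ℝ≥0∞ := ∑' w, if Blk lam w x then 1 else 0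

noncomputable def SZ (lam : ℝ) (x : Tr) : ℝ≥0∞ := 1 + ((ch x).map (sz lam)).sum

variable {lam : ℝ} {D : ℕ} {x y z : Tr}

theorem blk_zt {w : List ℕ} (h : Blk lam w x) : Zt lam x := by
  cases w with
  | nil => exact h
  | cons a w => exact h.1

theorem sz_of_not (h : ¬ Zt lam x) : sz lam x = 0 := by
  unfold sz
  rw [ENNReal.tsum_eq_zero]
  intro w
  rw [if_neg (fun hb => h (blk_zt hb))]

theorem sz_eq (h : Zt lam x) : sz lam x = SZ lam x := by
  classical
  unfold SZ
  rw [sum_ch]
  unfold sz
  rw [tsum_list_of_zero _ (x [])]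
  · congr 1
    · rw [if_pos]
      exact h
    · apply Finset.sum_congr rfl
      intro a ha
      apply tsum_congr
      intro w
      have : Blk lam (a :: w) x ↔ Blk lam w (child x a) := by
        simp only [Blk]
        exact ⟨fun h' => h'.2.2, fun h' => ⟨h, mem_range.mp ha, h'⟩⟩
      simp only [this]
  · intro a ha w
    rw [if_neg]
    intro hb
    exact absurd hb.2.1 (not_lt.mpr ha)

theorem SZ_congr {x' : Tr} (h : ch x = ch x') : SZ lam x = SZ lam x' := by
  unfold SZ; rw [h]

theorem SZ_add : SZ lam (add y z) = SZ lam y + sz lam z := by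
  unfold SZ
  rw [ch_add, Multiset.map_cons, Multiset.sum_cons]
  ring

theorem SZ_add_rem {i : ℕ} (hi : i < x []) : SZ lam (add (rem x i) (child x i)) = SZ lam x :=
  SZ_congr (by rw [ch_add, ch_rem x hi])

theorem both_zt (hy : Bdd D y) (hz : Bdd D z) (h : Both lam y z) : Zt lam y ∧ Zt lam z := by
  obtain ⟨h1, h2, h3, h4, -⟩ := both_facts hy hz h
  exact ⟨⟨h3, h2⟩, ⟨h4, h1⟩⟩

theorem SZ_add_both (hy : Bdd D y) (hz : Bdd D z) (h : Both lam y z) :
    SZ lam (add y z) = sz lam y + sz lam z := by
  rw [SZ_add, sz_eq (both_zt hy hz h).1]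

theorem one_le_SZ (lam : ℝ) (x : Tr) : 1 ≤ SZ lam x := by
  unfold SZ
  exact le_self_add

/-! measurability -/

theorem measurableSet_pos (lam : ℝ) : MeasurableSet {x | Pos lam x} :=
  measurableSet_lt (measurable_al lam) measurable_const

theorem measurableSet_solv (lam : ℝ) : MeasurableSet {x | Solv lam x} :=
  measurableSet_lt (measurable_nn lam) measurable_const

theorem measurable_root : Measurable (fun x : Tr => x []) := measurable_pi_apply _

theorem measurableSet_hasPos (lam : ℝ) : MeasurableSet {x | HasPos lam x} := by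
  have h : {x | HasPos lam x} =
      ⋃ b : ℕ, ({x : Tr | x [] ∈ Set.Ioi b} ∩ {x | Pos lam (child x b)}) := by
    ext x
    simp only [Set.mem_ofPred_eq, hasPos_iff, Set.mem_iUnion, Set.mem_inter_iff, Set.mem_Ioi]
  rw [h]
  refine MeasurableSet.iUnion (fun b => MeasurableSet.inter ?_ ?_)
  · exact measurable_root (MeasurableSet.of_discrete)
  · exact measurable_child b (measurableSet_pos lam)

theorem measurableSet_zt (lam : ℝ) : MeasurableSet {x | Zt lam x} :=
  (measurableSet_solv lam).inter (measurableSet_hasPos lam).compl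

theorem measurableSet_blk (lam : ℝ) (w : List ℕ) : MeasurableSet {x | Blk lam w x} := by
  induction w with
  | nil => exact measurableSet_zt lam
  | cons a w ih =>
    refine (measurableSet_zt lam).inter (MeasurableSet.inter ?_ (measurable_child a ih))
    exact measurable_root (MeasurableSet.of_discrete (s := Set.Ioi a))

theorem measurable_sz (lam : ℝ) : Measurable (sz lam) := by
  classical
  unfold sz
  apply Measurable.tsum
  intro w
  exact Measurable.ite (measurableSet_blk lam w) measurable_const measurable_const

theorem measurable_SZ (lam : ℝ) : Measurable (SZ lam) := by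
  have : SZ lam = fun x => 1 + ∑ b ∈ range (x []), sz lam (child x b) := by
    funext x
    unfold SZ
    rw [sum_ch]
  rw [this]
  exact measurable_const.add (measurable_sum_range (fun i => (measurable_sz lam).comp
    (measurable_child i)))

theorem measurable_add : Measurable (fun P : Tr × Tr => add P.1 P.2) := by
  apply measurable_pi_lambda
  intro w
  cases w with
  | nil =>
    exact (measurable_from_top (f := fun n : ℕ => n + 1)).comp
      ((measurable_pi_apply _).comp measurable_fst)
  | cons a w =>
    change Measurable (fun P : Tr × Tr => if a < P.1 [] then P.1 (a :: w) else P.2 w)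
    refine Measurable.ite ?_ ?_ ?_
    · exact (measurable_root.comp measurable_fst) (MeasurableSet.of_discrete (s := Set.Ioi a))
    · exact (measurable_pi_apply _).comp measurable_fst
    · exact (measurable_pi_apply _).comp measurable_snd

theorem measurableSet_posadd (lam : ℝ) : MeasurableSet {P : Tr × Tr | Pos lam (add P.1 P.2)} :=
  measurable_add (measurableSet_pos lam)

theorem measurableSet_both (lam : ℝ) : MeasurableSet {P : Tr × Tr | Both lam P.1 P.2} :=
  (measurableSet_posadd lam).inter (measurable_swap (measurableSet_posadd lam))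

theorem measurableSet_edge (lam : ℝ) : MeasurableSet {P : Tr × Tr | Edge lam P.1 P.2} :=
  (measurable_fst (measurableSet_pos lam)).inter (measurable_snd (measurableSet_hasPos lam))

theorem measurable_Psi (lam : ℝ) : Measurable (fun P : Tr × Tr => Psi lam P.1 P.2) := by
  unfold Psi
  exact (((measurable_al lam).comp measurable_add).inv).mul ((measurable_nn lam).comp measurable_snd)

theorem measurable_asum (lam : ℝ) :
    Measurable (fun x : Tr => ((ch x).map (fun u => (al lam u)⁻¹)).sum) := by
  have : (fun x : Tr => ((ch x).map (fun u => (al lam u)⁻¹)).sum) =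
      fun x => ∑ b ∈ range (x []), (al lam (child x b))⁻¹ := by
    funext x
    rw [sum_ch]
  rw [this]
  exact measurable_sum_range (fun i => ((measurable_al lam).comp (measurable_child i)).inv)

theorem measurable_rho (lam : ℝ) : Measurable (fun P : Tr × Tr => rho lam P.1 P.2) := by
  unfold rho
  exact (((measurable_al lam).comp measurable_fst).inv).mul
    ((((measurable_al lam).comp measurable_fst).inv).add
      ((measurable_asum lam).comp measurable_snd)).inv

/-! pointwise identities at the root -/

theorem ind_pos_eq (hD : Bdd D x) [Decidable (Pos lam x)] :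
    (if Pos lam x then 1 else 0 : ℝ≥0∞) =
      (al lam x)⁻¹ + ∑ i ∈ range (x []), Psi lam (rem x i) (child x i) := by
  have h1 : ∑ i ∈ range (x []), Psi lam (rem x i) (child x i) =
      (al lam x)⁻¹ * ∑ i ∈ range (x []), nn lam (child x i) := by
    rw [Finset.mul_sum]
    apply Finset.sum_congr rfl
    intro i hi
    unfold Psi
    rw [al_add_rem hD (mem_range.mp hi)]
  rw [h1]
  split_ifs with hp
  · have h2 := al_eq hD hp
    have h3 : (al lam x)⁻¹ + (al lam x)⁻¹ * ∑ i ∈ range (x []), nn lam (child x i) =
        (al lam x)⁻¹ * al lam x := by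
      nth_rewrite 4 [h2]
      rw [mul_add, mul_one]
    rw [h3, ENNReal.inv_mul_cancel (zero_lt_one.trans_le (one_le_al lam x)).ne' hp.ne]
  · rw [not_lt_top_iff.mp hp]
    simp

theorem both_rem_iff (hD : Bdd D x) (hp : Pos lam x) {i : ℕ} (hi : i < x []) :
    Both lam (rem x i) (child x i) ↔ Zt lam (child x i) := by
  have hp' : Pos lam (add (rem x i) (child x i)) := by
    unfold Pos
    rw [al_add_rem hD hi]
    exact hp
  rw [both_iff (hD.rem i) (hD.child i)]
  constructor
  · rintro ⟨-, h2⟩
    exact ⟨((pos_add (hD.rem i) (hD.child i)).mp hp').2.1, h2⟩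
  · rintro ⟨-, h2⟩
    exact ⟨hp', h2⟩

end Pool.Agent.J4.H90.UGW
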