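import Pool.Agent.J4.H90.UGW.Closed

set_option autoImplicit false
open Finset MeasureTheory
open scoped ENNReal

namespace Pool.Agent.J4.H90.UGW

def C0 (lam : ℝ) : Set (Tr × (List ℕ → ℝ)) := {p | IsSol lam p.1 0 p.2 ∧ p.2 [] = 1}
def C1 (lam : ℝ) : Set (Tr × (List ℕ → ℝ)) := {p | IsSol lam p.1 1 p.2}

theorem closed_C0 (lam : ℝ) : IsClosed (C0 lam) := by
  apply IsClosed.inter (closed_sol lam 0)
  exact isClosed_eq ((continuous_apply _).comp continuous_snd) continuous_const

theorem closed_C1 (lam : ℝ) : IsClosed (C1 lam) := closed_sol lam 1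

noncomputable def al (lam : ℝ) (x : Tr) : ℝ≥0∞ := mm (C0 lam) x
noncomputable def nn (lam : ℝ) (x : Tr) : ℝ≥0∞ := mm (C1 lam) x
def Pos (lam : ℝ) (x : Tr) : Prop := al lam x < ⊤
def Solv (lam : ℝ) (x : Tr) : Prop := nn lam x < ⊤

theorem measurable_al (lam : ℝ) : Measurable (al lam) := measurable_mm (closed_C0 lam)
theorem measurable_nn (lam : ℝ) : Measurable (nn lam) := measurable_mm (closed_C1 lam)

variable {lam : ℝ} {D : ℕ} {x : Tr}

theorem al_exists (h : Pos lam x) :
    ∃ f, IsSol lam x 0 f ∧ f [] = 1 ∧ nrm f = al lam x := by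
  obtain ⟨f, hf, hn⟩ := mm_attained (closed_C0 lam) h
  exact ⟨f, hf.1, hf.2, hn⟩

theorem nn_exists (h : Solv lam x) : ∃ f, IsSol lam x 1 f ∧ nrm f = nn lam x :=
  mm_attained (closed_C1 lam) h

theorem al_mul_le {f : List ℕ → ℝ} (h : IsSol lam x 0 f) :
    ENNReal.ofReal (f [] ^ 2) * al lam x ≤ nrm f := by
  rcases eq_or_ne (f []) 0 with h0 | h0
  · simp [h0]
  · have h1 : IsSol lam x 0 (fun w => (f [])⁻¹ * f w) := by
      have := isSol_smul (f [])⁻¹ h
      simpa using this
    have h2 : al lam x ≤ nrm (fun w => (f [])⁻¹ * f w) :=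
      mm_le ⟨h1, inv_mul_cancel₀ h0⟩
    rw [nrm_smul] at h2
    calc ENNReal.ofReal (f [] ^ 2) * al lam x
        ≤ ENNReal.ofReal (f [] ^ 2) * (ENNReal.ofReal ((f [])⁻¹ ^ 2) * nrm f) := by gcongr
      _ = nrm f := by
        rw [← mul_assoc, ← ENNReal.ofReal_mul (sq_nonneg _), ← mul_pow, mul_inv_cancel₀ h0]
        simp

theorem nn_mul_le {f : List ℕ → ℝ} {s : ℝ} (h : IsSol lam x s f) :
    ENNReal.ofReal (s ^ 2) * nn lam x ≤ nrm f := by
  rcases eq_or_ne s 0 with h0 | h0
  · simp [h0]
  · have h1 : IsSol lam x 1 (fun w => s⁻¹ * f w) := by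
      have := isSol_smul s⁻¹ h
      rwa [inv_mul_cancel₀ h0] at this
    have h2 : nn lam x ≤ nrm (fun w => s⁻¹ * f w) := mm_le h1
    rw [nrm_smul] at h2
    calc ENNReal.ofReal (s ^ 2) * nn lam x
        ≤ ENNReal.ofReal (s ^ 2) * (ENNReal.ofReal (s⁻¹ ^ 2) * nrm f) := by gcongr
      _ = nrm f := by
        rw [← mul_assoc, ← ENNReal.ofReal_mul (sq_nonneg _), ← mul_pow, mul_inv_cancel₀ h0]
        simp

theorem pos_of {f : List ℕ → ℝ} (h : IsSol lam x 0 f) (hn : nrm f < ⊤) (h0 : f [] ≠ 0) :
    Pos lam x := by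
  have h1 := (al_mul_le h).trans_lt hn
  have h2 : ENNReal.ofReal (f [] ^ 2) ≠ 0 := by
    have : 0 < f [] ^ 2 := by positivity
    simp only [ne_eq, ENNReal.ofReal_eq_zero, not_le]
    exact this
  by_contra h3
  have h4 : al lam x = ⊤ := not_lt_top_iff.mp h3
  rw [h4, ENNReal.mul_top h2] at h1
  exact lt_irrefl _ h1

theorem solv_of {f : List ℕ → ℝ} {s : ℝ} (h : IsSol lam x s f) (hn : nrm f < ⊤) (h0 : s ≠ 0) :
    Solv lam x := by
  have h1 := (nn_mul_le h).trans_lt hn
  have h2 : ENNReal.ofReal (s ^ 2) ≠ 0 := by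
    have : 0 < s ^ 2 := by positivity
    simp only [ne_eq, ENNReal.ofReal_eq_zero, not_le]
    exact this
  by_contra h3
  have h4 : nn lam x = ⊤ := not_lt_top_iff.mp h3
  rw [h4, ENNReal.mul_top h2] at h1
  exact lt_irrefl _ h1

theorem one_le_al (lam : ℝ) (x : Tr) : 1 ≤ al lam x := by
  unfold al mm
  refine le_iInf₂ (fun f hf => ?_)
  have h1 : f [] = 1 := hf.2
  refine le_trans ?_ (ENNReal.le_tsum ([] : List ℕ))
  rw [h1]
  simp

theorem not_pos_and_solv (hD : Bdd D x) (h1 : Pos lam x) (h2 : Solv lam x) : False := by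
  obtain ⟨f, hf, hf0, hfn⟩ := al_exists h1
  obtain ⟨g, hg, hgn⟩ := nn_exists h2
  have := wron hD hf hg (by rw [hfn]; exact h1) (by rw [hgn]; exact h2)
  rw [hf0] at this
  norm_num at this

open Classical in
/-- value at the root of the solutions with source one -/
noncomputable def tt (lam : ℝ) (x : Tr) : ℝ :=
  if h : Solv lam x then (Classical.choose (nn_exists h)) [] else 0

theorem tt_eq (hD : Bdd D x) {f : List ℕ → ℝ} (hf : IsSol lam x 1 f) (hn : nrm f < ⊤) :
    f [] = tt lam x := by
  have hs : Solv lam x := solv_of hf hn one_ne_zero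
  unfold tt
  rw [dif_pos hs]
  have hc := Classical.choose_spec (nn_exists hs)
  have := wron hD hf hc.1 hn (by rw [hc.2]; exact hs)
  linarith

theorem root_eq (hD : Bdd D x) {s : ℝ} {f : List ℕ → ℝ} (hf : IsSol lam x s f) (hn : nrm f < ⊤)
    (hs : s ≠ 0) : f [] = s * tt lam x := by
  have h1 : IsSol lam x 1 (fun w => s⁻¹ * f w) := by
    have := isSol_smul s⁻¹ hf
    rwa [inv_mul_cancel₀ hs] at this
  have h2 := tt_eq hD h1 (by rw [nrm_smul]; exact ENNReal.mul_lt_top ENNReal.ofReal_lt_top hn)
  rw [← h2]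
  field_simp

theorem build {s c : ℝ} {g : ℕ → List ℕ → ℝ}
    (h0 : s + ∑ a ∈ range (x []), g a [] = lam * c)
    (h1 : ∀ a < x [], IsSol lam (child x a) c (g a)) :
    IsSol lam x s (node 0 c (x []) g) := by
  rw [isSol_iff]
  refine ⟨?_, ?_, ?_⟩
  · simp only [node]
    rw [← h0]
    congr 1
    apply Finset.sum_congr rfl
    intro a ha
    rw [if_pos (mem_range.mp ha)]
  · intro a ha
    rw [sub_node ha]
    exact h1 a ha
  · intro a ha w
    simp [node, not_lt.mpr ha]

theorem nrm_sub_lt {s : ℝ} {f : List ℕ → ℝ} (hf : IsSol lam x s f) (hn : nrm f < ⊤) {a : ℕ}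
    (ha : a < x []) : nrm (sub f a) < ⊤ := by
  refine lt_of_le_of_lt ?_ hn
  rw [nrm_eq (x []) (isSol_iff.mp hf).2.2]
  refine le_trans ?_ le_add_self
  exact Finset.single_le_sum (f := fun a => nrm (sub f a)) (fun i _ => zero_le) (mem_range.mpr ha)

/-- first recursion: trees carrying an eigenfunction which does not vanish at the root -/
theorem pos_iff (hD : Bdd D x) : Pos lam x ↔ (∀ b < x [], Solv lam (child x b)) ∧
    ∑ b ∈ range (x []), tt lam (child x b) = lam := by
  constructor
  · intro h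
    obtain ⟨f, hf, hf0, hfn⟩ := al_exists h
    have hn : nrm f < ⊤ := by rw [hfn]; exact h
    obtain ⟨e0, e1, e2⟩ := isSol_iff.mp hf
    rw [hf0] at e1 e0
    refine ⟨fun b hb => solv_of (e1 b hb) (nrm_sub_lt hf hn hb) one_ne_zero, ?_⟩
    rw [zero_add, mul_one] at e0
    refine Eq.trans (Finset.sum_congr rfl (fun b hb => ?_)) e0
    exact (tt_eq (hD.child b) (e1 b (mem_range.mp hb)) (nrm_sub_lt hf hn (mem_range.mp hb))).symm
  · rintro ⟨h1, h2⟩
    choose! g hg hgn using fun b (hb : b < x []) => nn_exists (h1 b hb)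
    have hs : IsSol lam x 0 (node 0 1 (x []) g) := by
      apply build _ hg
      rw [zero_add, mul_one]
      refine Eq.trans (Finset.sum_congr rfl (fun b hb => ?_)) h2
      have hb' := mem_range.mp hb
      exact tt_eq (hD.child b) (hg b hb') (by rw [hgn b hb']; exact h1 b hb')
    apply pos_of hs
    · rw [nrm_node]
      refine ENNReal.add_lt_top.mpr ⟨ENNReal.ofReal_lt_top, ?_⟩
      rw [ENNReal.sum_lt_top]
      intro b hb
      have hb' := mem_range.mp hb
      rw [hgn b hb']
      exact h1 b hb'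
    · simp [node]

theorem al_eq (hD : Bdd D x) (h : Pos lam x) :
    al lam x = 1 + ∑ b ∈ range (x []), nn lam (child x b) := by
  obtain ⟨h1, h2⟩ := (pos_iff hD).mp h
  apply le_antisymm
  · choose! g hg hgn using fun b (hb : b < x []) => nn_exists (h1 b hb)
    have hs : IsSol lam x 0 (node 0 1 (x []) g) := by
      apply build _ hg
      rw [zero_add, mul_one]
      refine Eq.trans (Finset.sum_congr rfl (fun b hb => ?_)) h2
      have hb' := mem_range.mp hb
      exact tt_eq (hD.child b) (hg b hb') (by rw [hgn b hb']; exact h1 b hb')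
    refine (mm_le (C := C0 lam) (x := x) (f := node 0 1 (x []) g) ⟨hs, rfl⟩).trans ?_
    rw [nrm_node]
    simp only [one_pow, ENNReal.ofReal_one]
    gcongr with b hb
    rw [hgn b (mem_range.mp hb)]
  · obtain ⟨f, hf, hf0, hfn⟩ := al_exists h
    obtain ⟨e0, e1, e2⟩ := isSol_iff.mp hf
    rw [← hfn, nrm_eq (x []) e2, hf0]
    simp only [one_pow, ENNReal.ofReal_one]
    gcongr with b hb
    have := nn_mul_le (e1 b (mem_range.mp hb))
    rw [hf0] at this
    simpa using this

/-- second recursion, no child carries an eigenfunction -/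
theorem solv_iff3 (hD : Bdd D x) (hno : ∀ b < x [], ¬ Pos lam (child x b)) :
    Solv lam x ↔ (∀ b < x [], Solv lam (child x b)) ∧
      ∑ b ∈ range (x []), tt lam (child x b) ≠ lam := by
  constructor
  · intro h
    obtain ⟨f, hf, hfn⟩ := nn_exists h
    have hn : nrm f < ⊤ := by rw [hfn]; exact h
    obtain ⟨e0, e1, e2⟩ := isSol_iff.mp hf
    have hc : f [] ≠ 0 := by
      intro h0
      rw [h0] at e0 e1
      have : ∑ a ∈ range (x []), f [a] = 0 := by
        apply Finset.sum_eq_zero
        intro b hb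
        by_contra hne
        exact hno b (mem_range.mp hb) (pos_of (e1 b (mem_range.mp hb))
          (nrm_sub_lt hf hn (mem_range.mp hb)) hne)
      rw [this] at e0
      norm_num at e0
    refine ⟨fun b hb => solv_of (e1 b hb) (nrm_sub_lt hf hn hb) hc, ?_⟩
    intro hsum
    have h3 : ∑ a ∈ range (x []), f [a] = f [] * lam := by
      rw [← hsum, Finset.mul_sum]
      apply Finset.sum_congr rfl
      intro b hb
      have hb' := mem_range.mp hb
      exact root_eq (hD.child b) (e1 b hb') (nrm_sub_lt hf hn hb') hc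
    rw [h3] at e0
    linarith
  · rintro ⟨h1, h2⟩
    choose! g hg hgn using fun b (hb : b < x []) => nn_exists (h1 b hb)
    have hne : lam - ∑ b ∈ range (x []), tt lam (child x b) ≠ 0 := sub_ne_zero.mpr (Ne.symm h2)
    set c : ℝ := (lam - ∑ b ∈ range (x []), tt lam (child x b))⁻¹ with hc
    have hc0 : c ≠ 0 := inv_ne_zero hne
    have hs : IsSol lam x 1 (node 0 c (x []) (fun b w => c * g b w)) := by
      apply build
      · have : ∑ a ∈ range (x []), c * g a [] = c * ∑ b ∈ range (x []), tt lam (child x b) := by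
          rw [Finset.mul_sum]
          apply Finset.sum_congr rfl
          intro b hb
          have hb' := mem_range.mp hb
          rw [tt_eq (hD.child b) (hg b hb') (by rw [hgn b hb']; exact h1 b hb')]
        rw [this]
        have h4 : (lam - ∑ b ∈ range (x []), tt lam (child x b)) * c = 1 := mul_inv_cancel₀ hne
        linarith
      · intro a ha
        have := isSol_smul c (hg a ha)
        rwa [mul_one] at this
    apply solv_of hs _ one_ne_zero
    rw [nrm_node]
    refine ENNReal.add_lt_top.mpr ⟨ENNReal.ofReal_lt_top, ?_⟩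
    rw [ENNReal.sum_lt_top]
    intro b hb
    have hb' := mem_range.mp hb
    rw [nrm_smul, hgn b hb']
    exact ENNReal.mul_lt_top ENNReal.ofReal_lt_top (h1 b hb')

theorem tt_eq3 (hD : Bdd D x) (hno : ∀ b < x [], ¬ Pos lam (child x b)) (h : Solv lam x) :
    tt lam x * (lam - ∑ b ∈ range (x []), tt lam (child x b)) = 1 := by
  obtain ⟨f, hf, hfn⟩ := nn_exists h
  have hn : nrm f < ⊤ := by rw [hfn]; exact h
  obtain ⟨e0, e1, e2⟩ := isSol_iff.mp hf
  have hc : f [] ≠ 0 := by
    intro h0
    rw [h0] at e0 e1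
    have : ∑ a ∈ range (x []), f [a] = 0 := by
      apply Finset.sum_eq_zero
      intro b hb
      by_contra hne
      exact hno b (mem_range.mp hb) (pos_of (e1 b (mem_range.mp hb))
        (nrm_sub_lt hf hn (mem_range.mp hb)) hne)
    rw [this] at e0
    norm_num at e0
  have h3 : ∑ a ∈ range (x []), f [a] = f [] * ∑ b ∈ range (x []), tt lam (child x b) := by
    rw [Finset.mul_sum]
    apply Finset.sum_congr rfl
    intro b hb
    have hb' := mem_range.mp hb
    exact root_eq (hD.child b) (e1 b hb') (nrm_sub_lt hf hn hb') hc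
  rw [h3] at e0
  rw [← tt_eq hD hf hn]
  linarith

theorem nn_eq3 (hD : Bdd D x) (hno : ∀ b < x [], ¬ Pos lam (child x b)) (h : Solv lam x) :
    nn lam x = ENNReal.ofReal (tt lam x ^ 2) * (1 + ∑ b ∈ range (x []), nn lam (child x b)) := by
  have hc1 := tt_eq3 hD hno h
  obtain ⟨h1, h2⟩ := (solv_iff3 hD hno).mp h
  set c := tt lam x with hc
  have hc0 : c ≠ 0 := by
    intro h0
    rw [h0] at hc1
    norm_num at hc1
  apply le_antisymm
  · choose! g hg hgn using fun b (hb : b < x []) => nn_exists (h1 b hb)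
    have hs : IsSol lam x 1 (node 0 c (x []) (fun b w => c * g b w)) := by
      apply build
      · have : ∑ a ∈ range (x []), c * g a [] = c * ∑ b ∈ range (x []), tt lam (child x b) := by
          rw [Finset.mul_sum]
          apply Finset.sum_congr rfl
          intro b hb
          have hb' := mem_range.mp hb
          rw [tt_eq (hD.child b) (hg b hb') (by rw [hgn b hb']; exact h1 b hb')]
        rw [this]
        linarith
      · intro a ha
        have := isSol_smul c (hg a ha)
        rwa [mul_one] at this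
    refine (mm_le (C := C1 lam) (x := x) (f := node 0 c (x []) (fun b w => c * g b w)) hs).trans ?_
    rw [nrm_node, mul_add, mul_one, Finset.mul_sum]
    gcongr with b hb
    rw [nrm_smul, hgn b (mem_range.mp hb)]
  · obtain ⟨f, hf, hfn⟩ := nn_exists h
    have hn : nrm f < ⊤ := by rw [hfn]; exact h
    obtain ⟨e0, e1, e2⟩ := isSol_iff.mp hf
    have h3 : f [] = c := tt_eq hD hf hn
    rw [h3] at e1
    rw [← hfn, nrm_eq (x []) e2, h3, mul_add, mul_one, Finset.mul_sum]
    gcongr with b hb
    exact nn_mul_le (e1 b (mem_range.mp hb))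

/-- third recursion, some child carries an eigenfunction -/
theorem rec2 (hD : Bdd D x) (hex : ∃ b < x [], Pos lam (child x b)) :
    Solv lam x ∧ tt lam x = 0 ∧
      nn lam x = (∑ b ∈ range (x []), (al lam (child x b))⁻¹)⁻¹ := by
  classical
  set A : ℝ≥0∞ := ∑ b ∈ range (x []), (al lam (child x b))⁻¹ with hA
  have hinv : ∀ b, (al lam (child x b))⁻¹ ≤ 1 := fun b => ENNReal.inv_le_one.mpr (one_le_al lam _)
  have hAtop : A ≠ ⊤ := by
    rw [hA]
    exact (ENNReal.sum_lt_top.mpr (fun b _ => (hinv b).trans_lt ENNReal.one_lt_top)).ne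
  have hA0 : A ≠ 0 := by
    obtain ⟨b, hb, hp⟩ := hex
    intro h0
    rw [hA, Finset.sum_eq_zero_iff] at h0
    have := h0 b (mem_range.mpr hb)
    rw [ENNReal.inv_eq_zero] at this
    exact absurd this hp.ne
  have hAr : 0 < A.toReal := ENNReal.toReal_pos hA0 hAtop
  have hAsum : ∑ b ∈ range (x []), ((al lam (child x b))⁻¹).toReal = A.toReal := by
    rw [hA, ENNReal.toReal_sum (fun b _ => ((hinv b).trans_lt ENNReal.one_lt_top).ne)]
  -- the explicit minimiser
  have hg : ∀ b, ∃ g : List ℕ → ℝ, IsSol lam (child x b) 0 g ∧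
      g [] = -(((al lam (child x b))⁻¹).toReal / A.toReal) ∧
      nrm g ≤ ENNReal.ofReal (((al lam (child x b))⁻¹).toReal / A.toReal ^ 2) := by
    intro b
    by_cases hp : Pos lam (child x b)
    · obtain ⟨f, hf, hf0, hfn⟩ := al_exists hp
      refine ⟨fun w => -(((al lam (child x b))⁻¹).toReal / A.toReal) * f w, ?_, ?_, ?_⟩
      · have := isSol_smul (-(((al lam (child x b))⁻¹).toReal / A.toReal)) hf
        rwa [mul_zero] at this
      · simp [hf0]
      · rw [nrm_smul, hfn]
        have hal : al lam (child x b) = ENNReal.ofReal (al lam (child x b)).toReal :=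
          (ENNReal.ofReal_toReal hp.ne).symm
        have hpos : 0 < (al lam (child x b)).toReal :=
          ENNReal.toReal_pos (zero_lt_one.trans_le (one_le_al lam _)).ne' hp.ne
        rw [ENNReal.toReal_inv]
        nth_rewrite 2 [hal]
        rw [← ENNReal.ofReal_mul (sq_nonneg _)]
        apply ENNReal.ofReal_le_ofReal
        apply le_of_eq
        field_simp
    · refine ⟨fun _ => 0, ?_, ?_, ?_⟩
      · have key : ∀ (w : List ℕ) (y : Tr), Good lam w y 0 (fun _ => 0) := by
          intro w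
          induction w with
          | nil => intro y; simp [Good]
          | cons a w ih =>
            intro y
            simp only [Good]
            split_ifs
            · exact ih _
        exact fun w => key w _
      · have : al lam (child x b) = ⊤ := not_lt_top_iff.mp hp
        simp [this]
      · simp [nrm]
  choose g hg0 hg1 hg2 using hg
  have hs : IsSol lam x 1 (node 0 0 (x []) g) := by
    apply build _ (fun a _ => hg0 a)
    have : ∑ a ∈ range (x []), g a [] = -1 := by
      rw [Finset.sum_congr rfl (fun a _ => hg1 a), Finset.sum_neg_distrib, ← Finset.sum_div, hAsum,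
        div_self hAr.ne']
    rw [this]
    ring
  have hns : nrm (node 0 0 (x []) g) ≤ A⁻¹ := by
    rw [nrm_node]
    calc ENNReal.ofReal ((0 : ℝ) ^ 2) + ∑ a ∈ range (x []), nrm (g a)
        ≤ 0 + ∑ a ∈ range (x []),
            ENNReal.ofReal (((al lam (child x a))⁻¹).toReal / A.toReal ^ 2) := by
          gcongr with a ha
          · simp
          · exact hg2 a
      _ = ENNReal.ofReal (A.toReal / A.toReal ^ 2) := by
          rw [zero_add, ← ENNReal.ofReal_sum_of_nonneg (fun a _ => by positivity),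
            ← Finset.sum_div, hAsum]
      _ = A⁻¹ := by
          have : A.toReal / A.toReal ^ 2 = (A.toReal)⁻¹ := by field_simp
          rw [this, ENNReal.ofReal_inv_of_pos hAr, ENNReal.ofReal_toReal hAtop]
  have hns' : nrm (node 0 0 (x []) g) < ⊤ :=
    hns.trans_lt (ENNReal.inv_lt_top.mpr (pos_iff_ne_zero.mpr hA0))
  have hsolv : Solv lam x := solv_of hs hns' one_ne_zero
  refine ⟨hsolv, (tt_eq hD hs hns').symm, le_antisymm ((mm_le (C := C1 lam) hs).trans hns) ?_⟩
  -- lower bound
  obtain ⟨f, hf, hfn⟩ := nn_exists hsolv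
  have hn : nrm f < ⊤ := by rw [hfn]; exact hsolv
  obtain ⟨e0, e1, e2⟩ := isSol_iff.mp hf
  have h0 : f [] = 0 := by
    by_contra hne
    obtain ⟨b, hb, hp⟩ := hex
    exact not_pos_and_solv (hD.child b) hp (solv_of (e1 b hb) (nrm_sub_lt hf hn hb) hne)
  rw [h0] at e0 e1
  have hsum : ∑ a ∈ range (x []), f [a] = -1 := by linarith
  have hp0 : ∀ b ∈ range (x []), ((al lam (child x b))⁻¹).toReal = 0 → f [b] = 0 := by
    intro b hb hz
    by_contra hne
    have hp : Pos lam (child x b) := pos_of (e1 b (mem_range.mp hb))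
      (nrm_sub_lt hf hn (mem_range.mp hb)) hne
    rw [ENNReal.toReal_eq_zero_iff, ENNReal.inv_eq_zero, ENNReal.inv_eq_top] at hz
    rcases hz with hz | hz
    · exact hp.ne hz
    · exact (zero_lt_one.trans_le (one_le_al lam (child x b))).ne' hz
  have hcs : (∑ b ∈ range (x []), f [b]) ^ 2 ≤
      (∑ b ∈ range (x []), f [b] ^ 2 / ((al lam (child x b))⁻¹).toReal) *
        ∑ b ∈ range (x []), ((al lam (child x b))⁻¹).toReal := by
    apply Finset.sum_sq_le_sum_mul_sum_of_sq_le_mul
    · intro b _; positivity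
    · intro b _; positivity
    · intro b hb
      apply le_of_eq
      by_cases hz : ((al lam (child x b))⁻¹).toReal = 0
      · rw [hp0 b hb hz]; simp
      · field_simp
  rw [hsum, hAsum] at hcs
  have hterm : ∀ b ∈ range (x []), ENNReal.ofReal (f [b] ^ 2 / ((al lam (child x b))⁻¹).toReal) ≤
      nrm (sub f b) := by
    intro b hb
    by_cases hz : ((al lam (child x b))⁻¹).toReal = 0
    · rw [hp0 b hb hz]; simp
    · have h5 : al lam (child x b) ≠ ⊤ := by
        intro h6
        rw [h6] at hz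
        simp at hz
      refine le_trans (le_of_eq ?_) (al_mul_le (e1 b (mem_range.mp hb)))
      rw [ENNReal.toReal_inv, div_inv_eq_mul, ENNReal.ofReal_mul (sq_nonneg _),
        ENNReal.ofReal_toReal h5]
      rfl
  calc A⁻¹ = ENNReal.ofReal (A.toReal)⁻¹ := by
        rw [ENNReal.ofReal_inv_of_pos hAr, ENNReal.ofReal_toReal hAtop]
    _ ≤ ENNReal.ofReal (∑ b ∈ range (x []), f [b] ^ 2 / ((al lam (child x b))⁻¹).toReal) := by
        apply ENNReal.ofReal_le_ofReal
        rw [inv_le_iff_one_le_mul₀ hAr]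
        linarith
    _ = ∑ b ∈ range (x []), ENNReal.ofReal (f [b] ^ 2 / ((al lam (child x b))⁻¹).toReal) :=
        ENNReal.ofReal_sum_of_nonneg (fun b _ => by positivity)
    _ ≤ ∑ b ∈ range (x []), nrm (sub f b) := Finset.sum_le_sum hterm
    _ ≤ nrm f := by
        rw [nrm_eq (x []) e2]
        exact le_add_self
    _ = nn lam x := hfn

end Pool.Agent.J4.H90.UGW
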