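import Pool.Agent.J4.H90.UGW.Tree

set_option autoImplicit false
open Finset MeasureTheory
open scoped ENNReal

namespace Pool.Agent.J4.H90.UGW

theorem continuous_child (a : ℕ) : Continuous (fun x : Tr => child x a) :=
  continuous_pi (fun _ => continuous_apply _)

theorem continuous_sub (a : ℕ) : Continuous (fun f : List ℕ → ℝ => sub f a) :=
  continuous_pi (fun _ => continuous_apply _)

theorem closed_good (lam : ℝ) (w : List ℕ) :
    IsClosed {p : Tr × ℝ × (List ℕ → ℝ) | Good lam w p.1 p.2.1 p.2.2} := by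
  have hroot : Continuous (fun p : Tr × ℝ × (List ℕ → ℝ) => p.1 []) :=
    (continuous_apply _).comp continuous_fst
  induction w with
  | nil =>
    have heq : {p : Tr × ℝ × (List ℕ → ℝ) | Good lam [] p.1 p.2.1 p.2.2} =
        ⋂ k : ℕ, ({p | p.1 [] ∈ ({k}ᶜ : Set ℕ)} ∪
          {p | p.2.1 + ∑ a ∈ range k, p.2.2 [a] = lam * p.2.2 []}) := by
      ext p
      simp only [Good, Set.mem_ofPred_eq, Set.mem_iInter, Set.mem_union, Set.mem_compl_iff,
        Set.mem_singleton_iff]
      constructor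
      · intro h k
        by_cases hk : p.1 [] = k
        · right; rw [← hk]; exact h
        · left; exact hk
      · intro h
        rcases h (p.1 []) with h1 | h1
        · exact absurd rfl h1
        · exact h1
    rw [heq]
    refine isClosed_iInter (fun k => IsClosed.union ?_ ?_)
    · exact (isClosed_discrete _).preimage hroot
    · apply isClosed_eq
      · apply Continuous.add (by fun_prop)
        apply continuous_finsetSum
        intro a _
        exact (continuous_apply _).comp (continuous_snd.comp continuous_snd)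
      · exact continuous_const.mul ((continuous_apply _).comp (continuous_snd.comp continuous_snd))
  | cons a w ih =>
    have heq : {p : Tr × ℝ × (List ℕ → ℝ) | Good lam (a :: w) p.1 p.2.1 p.2.2} =
        ({p | p.1 [] ∈ Set.Ioi a} ∩ (fun p : Tr × ℝ × (List ℕ → ℝ) =>
            ((child p.1 a, p.2.2 [], sub p.2.2 a) : Tr × ℝ × (List ℕ → ℝ))) ⁻¹'
            {p | Good lam w p.1 p.2.1 p.2.2}) ∪
          ({p | p.1 [] ∈ Set.Iic a} ∩ {p | p.2.2 (a :: w) = 0}) := by
      ext p
      simp only [Good, Set.mem_ofPred_eq, Set.mem_union, Set.mem_inter_iff, Set.mem_Ioi,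
        Set.mem_Iic, Set.mem_preimage]
      by_cases h : a < p.1 []
      · simp [h]
      · simp [h, not_lt.mp h]
    rw [heq]
    refine IsClosed.union (IsClosed.inter ?_ ?_) (IsClosed.inter ?_ ?_)
    · exact (isClosed_discrete _).preimage hroot
    · apply ih.preimage
      refine Continuous.prodMk ((continuous_child a).comp continuous_fst) (Continuous.prodMk ?_ ?_)
      · exact (continuous_apply _).comp (continuous_snd.comp continuous_snd)
      · exact (continuous_sub a).comp (continuous_snd.comp continuous_snd)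
    · exact (isClosed_discrete _).preimage hroot
    · apply isClosed_eq _ continuous_const
      exact (continuous_apply _).comp (continuous_snd.comp continuous_snd)

theorem closed_sol (lam s : ℝ) :
    IsClosed {p : Tr × (List ℕ → ℝ) | IsSol lam p.1 s p.2} := by
  have h : {p : Tr × (List ℕ → ℝ) | IsSol lam p.1 s p.2} =
      ⋂ w : List ℕ, (fun p : Tr × (List ℕ → ℝ) => ((p.1, s, p.2) : Tr × ℝ × (List ℕ → ℝ))) ⁻¹'
        {p | Good lam w p.1 p.2.1 p.2.2} := by
    ext p
    simp [IsSol]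
  rw [h]
  refine isClosed_iInter (fun w => (closed_good lam w).preimage ?_)
  fun_prop

theorem lsc_nrm : LowerSemicontinuous nrm := by
  unfold nrm
  apply lowerSemicontinuous_tsum
  intro w
  apply Continuous.lowerSemicontinuous
  exact ENNReal.continuous_ofReal.comp ((continuous_apply w).pow 2)

theorem closed_nrm (c : ℝ≥0∞) : IsClosed {f : List ℕ → ℝ | nrm f ≤ c} :=
  lsc_nrm.isClosed_preimage c

theorem compact_nrm {c : ℝ≥0∞} (hc : c < ⊤) : IsCompact {f : List ℕ → ℝ | nrm f ≤ c} := by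
  have hbox : IsCompact (Set.pi Set.univ (fun _ : List ℕ =>
      Set.Icc (-(Real.sqrt c.toReal)) (Real.sqrt c.toReal))) :=
    isCompact_univ_pi (fun _ => isCompact_Icc)
  refine hbox.of_isClosed_subset (closed_nrm c) ?_
  intro f hf w _
  have h1 : ENNReal.ofReal (f w ^ 2) ≤ c := le_trans (ENNReal.le_tsum w) hf
  have h2 : f w ^ 2 ≤ c.toReal := (ENNReal.ofReal_le_iff_le_toReal hc.ne).mp h1
  exact abs_le.mp (Real.abs_le_sqrt h2)

/-- minimal norm over the fibre -/
noncomputable def mm (C : Set (Tr × (List ℕ → ℝ))) (x : Tr) : ℝ≥0∞ :=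
  ⨅ (f : List ℕ → ℝ) (_ : (x, f) ∈ C), nrm f

theorem mm_le {C : Set (Tr × (List ℕ → ℝ))} {x : Tr} {f : List ℕ → ℝ} (h : (x, f) ∈ C) :
    mm C x ≤ nrm f := iInf₂_le f h

theorem mm_attained {C : Set (Tr × (List ℕ → ℝ))} (hC : IsClosed C) {x : Tr}
    (h : mm C x < ⊤) : ∃ f, (x, f) ∈ C ∧ nrm f = mm C x := by
  have h1 : ∃ f0, (x, f0) ∈ C ∧ nrm f0 < ⊤ := by
    unfold mm at h
    simp only [iInf_lt_iff] at h
    obtain ⟨f, hf, h⟩ := h
    exact ⟨f, hf, h⟩
  obtain ⟨f0, hf0, hn0⟩ := h1
  have hCx : IsClosed {f : List ℕ → ℝ | (x, f) ∈ C} :=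
    hC.preimage (Continuous.prodMk continuous_const continuous_id)
  have hK : IsCompact ({f : List ℕ → ℝ | nrm f ≤ nrm f0} ∩ {f | (x, f) ∈ C}) :=
    (compact_nrm hn0).inter_right hCx
  obtain ⟨f, hfK, hmin⟩ := LowerSemicontinuousOn.exists_isMinOn
    (⟨f0, le_refl (nrm f0), hf0⟩ : ({f : List ℕ → ℝ | nrm f ≤ nrm f0} ∩ {f | (x, f) ∈ C}).Nonempty) hK
    (lsc_nrm.lowerSemicontinuousOn _)
  refine ⟨f, hfK.2, le_antisymm ?_ (mm_le hfK.2)⟩
  refine le_iInf₂ (fun g hg => ?_)
  by_cases hg2 : nrm g ≤ nrm f0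
  · exact hmin ⟨hg2, hg⟩
  · exact hfK.1.trans (not_le.mp hg2).le

theorem mm_closed {C : Set (Tr × (List ℕ → ℝ))} (hC : IsClosed C) {c : ℝ≥0∞} (hc : c < ⊤) :
    IsClosed {x | mm C x ≤ c} := by
  have : CompactSpace {f : List ℕ → ℝ | nrm f ≤ c} := isCompact_iff_compactSpace.mp (compact_nrm hc)
  let S : Set (Tr × {f : List ℕ → ℝ | nrm f ≤ c}) := {p | (p.1, (p.2 : List ℕ → ℝ)) ∈ C}
  have hS : IsClosed S := hC.preimage
    (Continuous.prodMk continuous_fst (continuous_subtype_val.comp continuous_snd))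
  have h := isClosedMap_fst_of_compactSpace S hS
  convert h using 1
  ext x
  simp only [Set.mem_ofPred_eq, Set.mem_image, Prod.exists, exists_and_right, exists_eq_right]
  constructor
  · intro hx
    obtain ⟨f, hf, hn⟩ := mm_attained hC (hx.trans_lt hc)
    exact ⟨⟨f, by rw [Set.mem_ofPred_eq, hn]; exact hx⟩, hf⟩
  · rintro ⟨f, hf⟩
    exact (mm_le (f := (f : List ℕ → ℝ)) hf).trans f.2

theorem measurable_mm {C : Set (Tr × (List ℕ → ℝ))} (hC : IsClosed C) : Measurable (mm C) := by
  apply measurable_of_Iic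
  intro c
  rcases eq_or_ne c ⊤ with rfl | hc
  · simp
  · exact (mm_closed hC (lt_top_iff_ne_top.mpr hc)).measurableSet

end Pool.Agent.J4.H90.UGW
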