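import Pool.Agent.J4.H90.UGW.Mass

set_option autoImplicit false
open Finset MeasureTheory Measure ProbabilityTheory
open scoped ENNReal

namespace Pool.Agent.J4.H90.UGW

/-- finite block of depth at most `n`, all ends of which see an eigenfunction -/
def FSn (lam : ℝ) : ℕ → Tr → Prop
  | 0, x => HasPos lam x
  | n + 1, x => HasPos lam x ∨ ∀ b < x [], FSn lam n (child x b)

def FS (lam : ℝ) (x : Tr) : Prop := ∃ n, FSn lam n x

variable {lam : ℝ} {D : ℕ} {x y z : Tr}

theorem FSn_succ (n : ℕ) : ∀ {x : Tr}, FSn lam n x → FSn lam (n + 1) x := by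
  induction n with
  | zero => intro x h; exact Or.inl h
  | succ n ih =>
    intro x h
    rcases h with h | h
    · exact Or.inl h
    · exact Or.inr (fun b hb => ih (h b hb))

theorem FSn_mono {n k : ℕ} (h : n ≤ k) (hx : FSn lam n x) : FSn lam k x := by
  induction h with
  | refl => exact hx
  | step _ ih => exact FSn_succ _ ih

theorem FSn_of_sz (N : ℕ) : ∀ {z : Tr}, Bdd D z → Solv lam z → sz lam z ≤ N → FSn lam N z := by
  induction N with
  | zero =>
    intro z hD hs h
    by_contra hno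
    have hZ : Zt lam z := ⟨hs, hno⟩
    rw [sz_eq hZ] at h
    have := (one_le_SZ lam z).trans h
    simp at this
  | succ N ih =>
    intro z hD hs h
    by_cases hp : HasPos lam z
    · exact Or.inl hp
    · right
      intro b hb
      have hmem : child z b ∈ ch z := mem_ch.mpr ⟨b, hb, rfl⟩
      apply ih (hD.child b) (((solv_ch hD hp).mp hs).1 _ hmem)
      rw [sz_eq ⟨hs, hp⟩] at h
      unfold SZ at h
      rw [sum_ch, Nat.cast_succ, add_comm (N : ℝ≥0∞)] at h
      have h2 := (ENNReal.add_le_add_iff_left ENNReal.one_ne_top).mp h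
      exact (Finset.single_le_sum (f := fun b => sz lam (child z b)) (fun i _ => zero_le)
        (mem_range.mpr hb)).trans h2

theorem FSn_of_pos (hD : Bdd D y) (hp : Pos lam y) (hf : SZ lam y ≠ ⊤) :
    ∀ b < y [], FS lam (child y b) := by
  obtain ⟨N, hN⟩ := ENNReal.exists_nat_gt hf
  intro b hb
  refine ⟨N, FSn_of_sz N (hD.child b) (((pos_iff hD).mp hp).1 b hb) ?_⟩
  refine le_trans ?_ hN.le
  unfold SZ
  rw [sum_ch]
  exact (Finset.single_le_sum (f := fun b => sz lam (child y b)) (fun i _ => zero_le)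
        (mem_range.mpr hb)).trans le_add_self

theorem FS_children (h : FS lam x) (hno : ¬ HasPos lam x) : ∀ b < x [], FS lam (child x b) := by
  obtain ⟨n, hn⟩ := h
  cases n with
  | zero => exact absurd hn hno
  | succ n =>
    rcases hn with hn | hn
    · exact absurd hn hno
    · exact fun b hb => ⟨n, hn b hb⟩

theorem measurableSet_forall_child {S : Set Tr} (hS : MeasurableSet S) :
    MeasurableSet {x : Tr | ∀ b < x [], child x b ∈ S} := by
  have h : {x : Tr | ∀ b < x [], child x b ∈ S} =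
      ⋂ b : ℕ, ({x : Tr | x [] ∈ Set.Iic b} ∪ {x | child x b ∈ S}) := by
    ext x
    simp only [Set.mem_ofPred_eq, Set.mem_iInter, Set.mem_union, Set.mem_Iic]
    constructor
    · intro h b
      by_cases hb : b < x []
      · exact Or.inr (h b hb)
      · exact Or.inl (not_lt.mp hb)
    · intro h b hb
      rcases h b with h | h
      · exact absurd hb (not_lt.mpr h)
      · exact h
  rw [h]
  exact MeasurableSet.iInter (fun b => (measurable_root (MeasurableSet.of_discrete
    (s := Set.Iic b))).union (measurable_child b hS))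

theorem measurableSet_FSn (lam : ℝ) (n : ℕ) : MeasurableSet {x | FSn lam n x} := by
  induction n with
  | zero => exact measurableSet_hasPos lam
  | succ n ih => exact (measurableSet_hasPos lam).union (measurableSet_forall_child ih)

theorem measurableSet_FS (lam : ℝ) : MeasurableSet {x | FS lam x} := by
  have : {x | FS lam x} = ⋃ n, {x | FSn lam n x} := by
    ext x
    simp [FS]
  rw [this]
  exact MeasurableSet.iUnion (fun n => measurableSet_FSn lam n)

section

variable (q : Measure ℕ) [IsProbabilityMeasure q] (p : Measure ℕ) [IsProbabilityMeasure p]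

theorem Rm_nodeT {S : Set Tr} (hS : MeasurableSet S) :
    Rm p q S = ∑' k : ℕ, Qs q {Y | nodeT k Y ∈ S} * p {k} := by
  rw [← lintegral_indicator_one hS, lintegral_Rm p q (measurable_one.indicator hS)]
  apply tsum_congr
  intro k
  congr 1
  have hm : Measurable (fun Y : ℕ → Tr => nodeT k Y) :=
    measurable_nodeT.comp (measurable_const.prodMk measurable_id)
  exact lintegral_indicator_one (hm hS)

theorem Qs_one {S : Set Tr} (hS : MeasurableSet S) (b : ℕ) : Qs q {Y | Y b ∈ S} = Qm q S := by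
  have h := infinitePi_map_eval (fun _ : ℕ => Qm q) b
  have hm : Measurable (fun Y : ℕ → Tr => Y b) := measurable_pi_apply b
  rw [← h, map_apply hm hS]
  rfl

theorem Rm_child {S : Set Tr} (hS : MeasurableSet S) (b : ℕ) :
    Rm p q {x | child x b ∈ S} = Qm q S := by
  have hmc : MeasurableSet {x | child x b ∈ S} := measurable_child b hS
  rw [Rm_nodeT q p hmc]
  have : ∀ k, Qs q {Y | nodeT k Y ∈ {x | child x b ∈ S}} = Qm q S := by
    intro k
    exact Qs_one q hS b
  simp only [this]
  rw [ENNReal.tsum_mul_left, tsum_p, mul_one]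

/-- mass of the offspring law above one -/
noncomputable def c2 : ℝ≥0∞ := ∑' k : ℕ, q {k + 2}

omit [IsProbabilityMeasure q] in
theorem tsum_split (f : ℕ → ℝ≥0∞) : ∑' k, f k = f 0 + f 1 + ∑' k, f (k + 2) := by
  rw [tsum_eq_zero_add' ENNReal.summable, tsum_eq_zero_add' ENNReal.summable, add_assoc]

theorem c12 (h0 : q {0} = 0) : q {1} + c2 q = 1 := by
  have := tsum_p q
  rw [tsum_split, h0, zero_add] at this
  exact this

theorem two_le {S : Set Tr} (hS : MeasurableSet S) :
    Qm q {x | 2 ≤ x [] ∧ ∀ b < x [], child x b ∈ S} ≤ c2 q * Qm q S ^ 2 := by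
  have hm : MeasurableSet {x : Tr | 2 ≤ x [] ∧ ∀ b < x [], child x b ∈ S} :=
    (measurable_root (MeasurableSet.of_discrete (s := Set.Ici 2))).inter
      (measurableSet_forall_child hS)
  unfold Qm
  rw [Rm_nodeT q q hm, tsum_split]
  have e0 : Qs q {Y | nodeT 0 Y ∈ {x : Tr | 2 ≤ x [] ∧ ∀ b < x [], child x b ∈ S}} = 0 := by
    have : {Y | nodeT 0 Y ∈ {x : Tr | 2 ≤ x [] ∧ ∀ b < x [], child x b ∈ S}} = ∅ := by
      ext Y
      simp [nodeT]
    rw [this]; simp
  have e1 : Qs q {Y | nodeT 1 Y ∈ {x : Tr | 2 ≤ x [] ∧ ∀ b < x [], child x b ∈ S}} = 0 := by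
    have : {Y | nodeT 1 Y ∈ {x : Tr | 2 ≤ x [] ∧ ∀ b < x [], child x b ∈ S}} = ∅ := by
      ext Y
      simp [nodeT]
    rw [this]; simp
  rw [e0, e1, zero_mul, zero_mul, zero_add, zero_add, c2, ← ENNReal.tsum_mul_right]
  apply ENNReal.tsum_le_tsum
  intro k
  rw [mul_comm]
  gcongr
  change _ ≤ Qm q S ^ 2
  rw [← Qs_pair q hS]
  apply measure_mono
  rintro Y ⟨-, h⟩
  exact ⟨h 0 (by change 0 < k + 2; omega), h 1 (by change 1 < k + 2; omega)⟩

theorem one_le {S : Set Tr} (hS : MeasurableSet S) :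
    Qm q {x | x [] = 1 ∧ child x 0 ∈ S} = q {1} * Qm q S := by
  have hm : MeasurableSet {x : Tr | x [] = 1 ∧ child x 0 ∈ S} :=
    (measurable_root (MeasurableSet.of_discrete (s := {1}))).inter (measurable_child 0 hS)
  unfold Qm
  rw [Rm_nodeT q q hm, tsum_eq_single 1]
  · have : {Y | nodeT 1 Y ∈ {x : Tr | x [] = 1 ∧ child x 0 ∈ S}} = {Y : ℕ → Tr | Y 0 ∈ S} := by
      ext Y
      constructor
      · rintro ⟨-, h⟩; exact h
      · intro h; exact ⟨rfl, h⟩
    rw [this, Qs_one q hS, mul_comm]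
    rfl
  · intro k hk
    have : {Y | nodeT k Y ∈ {x : Tr | x [] = 1 ∧ child x 0 ∈ S}} = ∅ := by
      ext Y
      simp only [Set.mem_ofPred_eq, Set.mem_empty_iff_false, iff_false, not_and]
      intro h
      exact absurd h hk
    rw [this]; simp

theorem zero_le' (h0 : q {0} = 0) : Qm q {x | x [] = 0} = 0 := by
  have hm : MeasurableSet {x : Tr | x [] = 0} :=
    measurable_root (MeasurableSet.of_discrete (s := {0}))
  unfold Qm
  rw [Rm_nodeT q q hm, ENNReal.tsum_eq_zero]
  intro k
  rcases Nat.eq_zero_or_pos k with rfl | hk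
  · rw [h0, mul_zero]
  · have : {Y | nodeT k Y ∈ {x : Tr | x [] = 0}} = ∅ := by
      ext Y
      simp only [Set.mem_ofPred_eq, Set.mem_empty_iff_false, iff_false]
      intro h
      change k = 0 at h
      omega
    rw [this]; simp

/-- basic dichotomy on the number of children -/
theorem split_le (h0 : q {0} = 0) {A S S' : Set Tr} (hS : MeasurableSet S)
    (hS' : MeasurableSet S')
    (h2 : ∀ x ∈ A, 2 ≤ x [] → ∀ b < x [], child x b ∈ S)
    (h1 : ∀ x ∈ A, x [] = 1 → child x 0 ∈ S') :
    Qm q A ≤ c2 q * Qm q S ^ 2 + q {1} * Qm q S' := by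
  have hsub : A ⊆ ({x | 2 ≤ x [] ∧ ∀ b < x [], child x b ∈ S} ∪
      {x | x [] = 1 ∧ child x 0 ∈ S'}) ∪ {x | x [] = 0} := by
    intro x hx
    rcases Nat.lt_or_ge (x []) 2 with h | h
    · have : x [] = 0 ∨ x [] = 1 := by omega
      rcases this with h' | h'
      · exact Or.inr h'
      · exact Or.inl (Or.inr ⟨h', h1 x hx h'⟩)
    · exact Or.inl (Or.inl ⟨h, h2 x hx h⟩)
  calc Qm q A ≤ Qm q (({x | 2 ≤ x [] ∧ ∀ b < x [], child x b ∈ S} ∪
      {x | x [] = 1 ∧ child x 0 ∈ S'}) ∪ {x | x [] = 0}) := measure_mono hsub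
    _ ≤ Qm q ({x | 2 ≤ x [] ∧ ∀ b < x [], child x b ∈ S} ∪
      {x | x [] = 1 ∧ child x 0 ∈ S'}) + Qm q {x | x [] = 0} := measure_union_le _ _
    _ = Qm q ({x | 2 ≤ x [] ∧ ∀ b < x [], child x b ∈ S} ∪
      {x | x [] = 1 ∧ child x 0 ∈ S'}) := by rw [zero_le' q h0, add_zero]
    _ ≤ Qm q {x | 2 ≤ x [] ∧ ∀ b < x [], child x b ∈ S} +
      Qm q {x | x [] = 1 ∧ child x 0 ∈ S'} := measure_union_le _ _
    _ ≤ _ := by
      rw [one_le q hS']
      gcongr
      exact two_le q hS

theorem hasPos_le (hbQ : ∀ᵐ x ∂(Qm q), Bdd D x) (lam : ℝ) :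
    Qm q {x | HasPos lam x} ≤ D * Qm q {x | Pos lam x} := by
  have h1 : Qm q {x | HasPos lam x} ≤ Qm q (⋃ b ∈ range D, {x | child x b ∈ {x | Pos lam x}}) := by
    apply measure_mono_ae
    filter_upwards [hbQ] with x hx h
    obtain ⟨b, hb, hp⟩ := hasPos_iff.mp h
    exact Set.mem_biUnion (mem_range.mpr (hb.trans_le (hx []))) hp
  refine h1.trans ((measure_biUnion_finset_le _ _).trans ?_)
  have h2 : ∀ b ∈ range D, Qm q {x | child x b ∈ {x | Pos lam x}} = Qm q {x | Pos lam x} := by
    intro b _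
    exact Rm_child q q (measurableSet_pos lam) b
  rw [Finset.sum_congr rfl h2, Finset.sum_const, card_range, nsmul_eq_mul]

/-- recursion for the probability of finite blocks -/
theorem FSn_rec (h0 : q {0} = 0) (lam : ℝ) (n : ℕ) :
    Qm q {x | FSn lam (n + 1) x} ≤ Qm q {x | HasPos lam x} +
      (c2 q * Qm q {x | FSn lam n x} ^ 2 + q {1} * Qm q {x | FSn lam n x}) := by
  have h1 : {x | FSn lam (n + 1) x} ⊆ {x | HasPos lam x} ∪
      {x | ∀ b < x [], FSn lam n (child x b)} := fun x hx => hx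
  refine (measure_mono h1).trans ((measure_union_le _ _).trans ?_)
  gcongr
  exact split_le q h0 (measurableSet_FSn lam n) (measurableSet_FSn lam n)
    (fun x hx _ b hb => hx b hb) (fun x hx h => hx 0 (by omega))

theorem FS_zero (h0 : q {0} = 0) (lam : ℝ) (hz : Qm q {x | HasPos lam x} = 0) :
    Qm q {x | FS lam x} = 0 := by
  have : {x | FS lam x} = ⋃ n, {x | FSn lam n x} := by
    ext x
    simp [FS]
  rw [this, measure_iUnion_null_iff]
  intro n
  induction n with
  | zero => exact hz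
  | succ n ih =>
    have := FSn_rec q h0 lam n
    rw [hz, ih] at this
    simpa using this

theorem FS_bound (h0 : q {0} = 0) (lam : ℝ) {π c : ℝ}
    (hπ : (Qm q {x | HasPos lam x}).toReal = π) (hc : (c2 q).toReal = c) (hc0 : 0 < c)
    (h4 : 4 * π ≤ c) : (Qm q {x | FS lam x}).toReal ≤ 2 * π / c := by
  have hπ0 : 0 ≤ π := by rw [← hπ]; positivity
  have hc2top : c2 q ≠ ⊤ := by
    intro h
    rw [h] at hc
    simp at hc
    linarith
  have hq1 : (q {1}).toReal = 1 - c := by
    have h := c12 q h0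
    have h' := congrArg ENNReal.toReal h
    rw [ENNReal.toReal_add (measure_ne_top _ _) hc2top, hc] at h'
    simp at h'
    linarith
  have hc1 : c ≤ 1 := by
    have : (0 : ℝ) ≤ (q {1}).toReal := ENNReal.toReal_nonneg
    linarith
  set u := 2 * π / c with hu
  have hu0 : 0 ≤ u := by positivity
  have hcu : c * u = 2 * π := by rw [hu]; field_simp
  have hu2 : u ≤ 1 / 2 := by
    rw [hu, div_le_iff₀ hc0]; linarith
  have hn : ∀ n, (Qm q {x | FSn lam n x}).toReal ≤ u := by
    intro n
    induction n with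
    | zero =>
      change (Qm q {x | HasPos lam x}).toReal ≤ u
      rw [hπ]
      nlinarith
    | succ n ih =>
      have h := FSn_rec q h0 lam n
      set r := (Qm q {x | FSn lam n x}).toReal with hr
      have hr0 : 0 ≤ r := ENNReal.toReal_nonneg
      have h' := ENNReal.toReal_mono (by
        refine ENNReal.add_ne_top.mpr ⟨measure_ne_top _ _, ENNReal.add_ne_top.mpr
          ⟨ENNReal.mul_ne_top hc2top (ENNReal.pow_ne_top (measure_ne_top _ _)),
            ENNReal.mul_ne_top (measure_ne_top _ _) (measure_ne_top _ _)⟩⟩) h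
      rw [ENNReal.toReal_add (measure_ne_top _ _) (ENNReal.add_ne_top.mpr
          ⟨ENNReal.mul_ne_top hc2top (ENNReal.pow_ne_top (measure_ne_top _ _)),
            ENNReal.mul_ne_top (measure_ne_top _ _) (measure_ne_top _ _)⟩),
        ENNReal.toReal_add (ENNReal.mul_ne_top hc2top (ENNReal.pow_ne_top (measure_ne_top _ _)))
          (ENNReal.mul_ne_top (measure_ne_top _ _) (measure_ne_top _ _)),
        ENNReal.toReal_mul, ENNReal.toReal_mul, ENNReal.toReal_pow, hπ, hc, hq1, ← hr] at h'
      have e1 : c * r ^ 2 ≤ c * u ^ 2 := by gcongr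
      have e2 : (1 - c) * r ≤ (1 - c) * u := by
        apply mul_le_mul_of_nonneg_left ih; linarith
      have e3 : c * u ^ 2 = 2 * π * u := by rw [← hcu]; ring
      have e4 : (1 - c) * u = u - 2 * π := by rw [← hcu]; ring
      nlinarith
  have hU : {x | FS lam x} = ⋃ n, {x | FSn lam n x} := by
    ext x
    simp [FS]
  have hmono : Monotone (fun n => {x | FSn lam n x}) := by
    intro n k hnk x hx
    exact FSn_mono hnk hx
  rw [hU, hmono.measure_iUnion]
  have h5 : ⨆ n, Qm q {x | FSn lam n x} ≤ ENNReal.ofReal u := by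
    apply iSup_le
    intro n
    rw [ENNReal.le_ofReal_iff_toReal_le (measure_ne_top _ _) hu0]
    exact hn n
  calc (⨆ n, Qm q {x | FSn lam n x}).toReal ≤ (ENNReal.ofReal u).toReal :=
        ENNReal.toReal_mono ENNReal.ofReal_ne_top h5
    _ = u := ENNReal.toReal_ofReal hu0

end

end Pool.Agent.J4.H90.UGW
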