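import Pool.Agent.J4.H90.UGW.Block

set_option autoImplicit false
open Finset
open scoped ENNReal

namespace Pool.Agent.J4.H90.UGW

/-- the words which are vertices of the tree -/
def Valid : List ℕ → Tr → Prop
  | [], _ => True
  | a :: w, x => a < x [] ∧ Valid w (child x a)

/-- value at the parent -/
def par (s : ℝ) (f : List ℕ → ℝ) : List ℕ → ℝ
  | [] => s
  | a :: w => f ((a :: w).dropLast)

theorem par_cons (s : ℝ) (f : List ℕ → ℝ) (a : ℕ) (w : List ℕ) :
    par s f (a :: w) = par (f []) (sub f a) w := by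
  cases w with
  | nil => rfl
  | cons b w => rfl

theorem good_iff {lam : ℝ} (w : List ℕ) : ∀ (x : Tr) (s : ℝ) (f : List ℕ → ℝ),
    Good lam w x s f ↔
      (Valid w x → par s f w + ∑ a ∈ range (x w), f (w ++ [a]) = lam * f w) ∧
      (¬ Valid w x → f w = 0) := by
  induction w with
  | nil =>
    intro x s f
    simp only [Good, Valid, par, List.nil_append, forall_const, not_true_eq_false,
      IsEmpty.forall_iff, and_true]
  | cons a w ih =>
    intro x s f
    simp only [Good, Valid]
    by_cases ha : a < x []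
    · rw [if_pos ha, ih]
      simp only [ha, true_and]
      rw [par_cons]
      rfl
    · rw [if_neg ha]
      simp [ha]

def Adj (u w : List ℕ) : Prop := (∃ a : ℕ, u = w ++ [a]) ∨ (∃ a : ℕ, w = u ++ [a])

/-- the block of the root of the full tree -/
def BlkR (lam : ℝ) (x : Tr) : List ℕ → Prop
  | [] => True
  | a :: v => a < x [] ∧ Blk lam v (child x a)

variable {lam : ℝ} {D : ℕ} {x z : Tr}

theorem blk_init (w : List ℕ) (a : ℕ) : ∀ z : Tr, Blk lam (w ++ [a]) z → Blk lam w z := by
  induction w with
  | nil => intro z h; exact blk_zt h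
  | cons b w ih =>
    intro z h
    exact ⟨h.1, h.2.1, ih _ h.2.2⟩

theorem blk_valid (w : List ℕ) : ∀ z : Tr, Blk lam w z → Valid w z := by
  induction w with
  | nil => intro z _; trivial
  | cons b w ih => intro z h; exact ⟨h.2.1, ih _ h.2.2⟩

theorem blkR_init (w : List ℕ) (a : ℕ) (h : BlkR lam x (w ++ [a])) : BlkR lam x w := by
  cases w with
  | nil => trivial
  | cons b w => exact ⟨h.1, blk_init w a _ h.2⟩

theorem blkR_valid (w : List ℕ) (h : BlkR lam x w) : Valid w x := by
  cases w with
  | nil => trivial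
  | cons b w => exact ⟨h.1, blk_valid w _ h.2⟩

theorem blk_length (w : List ℕ) : ∀ z : Tr, Blk lam w z → (w.length : ℝ≥0∞) + 1 ≤ sz lam z := by
  induction w with
  | nil =>
    intro z h
    rw [sz_eq h]
    simpa using one_le_SZ lam z
  | cons b w ih =>
    intro z h
    rw [sz_eq h.1]
    unfold SZ
    rw [sum_ch, List.length_cons, add_comm]
    gcongr
    push_cast
    exact (ih _ h.2.2).trans (Finset.single_le_sum (f := fun b => sz lam (child z b))
      (fun i _ => zero_le) (mem_range.mpr h.2.1))

theorem blkR_length (w : List ℕ) (h : BlkR lam x w) : (w.length : ℝ≥0∞) + 1 ≤ SZ lam x := by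
  cases w with
  | nil => simpa using one_le_SZ lam x
  | cons b w =>
    unfold SZ
    rw [sum_ch, List.length_cons, add_comm]
    gcongr
    push_cast
    exact (blk_length w _ h.2).trans (Finset.single_le_sum (f := fun b => sz lam (child x b))
      (fun i _ => zero_le) (mem_range.mpr h.1))

theorem valid_letters (w : List ℕ) : ∀ x : Tr, Bdd D x → Valid w x → ∀ a ∈ w, a < D := by
  induction w with
  | nil => intro x _ _ a ha; simp at ha
  | cons b w ih =>
    intro x hx hv a ha
    rcases List.mem_cons.mp ha with rfl | ha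
    · exact hv.1.trans_le (hx [])
    · exact ih _ (hx.child b) hv.2 a ha

theorem tt_ne_zero (hD : Bdd D z) (hZ : Zt lam z) : tt lam z ≠ 0 := by
  intro h
  have := tt_ch hD hZ.2 hZ.1
  rw [h] at this
  norm_num at this

theorem tt_eq_zero (hD : Bdd D z) (hs : Solv lam z) (hZ : ¬ Zt lam z) : tt lam z = 0 := by
  by_cases hh : HasPos lam z
  · exact (rec2_ch hD hh).2.1
  · exact absurd ⟨hs, hh⟩ hZ

theorem off_block (w : List ℕ) : ∀ (z : Tr) (c : ℝ) (f : List ℕ → ℝ), Bdd D z → c ≠ 0 →
    IsSol lam z c f → nrm f < ⊤ → ∀ a : ℕ, Blk lam w z → a < z w → ¬ Blk lam (w ++ [a]) z →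
    f (w ++ [a]) = 0 := by
  induction w with
  | nil =>
    intro z c f hD hc hf hn a hb ha hnb
    have hZ : Zt lam z := hb
    obtain ⟨-, h1, -⟩ := isSol_iff.mp hf
    have hc' : f [] ≠ 0 := by
      rw [root_eq hD hf hn hc]
      exact mul_ne_zero hc (tt_ne_zero hD hZ)
    have hs : Solv lam (child z a) := ((solv_ch hD hZ.2).mp hZ.1).1 _ (mem_ch.mpr ⟨a, ha, rfl⟩)
    have hnz : ¬ Zt lam (child z a) := fun h => hnb ⟨hZ, ha, h⟩
    have h2 := root_eq (hD.child a) (h1 a ha) (nrm_sub_lt hf hn ha) hc'
    rw [tt_eq_zero (hD.child a) hs hnz, mul_zero] at h2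
    exact h2
  | cons b w ih =>
    intro z c f hD hc hf hn a hb ha hnb
    obtain ⟨hZ, hbz, hbw⟩ := hb
    obtain ⟨-, h1, -⟩ := isSol_iff.mp hf
    have hc' : f [] ≠ 0 := by
      rw [root_eq hD hf hn hc]
      exact mul_ne_zero hc (tt_ne_zero hD hZ)
    exact ih (child z b) (f []) (sub f b) (hD.child b) hc' (h1 b hbz) (nrm_sub_lt hf hn hbz) a
      hbw ha (fun h => hnb ⟨hZ, hbz, h⟩)

theorem off_blockR (w : List ℕ) (f : List ℕ → ℝ) (hD : Bdd D x) (hf : IsSol lam x 0 f)
    (hn : nrm f < ⊤) (hf0 : f [] = 1) (a : ℕ) (hb : BlkR lam x w) (ha : a < x w)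
    (hnb : ¬ BlkR lam x (w ++ [a])) : f (w ++ [a]) = 0 := by
  obtain ⟨-, h1, -⟩ := isSol_iff.mp hf
  have hp : Pos lam x := pos_of hf hn (by rw [hf0]; exact one_ne_zero)
  rw [hf0] at h1
  cases w with
  | nil =>
    have hs : Solv lam (child x a) := ((pos_iff hD).mp hp).1 a ha
    have hnz : ¬ Zt lam (child x a) := fun h => hnb ⟨ha, h⟩
    have h2 := root_eq (hD.child a) (h1 a ha) (nrm_sub_lt hf hn ha) one_ne_zero
    rw [tt_eq_zero (hD.child a) hs hnz, mul_zero] at h2
    exact h2
  | cons b w =>
    exact off_block w (child x b) 1 (sub f b) (hD.child b) one_ne_zero (h1 b hb.1)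
      (nrm_sub_lt hf hn hb.1) a hb.2 ha (fun h => hnb ⟨hb.1, h⟩)

open Classical in
/-- adjacency matrix of a finite set of words -/
noncomputable def AM (B : Finset (List ℕ)) : Matrix B B ℝ :=
  fun w u => if Adj (u : List ℕ) (w : List ℕ) then 1 else 0

theorem finite_words (D M : ℕ) : {w : List ℕ | w.length < M ∧ ∀ a ∈ w, a < D}.Finite := by
  have h := (List.finite_length_lt (Fin D) M).image (List.map Fin.val)
  refine h.subset ?_
  rintro w ⟨h1, h2⟩
  refine ⟨w.pmap (fun a ha => (⟨a, ha⟩ : Fin D)) h2, ?_, ?_⟩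
  · simpa using h1
  · rw [List.map_pmap]
    simp

theorem finite_small (D M : ℕ) : {lam : ℝ | ∃ x, Bdd D x ∧ Pos lam x ∧
    ¬ ((M : ℝ≥0∞) + 1 ≤ SZ lam x)}.Finite := by
  classical
  have hW := finite_words D M
  have hfin : (⋃ B ∈ (hW.toFinset.powerset : Finset (Finset (List ℕ))),
      {lam : ℝ | Module.End.HasEigenvalue (Matrix.toLin' (AM B)) lam}).Finite := by
    apply Set.Finite.biUnion (Finset.finite_toSet _)
    intro B _
    exact Module.End.finite_hasEigenvalue _
  refine hfin.subset ?_
  rintro lam ⟨x, hD, hp, hs⟩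
  obtain ⟨f, hf, hf0, hfn⟩ := al_exists hp
  have hn : nrm f < ⊤ := by rw [hfn]; exact hp
  have hsub : {w | BlkR lam x w} ⊆ {w : List ℕ | w.length < M ∧ ∀ a ∈ w, a < D} := by
    intro w hw
    refine ⟨?_, valid_letters w x hD (blkR_valid w hw)⟩
    have h1 := blkR_length w hw
    by_contra hlen
    apply hs
    refine le_trans ?_ h1
    gcongr
    exact_mod_cast not_lt.mp hlen
  have hBfin : {w | BlkR lam x w}.Finite := hW.subset hsub
  set B : Finset (List ℕ) := hBfin.toFinset with hB
  have hBmem : ∀ w, w ∈ B ↔ BlkR lam x w := by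
    intro w
    rw [hB, Set.Finite.mem_toFinset]
    rfl
  have hBW : B ∈ (hW.toFinset.powerset : Finset (Finset (List ℕ))) := by
    rw [mem_powerset]
    intro w hw
    rw [Set.Finite.mem_toFinset]
    exact hsub ((hBmem w).mp hw)
  simp only [Set.mem_iUnion]
  refine ⟨B, hBW, ?_⟩
  -- the eigenvector
  let g : B → ℝ := fun w => f w
  have hg0 : g ≠ 0 := by
    intro h
    have h1 := congrFun h ⟨[], (hBmem []).mpr trivial⟩
    change f [] = 0 at h1
    rw [hf0] at h1
    exact one_ne_zero h1
  have hAg : (AM B).mulVec g = lam • g := by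
    funext w
    obtain ⟨w, hw⟩ := w
    have hwB := (hBmem w).mp hw
    have hloc := ((good_iff w x 0 f).mp (hf w)).1 (blkR_valid w hwB)
    change ∑ u : B, (if Adj (u : List ℕ) w then 1 else 0) * f u = lam * f w
    rw [← hloc]
    have hinjw : Function.Injective (fun a : ℕ => w ++ [a]) := by
      intro a b h
      simpa using h
    -- children part
    have hchild : ∑ a ∈ range (x w), f (w ++ [a]) =
        ∑ u ∈ B.filter (fun u => ∃ a : ℕ, u = w ++ [a]), f u := by
      have h1 : ∑ a ∈ range (x w), f (w ++ [a]) =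
          ∑ a ∈ (range (x w)).filter (fun a => BlkR lam x (w ++ [a])), f (w ++ [a]) := by
        symm
        apply Finset.sum_filter_of_ne
        intro a ha hne
        by_contra hnb
        exact hne (off_blockR w f hD hf hn hf0 a hwB (mem_range.mp ha) hnb)
      rw [h1, ← Finset.sum_image (f := f) (g := fun a : ℕ => w ++ [a]) (hinjw.injOn)]
      apply Finset.sum_congr _ (fun _ _ => rfl)
      ext u
      simp only [mem_image, mem_filter, mem_range]
      constructor
      · rintro ⟨a, ⟨-, h2⟩, rfl⟩
        exact ⟨(hBmem _).mpr h2, a, rfl⟩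
      · rintro ⟨h2, a, rfl⟩
        have h3 := (hBmem _).mp h2
        refine ⟨a, ⟨?_, h3⟩, rfl⟩
        have hv := blkR_valid _ h3
        have : ∀ (w : List ℕ) (x : Tr), Valid (w ++ [a]) x → a < x w := by
          intro w
          induction w with
          | nil => intro x h; exact h.1
          | cons b w ih => intro x h; exact ih _ h.2
        exact this w x hv
    have hpar : par 0 f w = ∑ u ∈ B.filter (fun u => ∃ a : ℕ, w = u ++ [a]), f u := by
      rcases List.eq_nil_or_concat w with rfl | ⟨v, a, rfl⟩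
      · simp [par]
      · have h1 : B.filter (fun u => ∃ b : ℕ, v ++ [a] = u ++ [b]) = {v} := by
          ext u
          simp only [mem_filter, mem_singleton]
          constructor
          · rintro ⟨-, b, hb⟩
            exact (List.append_inj' hb rfl).1.symm
          · rintro rfl
            refine ⟨(hBmem _).mpr (blkR_init u a ?_), a, rfl⟩
            rw [List.concat_eq_append] at hwB
            exact hwB
        simp only [List.concat_eq_append]
        rw [h1, Finset.sum_singleton]
        cases v with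
        | nil => rfl
        | cons b v =>
          have h2 : (b :: (v ++ [a])).dropLast = b :: v := by
            rw [← List.cons_append]; exact List.dropLast_concat
          simp only [par, List.cons_append]
          rw [h2]
    rw [hchild, hpar]
    have hsum : ∑ u : B, (if Adj (u : List ℕ) w then 1 else 0) * f u =
        ∑ u ∈ B.filter (fun u => Adj u w), f u := by
      rw [Finset.sum_filter, ← Finset.sum_coe_sort B]
      apply Finset.sum_congr rfl
      intro u _
      split_ifs <;> simp
    rw [hsum, ← Finset.sum_union]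
    · apply Finset.sum_congr _ (fun _ _ => rfl)
      ext u
      simp only [mem_union, mem_filter, Adj]
      tauto
    · rw [Finset.disjoint_left]
      intro u h1 h2
      obtain ⟨-, a, ha⟩ := mem_filter.mp h1
      obtain ⟨-, b, hb⟩ := mem_filter.mp h2
      have h3 := congrArg List.length ha
      have h4 := congrArg List.length hb
      simp at h3 h4
      omega
  apply Module.End.hasEigenvalue_of_hasEigenvector (x := g)
  rw [Module.End.hasEigenvector_iff]
  refine ⟨?_, hg0⟩
  rw [Module.End.mem_eigenspace_iff, Matrix.toLin'_apply]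
  exact hAg

end Pool.Agent.J4.H90.UGW
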