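import Mathlib

set_option autoImplicit false
open Filter Topology

namespace Pool.Agent.J4.H90.UGW

section

variable {H : Type*} [NormedAddCommGroup H] [InnerProductSpace ℝ H]

theorem B_apply (K : H →L[ℝ] H) (u : H) : (1 - K * K) u = u - K (K u) := rfl

theorem B_sym {K : H →L[ℝ] H} (hK : ∀ u v, (inner ℝ (K u) (v)) = (inner ℝ (u) (K v))) (u v : H) :
    (inner ℝ ((1 - K * K) u) (v)) = (inner ℝ (u) ((1 - K * K) v)) := by
  rw [B_apply, B_apply, inner_sub_left, inner_sub_right, hK, hK]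

theorem Bpow_sym {K : H →L[ℝ] H} (hK : ∀ u v, (inner ℝ (K u) (v)) = (inner ℝ (u) (K v))) (n : ℕ) :
    ∀ u v : H, (inner ℝ (((1 - K * K) ^ n) u) (v)) = (inner ℝ (u) (((1 - K * K) ^ n) v)) := by
  induction n with
  | zero => intro u v; rfl
  | succ n ih =>
    intro u v
    rw [pow_succ, mul_apply_eq_comp, ih, B_sym hK, ← mul_apply_eq_comp,
      ← pow_succ', pow_succ]

theorem B_norm {K : H →L[ℝ] H} (hK : ∀ u v, (inner ℝ (K u) (v)) = (inner ℝ (u) (K v))) (hn : ∀ u, ‖K u‖ ≤ ‖u‖) (u : H) :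
    ‖(1 - K * K) u‖ ^ 2 ≤ ‖u‖ ^ 2 - ‖K u‖ ^ 2 := by
  rw [B_apply, @norm_sub_sq ℝ, ← hK, real_inner_self_eq_norm_sq]
  have h1 := hn (K u)
  have h2 : ‖K (K u)‖ ^ 2 ≤ ‖K u‖ ^ 2 := by gcongr
  simp only [RCLike.re_to_real]
  linarith

theorem g_eq {K : H →L[ℝ] H} (hK : ∀ u v, (inner ℝ (K u) (v)) = (inner ℝ (u) (K v))) (m n : ℕ) (d : H) :
    (inner ℝ (((1 - K * K) ^ m) d) (((1 - K * K) ^ n) d)) = (inner ℝ (((1 - K * K) ^ (m + n)) d) (d)) := by
  rw [← Bpow_sym hK, ← mul_apply_eq_comp, ← pow_add, add_comm n m]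

theorem g_sq {K : H →L[ℝ] H} (hK : ∀ u v, (inner ℝ (K u) (v)) = (inner ℝ (u) (K v))) (m : ℕ) (d : H) :
    (inner ℝ (((1 - K * K) ^ (2 * m)) d) (d)) = ‖((1 - K * K) ^ m) d‖ ^ 2 := by
  rw [two_mul, ← g_eq hK, real_inner_self_eq_norm_sq]

theorem g_anti {K : H →L[ℝ] H} (hK : ∀ u v, (inner ℝ (K u) (v)) = (inner ℝ (u) (K v))) (hn : ∀ u, ‖K u‖ ≤ ‖u‖) (d : H) :
    Antitone (fun m : ℕ => (inner ℝ (((1 - K * K) ^ (2 * m)) d) (d))) := by
  apply antitone_nat_of_succ_le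
  intro m
  rw [g_sq hK, g_sq hK, pow_succ' (1 - K * K) m, mul_apply_eq_comp]
  have := B_norm hK hn (((1 - K * K) ^ m) d)
  nlinarith [sq_nonneg ‖K (((1 - K * K) ^ m) d)‖]

theorem exists_kernel [CompleteSpace H] {K : H →L[ℝ] H} (hK : ∀ u v, (inner ℝ (K u) (v)) = (inner ℝ (u) (K v)))
    (hn : ∀ u, ‖K u‖ ≤ ‖u‖) (d : H) {κ : ℝ} (hκ : 0 < κ)
    (h : ∀ m : ℕ, κ ≤ (inner ℝ (((1 - K * K) ^ (2 * m)) d) (d))) : ∃ v, K v = 0 ∧ (inner ℝ (v) (d)) ≠ 0 := by
  set g : ℕ → ℝ := fun m => (inner ℝ (((1 - K * K) ^ (2 * m)) d) (d)) with hg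
  have hanti : Antitone g := g_anti hK hn d
  have hbdd : BddBelow (Set.range g) := ⟨κ, by rintro _ ⟨m, rfl⟩; exact h m⟩
  have hlim := tendsto_atTop_ciInf hanti hbdd
  set L := ⨅ m, g m with hL
  have hLκ : κ ≤ L := le_ciInf h
  have hLle : ∀ m, L ≤ g m := fun m => ciInf_le hbdd m
  let v : ℕ → H := fun j => ((1 - K * K) ^ (2 * j)) d
  have hdist : ∀ i j, ‖v i - v j‖ ^ 2 = g (2 * i) + g (2 * j) - 2 * g (i + j) := by
    intro i j
    rw [@norm_sub_sq ℝ]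
    simp only [v, RCLike.re_to_real]
    rw [← g_sq hK, ← g_sq hK, g_eq hK]
    simp only [hg]
    rw [mul_add]
    ring
  have hC : CauchySeq v := by
    rw [Metric.cauchySeq_iff']
    intro ε hε
    have h1 : ∀ᶠ n in atTop, g n < L + ε ^ 2 / 4 :=
      hlim.eventually (gt_mem_nhds (by have : 0 < ε ^ 2 / 4 := by positivity
                                       linarith))
    obtain ⟨N, hN⟩ := h1.exists_forall_of_atTop
    refine ⟨N, fun n hnN => ?_⟩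
    rw [dist_eq_norm]
    have h2 := hdist n N
    have h3 := hN (2 * n) (by omega)
    have h4 := hN (2 * N) (by omega)
    have h5 := hLle (n + N)
    have h6 : ‖v n - v N‖ ^ 2 < ε ^ 2 := by nlinarith
    exact lt_of_pow_lt_pow_left₀ 2 hε.le h6
  obtain ⟨w, hw⟩ := cauchySeq_tendsto_of_complete hC
  have hBB : (1 - K * K) ((1 - K * K) w) = w := by
    have h1 : Tendsto (fun j => (1 - K * K) ((1 - K * K) (v j))) atTop
        (𝓝 ((1 - K * K) ((1 - K * K) w))) :=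
      (((1 - K * K).continuous.comp (1 - K * K).continuous).tendsto w).comp hw
    have h2 : (fun j => (1 - K * K) ((1 - K * K) (v j))) = fun j => v (j + 1) := by
      funext j
      simp only [v]
      have h3 : (1 - K * K) ^ (2 * (j + 1)) =
          (1 - K * K) * ((1 - K * K) * (1 - K * K) ^ (2 * j)) := by
        rw [show 2 * (j + 1) = (2 * j + 1) + 1 by ring, pow_succ', pow_succ']
      rw [h3]
      rfl
    rw [h2] at h1
    exact tendsto_nhds_unique h1 (hw.comp (tendsto_add_atTop_nat 1))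
  have hKw : K w = 0 := by
    have h1 := B_norm hK hn ((1 - K * K) w)
    have h2 := B_norm hK hn w
    rw [hBB] at h1
    have h3 : ‖K w‖ ^ 2 ≤ 0 := by nlinarith [sq_nonneg ‖K ((1 - K * K) w)‖]
    have h4 : ‖K w‖ = 0 := by nlinarith [norm_nonneg (K w)]
    exact norm_eq_zero.mp h4
  refine ⟨w, hKw, ?_⟩
  have h1 : Tendsto (fun j => (inner ℝ (v j) (d))) atTop (𝓝 (inner ℝ (w) (d))) :=
    ((continuous_id.inner continuous_const).tendsto w).comp hw
  have h2 : (fun j => (inner ℝ (v j) (d))) = g := rfl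
  rw [h2] at h1
  have h3 := tendsto_nhds_unique h1 hlim
  rw [h3]
  exact (hκ.trans_le hLκ).ne'

end

end Pool.Agent.J4.H90.UGW
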