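import Pool.Agent.J4.H90.UGW.Pair

set_option autoImplicit false
open Finset MeasureTheory Measure ProbabilityTheory
open scoped ENNReal

namespace Pool.Agent.J4.H90.UGW

/-- splitting off one coordinate of a product measure -/
theorem infinitePi_option {κ X : Type*} [MeasurableSpace X] (μ0 : Measure X)
    [IsProbabilityMeasure μ0] (μ : κ → Measure X) [∀ i, IsProbabilityMeasure (μ i)]
    [∀ o : Option κ, IsProbabilityMeasure (Option.elim o μ0 μ)] :
    (μ0.prod (infinitePi μ)).map (fun (P : X × (κ → X)) (o : Option κ) => Option.elim o P.1 P.2) =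
      infinitePi (fun o : Option κ => Option.elim o μ0 μ) := by
  classical
  have hmeas : Measurable (fun (P : X × (κ → X)) (o : Option κ) => Option.elim o P.1 P.2) := by
    apply measurable_pi_lambda
    intro o
    cases o with
    | none => exact measurable_fst
    | some a => exact (measurable_pi_apply a).comp measurable_snd
  apply eq_infinitePi
  intro s t ht
  rw [map_apply hmeas (MeasurableSet.pi s.countable_toSet (fun i _ => ht i))]
  have hpre : (fun (P : X × (κ → X)) (o : Option κ) => Option.elim o P.1 P.2) ⁻¹'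
      (Set.pi s t) = {u | none ∈ s → u ∈ t none} ×ˢ
        (Set.pi (eraseNone s : Finset κ) (fun a => t (some a))) := by
    ext P
    simp only [Set.mem_preimage, Set.mem_pi, mem_coe, Set.mem_prod, Set.mem_ofPred_eq,
      mem_eraseNone]
    constructor
    · intro h
      exact ⟨fun hn => h none hn, fun a ha => h (some a) ha⟩
    · rintro ⟨h1, h2⟩ o ho
      cases o with
      | none => exact h1 ho
      | some a => exact h2 a ho
  rw [hpre, prod_prod, infinitePi_pi _ (fun i _ => ht (some i))]
  by_cases hn : none ∈ s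
  · have hs : s = insertNone (eraseNone s) := by
      rw [insertNone_eraseNone, insert_eq_of_mem hn]
    conv_rhs => rw [hs]
    rw [Finset.prod_insertNone]
    congr 1
    congr 1
    ext u
    simp [hn]
  · have hs : s = (eraseNone s).map Function.Embedding.some := by
      rw [map_some_eraseNone, erase_eq_of_notMem hn]
    conv_rhs => rw [hs]
    rw [Finset.prod_map]
    have hu : {u : X | none ∈ s → u ∈ t none} = Set.univ := by
      ext u
      simp [hn]
    rw [hu, measure_univ, one_mul]
    rfl

section

variable (p q : Measure ℕ) [IsProbabilityMeasure p] [IsProbabilityMeasure q]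

/-- offspring laws -/
noncomputable def rl : List ℕ → Measure ℕ
  | [] => p
  | _ :: _ => q

instance rl_prob (w : List ℕ) : IsProbabilityMeasure (rl p q w) := by
  cases w <;> (unfold rl; infer_instance)

/-- law of the tree with root law `p` and offspring law `q` -/
noncomputable def Rm : Measure Tr := infinitePi (rl p q)

instance : IsProbabilityMeasure (Rm p q) := by
  unfold Rm; infer_instance

/-- law of the cavity tree -/
noncomputable def Qm : Measure Tr := Rm q q

instance : IsProbabilityMeasure (Qm q) := by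
  unfold Qm; infer_instance

omit [IsProbabilityMeasure p] [IsProbabilityMeasure q] in
theorem Qm_eq : Qm q = infinitePi (fun _ : List ℕ => q) := by
  have : rl q q = fun _ => q := by
    funext w
    cases w <;> rfl
  unfold Qm Rm
  rw [this]

noncomputable def Qs : Measure (ℕ → Tr) := infinitePi (fun _ : ℕ => Qm q)

instance : IsProbabilityMeasure (Qs q) := by
  unfold Qs; infer_instance

/-- the tree with root degree `k` and subtrees `Y` -/
def nodeT (k : ℕ) (Y : ℕ → Tr) : Tr
  | [] => k
  | a :: w => Y a w

theorem measurable_nodeT : Measurable (fun P : ℕ × (ℕ → Tr) => nodeT P.1 P.2) := by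
  apply measurable_pi_lambda
  intro w
  cases w with
  | nil => exact measurable_fst
  | cons a w =>
    exact (measurable_pi_apply w).comp ((measurable_pi_apply a).comp measurable_snd)

theorem Rm_eq : (p.prod (Qs q)).map (fun P => nodeT P.1 P.2) = Rm p q := by
  have h1 : (Qs q).map (MeasurableEquiv.curry ℕ (List ℕ) ℕ).symm =
      infinitePi (fun _ : ℕ × List ℕ => q) := by
    unfold Qs
    rw [Qm_eq]
    exact infinitePi_map_curry_symm (fun (_ : ℕ) (_ : List ℕ) => q)
  let e : List ℕ → Option (ℕ × List ℕ) := fun w => match w with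
    | [] => none
    | a :: w => some (a, w)
  have he : Function.Injective e := by
    intro w v h
    cases w with
    | nil => cases v with
      | nil => rfl
      | cons b v => simp [e] at h
    | cons a w => cases v with
      | nil => simp [e] at h
      | cons b v => simpa [e] using h
  have hpr : ∀ o : Option (ℕ × List ℕ), IsProbabilityMeasure
      (Option.elim o p (fun _ => q)) := by
    intro o
    cases o <;> (simp only [Option.elim]; infer_instance)
  have h2 := infinitePi_option p (fun _ : ℕ × List ℕ => q)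
  have h3 := map_infinitePi_infinitePi_of_inj (Ω := fun _ : Option (ℕ × List ℕ) => ℕ)
    (P := fun o : Option (ℕ × List ℕ) => Option.elim o p (fun _ => q)) he
  have h4 : (fun w => Option.elim (e w) p (fun _ => q)) = rl p q := by
    funext w
    cases w <;> rfl
  unfold Rm
  rw [← h4, ← h3, ← h2, ← h1]
  have hm0 : Measurable (fun (P : ℕ × ((ℕ × List ℕ) → ℕ)) (o : Option (ℕ × List ℕ)) =>
      Option.elim o P.1 P.2) := by
    apply measurable_pi_lambda
    intro o
    cases o with
    | none => exact measurable_fst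
    | some a => exact (measurable_pi_apply a).comp measurable_snd
  have hm1 : Measurable (fun (ω : Option (ℕ × List ℕ) → ℕ) (i : List ℕ) => ω (e i)) :=
    measurable_pi_lambda _ (fun i => measurable_pi_apply _)
  have h5 : p.prod ((Qs q).map (MeasurableEquiv.curry ℕ (List ℕ) ℕ).symm) =
      (p.prod (Qs q)).map (Prod.map id (MeasurableEquiv.curry ℕ (List ℕ) ℕ).symm) := by
    have := Measure.map_prod_map p (Qs q) (f := (id : ℕ → ℕ))
      (g := (MeasurableEquiv.curry ℕ (List ℕ) ℕ).symm) measurable_id
      (MeasurableEquiv.curry ℕ (List ℕ) ℕ).symm.measurable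
    rw [Measure.map_id] at this
    exact this
  rw [h5, map_map hm0 (measurable_id.prodMap (MeasurableEquiv.curry ℕ (List ℕ) ℕ).symm.measurable),
    map_map hm1 (hm0.comp (measurable_id.prodMap
      (MeasurableEquiv.curry ℕ (List ℕ) ℕ).symm.measurable))]
  congr 1
  funext P w
  cases w <;> rfl

theorem lintegral_Rm {G : Tr → ℝ≥0∞} (hG : Measurable G) :
    ∫⁻ x, G x ∂(Rm p q) = ∑' k : ℕ, (∫⁻ Y, G (nodeT k Y) ∂(Qs q)) * p {k} := by
  rw [← Rm_eq, lintegral_map hG measurable_nodeT,
    lintegral_prod (fun P : ℕ × (ℕ → Tr) => G (nodeT P.1 P.2))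
      (hG.comp measurable_nodeT).aemeasurable, lintegral_countable']

def skipN (i a : ℕ) : ℕ := if a < i then a else a + 1

/-- insert `z` at the place `i` of the sequence `Y` -/
def ins (i : ℕ) (z : Tr) (Y : ℕ → Tr) : ℕ → Tr :=
  fun a => if a = i then z else Y (if a < i then a else a - 1)

theorem Qs_ins (i : ℕ) :
    ((Qm q).prod (Qs q)).map (fun P => ins i P.1 P.2) = Qs q := by
  let e : ℕ → Option ℕ := fun a => if a = i then none else some (if a < i then a else a - 1)
  have he : Function.Injective e := by
    intro a b h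
    simp only [e] at h
    by_cases ha : a = i <;> by_cases hb : b = i
    · rw [ha, hb]
    · simp [ha, hb] at h
    · simp [ha, hb] at h
    · simp only [ha, hb, if_false, Option.some.injEq] at h
      split_ifs at h <;> omega
  have hpr : ∀ o : Option ℕ, IsProbabilityMeasure (Option.elim o (Qm q) (fun _ => Qm q)) := by
    intro o
    cases o <;> (simp only [Option.elim]; infer_instance)
  have h2 := infinitePi_option (Qm q) (fun _ : ℕ => Qm q)
  have h3 := map_infinitePi_infinitePi_of_inj (Ω := fun _ : Option ℕ => Tr)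
    (P := fun o : Option ℕ => Option.elim o (Qm q) (fun _ => Qm q)) he
  have h4 : (fun a => Option.elim (e a) (Qm q) (fun _ => Qm q)) = fun _ => Qm q := by
    funext a
    cases (e a) <;> rfl
  rw [h4] at h3
  have hm0 : Measurable (fun (P : Tr × (ℕ → Tr)) (o : Option ℕ) =>
      Option.elim o P.1 P.2) := by
    apply measurable_pi_lambda
    intro o
    cases o with
    | none => exact measurable_fst
    | some a => exact (measurable_pi_apply a).comp measurable_snd
  have hm1 : Measurable (fun (ω : Option ℕ → Tr) (i : ℕ) => ω (e i)) :=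
    measurable_pi_lambda _ (fun i => measurable_pi_apply _)
  change _ = infinitePi (fun _ : ℕ => Qm q)
  rw [← h3, ← h2, map_map hm1 hm0]
  congr 1
  funext P a
  simp only [Function.comp_apply, ins, e]
  split_ifs <;> rfl

theorem measurable_ins (i : ℕ) : Measurable (fun P : Tr × (ℕ → Tr) => ins i P.1 P.2) := by
  apply measurable_pi_lambda
  intro a
  unfold ins
  split_ifs
  · exact measurable_fst
  · exact (measurable_pi_apply _).comp measurable_snd
  · exact (measurable_pi_apply _).comp measurable_snd

theorem lintegral_Qs_ins (i : ℕ) {G : (ℕ → Tr) → ℝ≥0∞} (hG : Measurable G) :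
    ∫⁻ Y, G Y ∂(Qs q) = ∫⁻ z, ∫⁻ Y, G (ins i z Y) ∂(Qs q) ∂(Qm q) := by
  conv_lhs => rw [← Qs_ins q i]
  rw [lintegral_map hG (measurable_ins i),
    lintegral_prod (fun P : Tr × (ℕ → Tr) => G (ins i P.1 P.2))
      (hG.comp (measurable_ins i)).aemeasurable]

theorem rem_nodeT {k i : ℕ} {z : Tr} {Y : ℕ → Tr} :
    rem (nodeT k (ins i z Y)) i = nodeT (k - 1) Y := by
  funext w
  cases w with
  | nil => rfl
  | cons a w =>
    simp only [rem, nodeT, ins]
    by_cases h : a < i
    · rw [if_pos h, if_neg (by omega), if_pos h]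
    · rw [if_neg h, if_neg (by omega), if_neg (by omega)]
      rfl

theorem child_nodeT_ins {k i : ℕ} {z : Tr} {Y : ℕ → Tr} :
    child (nodeT k (ins i z Y)) i = z := by
  funext w
  simp [child, nodeT, ins]

theorem child_nodeT {k i : ℕ} {Y : ℕ → Tr} : child (nodeT k Y) i = Y i := rfl

theorem measurable_child (i : ℕ) : Measurable (fun x : Tr => child x i) :=
  measurable_pi_lambda _ (fun _ => measurable_pi_apply _)

theorem measurable_rem (i : ℕ) : Measurable (fun x : Tr => rem x i) := by
  apply measurable_pi_lambda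
  intro w
  cases w with
  | nil => exact (measurable_from_top (f := fun n : ℕ => n - 1)).comp (measurable_pi_apply _)
  | cons a w => exact measurable_pi_apply _

theorem measurable_sum_range {f : ℕ → Tr → ℝ≥0∞} (hf : ∀ i, Measurable (f i)) :
    Measurable (fun x : Tr => ∑ i ∈ range (x []), f i x) := by
  have h : Measurable (fun P : ℕ × Tr => ∑ i ∈ range P.1, f i P.2) := by
    apply measurable_from_prod_countable_right
    intro k
    change Measurable (fun y : Tr => ∑ i ∈ range k, f i y)
    exact Finset.measurable_sum _ (fun i _ => hf i)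
  have h0 : Measurable (fun x : Tr => x []) := measurable_pi_apply _
  exact h.comp (h0.prodMk measurable_id)

/-- edge form of the mass transport principle -/
theorem mtp {m : ℝ≥0∞} (hpq : ∀ k : ℕ, ((k : ℝ≥0∞) + 1) * p {k + 1} = m * q {k})
    {F : Tr → Tr → ℝ≥0∞} (hF : Measurable (Function.uncurry F)) :
    ∫⁻ x, ∑ i ∈ range (x []), F (rem x i) (child x i) ∂(Rm p q) =
      m * ∫⁻ y, ∫⁻ z, F y z ∂(Qm q) ∂(Qm q) := by
  have hFi : ∀ i, Measurable (fun x : Tr => F (rem x i) (child x i)) := fun i =>
    hF.comp ((measurable_rem i).prodMk (measurable_child i))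
  rw [lintegral_Rm p q (measurable_sum_range hFi)]
  have h1 : ∀ k, ∫⁻ Y, ∑ i ∈ range ((nodeT k Y) []), F (rem (nodeT k Y) i)
      (child (nodeT k Y) i) ∂(Qs q) =
      k * ∫⁻ Y, ∫⁻ z, F (nodeT (k - 1) Y) z ∂(Qm q) ∂(Qs q) := by
    intro k
    have hnk : Measurable (fun Y : ℕ → Tr => nodeT k Y) :=
      measurable_nodeT.comp (measurable_const.prodMk measurable_id)
    have h2 : ∀ i, Measurable (fun Y : ℕ → Tr => F (rem (nodeT k Y) i) (child (nodeT k Y) i)) :=
      fun i => (hFi i).comp hnk
    change ∫⁻ Y, ∑ i ∈ range k, F (rem (nodeT k Y) i) (child (nodeT k Y) i) ∂(Qs q) = _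
    rw [lintegral_finsetSum _ (fun i _ => h2 i)]
    have h3 : ∀ i ∈ range k, ∫⁻ Y, F (rem (nodeT k Y) i) (child (nodeT k Y) i) ∂(Qs q) =
        ∫⁻ Y, ∫⁻ z, F (nodeT (k - 1) Y) z ∂(Qm q) ∂(Qs q) := by
      intro i _
      rw [lintegral_Qs_ins q i (h2 i)]
      simp only [rem_nodeT, child_nodeT_ins]
      rw [lintegral_lintegral_swap]
      apply Measurable.aemeasurable
      exact hF.comp ((measurable_nodeT.comp (measurable_const.prodMk measurable_snd)).prodMk
        measurable_fst)
    rw [Finset.sum_congr rfl h3, Finset.sum_const, card_range, nsmul_eq_mul]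
  simp only [h1]
  rw [tsum_eq_zero_add' ENNReal.summable]
  simp only [Nat.cast_zero, zero_mul, zero_add]
  unfold Qm
  rw [lintegral_Rm q q (G := fun y => ∫⁻ z, F y z ∂(Rm q q))
    (Measurable.lintegral_prod_right hF), ← ENNReal.tsum_mul_left]
  apply tsum_congr
  intro k
  have := hpq k
  push_cast
  calc ((k : ℝ≥0∞) + 1) * (∫⁻ Y, ∫⁻ z, F (nodeT k Y) z ∂(Rm q q) ∂(Qs q)) * p {k + 1}
      = (∫⁻ Y, ∫⁻ z, F (nodeT k Y) z ∂(Rm q q) ∂(Qs q)) * (((k : ℝ≥0∞) + 1) * p {k + 1}) := by ring
    _ = m * ((∫⁻ Y, ∫⁻ z, F (nodeT k Y) z ∂(Rm q q) ∂(Qs q)) * q {k}) := by rw [this]; ring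

end

end Pool.Agent.J4.H90.UGW
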