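import Pool.Agent.J4.H90.UGW.Count

set_option autoImplicit false
open Finset MeasureTheory Measure ProbabilityTheory
open scoped ENNReal

namespace Pool.Agent.J4.H90.UGW

section

variable (q : Measure ℕ) [IsProbabilityMeasure q] (p : Measure ℕ) [IsProbabilityMeasure p]
  {m : ℝ≥0∞} {D : ℕ}

theorem Rm_zero (h0 : p {0} = 0) : Rm p q {x | x [] = 0} = 0 := by
  have hm : MeasurableSet {x : Tr | x [] = 0} :=
    measurable_root (MeasurableSet.of_discrete (s := {0}))
  rw [Rm_nodeT q p hm, ENNReal.tsum_eq_zero]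
  intro k
  rcases Nat.eq_zero_or_pos k with rfl | hk
  · rw [h0, mul_zero]
  · have : {Y | nodeT k Y ∈ {x : Tr | x [] = 0}} = ∅ := by
      ext Y
      simp only [Set.mem_ofPred_eq, Set.mem_empty_iff_false, iff_false]
      intro h
      change k = 0 at h
      omega
    rw [this]; simp

theorem mtp_zero (hpq : ∀ k : ℕ, ((k : ℝ≥0∞) + 1) * p {k + 1} = m * q {k})
    {F : Tr → Tr → ℝ≥0∞} (hF : Measurable (Function.uncurry F))
    (h : ∀ᵐ x ∂(Rm p q), ∀ i < x [], F (rem x i) (child x i) = 0) : m * J q F = 0 := by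
  rw [← mtpJ q p hpq hF]
  have hFi : ∀ i, Measurable (fun x : Tr => F (rem x i) (child x i)) := fun i =>
    hF.comp ((measurable_rem i).prodMk (measurable_child i))
  rw [lintegral_eq_zero_iff (measurable_sum_range hFi)]
  filter_upwards [h] with x hx
  exact Finset.sum_eq_zero (fun i hi => hx i (mem_range.mp hi))

theorem Qm_pos_top (hpq : ∀ k : ℕ, ((k : ℝ≥0∞) + 1) * p {k + 1} = m * q {k})
    (hbR : ∀ᵐ x ∂(Rm p q), Bdd D x) (hbQ : ∀ᵐ x ∂(Qm q), Bdd D x) (hm : m ≠ 0) (lam : ℝ)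
    (hπ : Qm q {x | HasPos lam x} ≠ 0) : Qm q {x | Pos lam x ∧ SZ lam x = ⊤} = 0 := by
  have hfb := finite_block q p hpq hbR hbQ lam
  have hSt : MeasurableSet {x | SZ lam x = ⊤} :=
    measurable_SZ lam (measurableSet_singleton _)
  have hS : MeasurableSet {x | Pos lam x ∧ SZ lam x = ⊤} := (measurableSet_pos lam).inter hSt
  let F : Tr → Tr → ℝ≥0∞ := fun y z =>
    ({x | Pos lam x ∧ SZ lam x = ⊤}.indicator (1 : Tr → ℝ≥0∞) y) *
      ({x | HasPos lam x}.indicator (1 : Tr → ℝ≥0∞) z)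
  have hF : Measurable (Function.uncurry F) :=
    ((measurable_one.indicator hS).comp measurable_fst).mul
      ((measurable_one.indicator (measurableSet_hasPos lam)).comp measurable_snd)
  have e1 : J q F = Qm q {x | Pos lam x ∧ SZ lam x = ⊤} * Qm q {x | HasPos lam x} := by
    unfold J
    have : ∀ y, ∫⁻ z, F y z ∂(Qm q) =
        ({x | Pos lam x ∧ SZ lam x = ⊤}.indicator (1 : Tr → ℝ≥0∞) y) *
          Qm q {x | HasPos lam x} := by
      intro y
      simp only [F]
      rw [lintegral_const_mul _ (measurable_one.indicator (measurableSet_hasPos lam)),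
        lintegral_indicator_one (measurableSet_hasPos lam)]
    simp only [this]
    rw [lintegral_mul_const _ (measurable_one.indicator hS), lintegral_indicator_one hS]
  have e2 : m * J q F = 0 := by
    apply mtp_zero q p hpq hF
    have hfb' : ∀ᵐ x ∂(Rm p q), ¬ (Pos lam x ∧ SZ lam x = ⊤) := by
      rw [ae_iff]
      simpa using hfb
    filter_upwards [hbR, hfb'] with x hx hnf i hi'
    change ({x | Pos lam x ∧ SZ lam x = ⊤}.indicator (1 : Tr → ℝ≥0∞) (rem x i)) *
      ({x | HasPos lam x}.indicator (1 : Tr → ℝ≥0∞) (child x i)) = 0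
    by_cases hA : rem x i ∈ {x | Pos lam x ∧ SZ lam x = ⊤}
    · by_cases hB : child x i ∈ {x | HasPos lam x}
      · exfalso
        apply hnf
        have hE : Edge lam (rem x i) (child x i) := ⟨hA.1, hB⟩
        constructor
        · have := (edge_pos (hx.rem i) (hx.child i) hE).1
          unfold Pos at this ⊢
          rwa [al_add_rem hx hi'] at this
        · rw [← SZ_add_rem hi', SZ_add, hA.2]
          exact ENNReal.add_eq_top.mpr (Or.inl rfl)
      · rw [Set.indicator_of_notMem hB, mul_zero]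
    · rw [Set.indicator_of_notMem hA, zero_mul]
  rw [e1] at e2
  rcases mul_eq_zero.mp e2 with h | h
  · exact absurd h hm
  · rcases mul_eq_zero.mp h with h | h
    · exact h
    · exact absurd h hπ

theorem Rm_pos_zero (hpq : ∀ k : ℕ, ((k : ℝ≥0∞) + 1) * p {k + 1} = m * q {k})
    (hbR : ∀ᵐ x ∂(Rm p q), Bdd D x) (hbQ : ∀ᵐ x ∂(Qm q), Bdd D x) (h0 : p {0} = 0)
    (hq0 : q {0} = 0) (lam : ℝ) (hz : Qm q {x | Pos lam x} = 0) :
    Rm p q {x | Pos lam x} = 0 := by
  have hfb := finite_block q p hpq hbR hbQ lam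
  have hπ : Qm q {x | HasPos lam x} = 0 := by
    have := hasPos_le q hbQ lam
    rw [hz, mul_zero] at this
    exact le_antisymm this zero_le
  have hFS := FS_zero q hq0 lam hπ
  have hfb' : ∀ᵐ x ∂(Rm p q), ¬ (Pos lam x ∧ SZ lam x = ⊤) := by
    rw [ae_iff]
    simpa using hfb
  have hz' : ∀ᵐ x ∂(Rm p q), ¬ (x [] = 0) := by
    rw [ae_iff]
    simpa using Rm_zero q p h0
  have h1 : Rm p q {x | Pos lam x} ≤ Rm p q {x | child x 0 ∈ {x | FS lam x}} := by
    apply measure_mono_ae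
    filter_upwards [hbR, hfb', hz'] with x hx hnf hx0 hp
    exact FSn_of_pos hx hp (fun h => hnf ⟨hp, h⟩) 0 (Nat.pos_of_ne_zero hx0)
  rw [Rm_child q p (measurableSet_FS lam)] at h1
  rw [hFS] at h1
  exact le_antisymm h1 zero_le

theorem measurableSet_V (lam : ℝ) (M : ℝ≥0∞) : MeasurableSet {x | FS lam x ∧ M ≤ sz lam x} :=
  (measurableSet_FS lam).inter (measurableSet_le measurable_const (measurable_sz lam))

theorem V_le (hq0 : q {0} = 0) (lam : ℝ) (M : ℕ) :
    Qm q {x | FS lam x ∧ (M : ℝ≥0∞) ≤ sz lam x} ≤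
      Qm q {x | FS lam x} ^ 2 + q {1} ^ M * Qm q {x | FS lam x} := by
  induction M with
  | zero =>
    rw [pow_zero, one_mul]
    refine le_trans (measure_mono (fun x hx => hx.1)) le_add_self
  | succ M ih =>
    have hZ : ∀ x ∈ {x | FS lam x ∧ ((M + 1 : ℕ) : ℝ≥0∞) ≤ sz lam x}, Zt lam x := by
      rintro x ⟨-, h⟩
      by_contra hno
      rw [sz_of_not hno] at h
      simp at h
    have h := split_le q hq0 (A := {x | FS lam x ∧ ((M + 1 : ℕ) : ℝ≥0∞) ≤ sz lam x})
      (measurableSet_FS lam) (measurableSet_V lam (M : ℝ≥0∞))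
      (fun x hx _ b hb => FS_children hx.1 (hZ x hx).2 b hb)
      (by
        intro x hx h1
        refine ⟨FS_children hx.1 (hZ x hx).2 0 (by omega), ?_⟩
        have h2 := hx.2
        rw [sz_eq (hZ x hx)] at h2
        unfold SZ at h2
        rw [sum_ch, h1, Finset.sum_range_one, Nat.cast_succ, add_comm (M : ℝ≥0∞)] at h2
        exact (ENNReal.add_le_add_iff_left ENNReal.one_ne_top).mp h2)
    refine h.trans ?_
    set ρ := Qm q {x | FS lam x} with hρ
    calc c2 q * ρ ^ 2 + q {1} * Qm q {x | FS lam x ∧ (M : ℝ≥0∞) ≤ sz lam x}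
        ≤ c2 q * ρ ^ 2 + q {1} * (ρ ^ 2 + q {1} ^ M * ρ) := by gcongr
      _ = (q {1} + c2 q) * ρ ^ 2 + q {1} ^ (M + 1) * ρ := by ring
      _ = ρ ^ 2 + q {1} ^ (M + 1) * ρ := by rw [c12 q hq0, one_mul]

theorem pos_le_of_size (hpq : ∀ k : ℕ, ((k : ℝ≥0∞) + 1) * p {k + 1} = m * q {k})
    (hbR : ∀ᵐ x ∂(Rm p q), Bdd D x) (hbQ : ∀ᵐ x ∂(Qm q), Bdd D x) (hm : m ≠ 0)
    (hq0 : q {0} = 0) (lam : ℝ) (hπ : Qm q {x | HasPos lam x} ≠ 0) (M : ℕ)
    (hM : ∀ x, Bdd D x → Pos lam x → SZ lam x ≠ ⊤ → (M : ℝ≥0∞) + 1 ≤ SZ lam x) :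
    Qm q {x | Pos lam x} ≤
      Qm q {x | FS lam x} ^ 2 + q {1} ^ (M + 1) * Qm q {x | FS lam x} := by
  have hpt := Qm_pos_top q p hpq hbR hbQ hm lam hπ
  have hpt' : ∀ᵐ x ∂(Qm q), ¬ (Pos lam x ∧ SZ lam x = ⊤) := by
    rw [ae_iff]
    simpa using hpt
  have h1 : Qm q {x | Pos lam x} ≤ Qm q {x | Bdd D x ∧ Pos lam x ∧ SZ lam x ≠ ⊤} := by
    apply measure_mono_ae
    filter_upwards [hbQ, hpt'] with x hx hnf hp
    exact ⟨hx, hp, fun h => hnf ⟨hp, h⟩⟩
  have h2 := split_le q hq0 (A := {x | Bdd D x ∧ Pos lam x ∧ SZ lam x ≠ ⊤})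
      (measurableSet_FS lam) (measurableSet_V lam (M : ℝ≥0∞))
      (fun x hx _ b hb => FSn_of_pos hx.1 hx.2.1 hx.2.2 b hb)
      (by
        intro x hx h1
        refine ⟨FSn_of_pos hx.1 hx.2.1 hx.2.2 0 (by omega), ?_⟩
        have h2 := hM x hx.1 hx.2.1 hx.2.2
        unfold SZ at h2
        rw [sum_ch, h1, Finset.sum_range_one, add_comm (M : ℝ≥0∞)] at h2
        exact (ENNReal.add_le_add_iff_left ENNReal.one_ne_top).mp h2)
  refine h1.trans (h2.trans ?_)
  set ρ := Qm q {x | FS lam x} with hρ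
  calc c2 q * ρ ^ 2 + q {1} * Qm q {x | FS lam x ∧ (M : ℝ≥0∞) ≤ sz lam x}
      ≤ c2 q * ρ ^ 2 + q {1} * (ρ ^ 2 + q {1} ^ M * ρ) := by
        gcongr
        exact V_le q hq0 lam M
    _ = (q {1} + c2 q) * ρ ^ 2 + q {1} ^ (M + 1) * ρ := by ring
    _ = ρ ^ 2 + q {1} ^ (M + 1) * ρ := by rw [c12 q hq0, one_mul]

/-- lower bound for the probability of carrying an eigenfunction, uniform in the eigenvalue -/
theorem pos_lower (hpq : ∀ k : ℕ, ((k : ℝ≥0∞) + 1) * p {k + 1} = m * q {k})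
    (hbR : ∀ᵐ x ∂(Rm p q), Bdd D x) (hbQ : ∀ᵐ x ∂(Qm q), Bdd D x) (hm : m ≠ 0)
    (hq0 : q {0} = 0) {c K : ℝ} (hc : (c2 q).toReal = c) (hc0 : 0 < c)
    (hK : K = 2 * (D + 1) / c) {M : ℕ} (hKM : (1 - c) ^ (M + 1) * K ≤ 1 / 2) (lam : ℝ)
    (hM : ∀ x, Bdd D x → Pos lam x → SZ lam x ≠ ⊤ → (M : ℝ≥0∞) + 1 ≤ SZ lam x)
    (hne : Qm q {x | Pos lam x} ≠ 0) : 1 / (2 * K ^ 2) ≤ (Qm q {x | Pos lam x}).toReal := by
  set q0 := (Qm q {x | Pos lam x}).toReal with hq0'
  set ρ := (Qm q {x | FS lam x}).toReal with hρ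
  set π := (Qm q {x | HasPos lam x}).toReal with hπ
  have hq0pos : 0 < q0 := ENNReal.toReal_pos hne (measure_ne_top _ _)
  have hc2top : c2 q ≠ ⊤ := by
    intro h
    rw [h] at hc
    simp at hc
    linarith
  have hq1 : (q {1}).toReal = 1 - c := by
    have h := c12 q hq0
    have h' := congrArg ENNReal.toReal h
    rw [ENNReal.toReal_add (measure_ne_top _ _) hc2top, hc] at h'
    simp at h'
    linarith
  have hc1 : c ≤ 1 := by
    have : (0 : ℝ) ≤ (q {1}).toReal := ENNReal.toReal_nonneg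
    linarith
  have hKpos : 0 < K := by rw [hK]; positivity
  have hK1 : 1 ≤ K := by
    rw [hK, le_div_iff₀ hc0]
    have : (0 : ℝ) ≤ D := by positivity
    linarith
  have hKc : K * c = 2 * (D + 1) := by rw [hK]; field_simp
  have hπle : π ≤ D * q0 := by
    have h := ENNReal.toReal_mono (ENNReal.mul_ne_top (by simp) (measure_ne_top _ _))
      (hasPos_le q hbQ lam)
    rw [ENNReal.toReal_mul] at h
    simpa using h
  have hπle' : π ≤ (D + 1) * q0 := by nlinarith
  by_cases h4 : 4 * π ≤ c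
  · have hρ1 : ρ ≤ 2 * π / c := FS_bound q hq0 lam hπ.symm hc hc0 h4
    have hρ0 : 0 ≤ ρ := ENNReal.toReal_nonneg
    have hρ2 : ρ ≤ K * q0 := by
      refine hρ1.trans ?_
      rw [div_le_iff₀ hc0]
      calc 2 * π ≤ 2 * ((D + 1) * q0) := by linarith
        _ = (K * c) * q0 := by rw [hKc]; ring
        _ = K * q0 * c := by ring
    have hπne : Qm q {x | HasPos lam x} ≠ 0 := by
      intro h0
      have h1 := FS_zero q hq0 lam h0
      apply hne
      -- the event Pos forces the first child to have a finite block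
      by_contra _
      -- a tree with an eigenfunction grafted at a child gives positive probability
      have h2 : Qm q {x | child x 0 ∈ {x | Pos lam x}} = Qm q {x | Pos lam x} :=
        Rm_child q q (measurableSet_pos lam) 0
      have h3 : Qm q {x | child x 0 ∈ {x | Pos lam x}} ≤ Qm q {x | HasPos lam x} := by
        apply measure_mono_ae
        have hz' : ∀ᵐ x ∂(Qm q), ¬ (x [] = 0) := by
          rw [ae_iff]
          simpa using zero_le' q hq0
        filter_upwards [hz'] with x hx0 hp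
        exact hasPos_iff.mpr ⟨0, Nat.pos_of_ne_zero hx0, hp⟩
      rw [h2, h0] at h3
      exact hne (le_antisymm h3 zero_le)
    have h5 := pos_le_of_size q p hpq hbR hbQ hm hq0 lam hπne M hM
    have h5' := ENNReal.toReal_mono (by
      exact ENNReal.add_ne_top.mpr ⟨ENNReal.pow_ne_top (measure_ne_top _ _),
        ENNReal.mul_ne_top (ENNReal.pow_ne_top (measure_ne_top _ _)) (measure_ne_top _ _)⟩) h5
    rw [ENNReal.toReal_add (ENNReal.pow_ne_top (measure_ne_top _ _))
      (ENNReal.mul_ne_top (ENNReal.pow_ne_top (measure_ne_top _ _)) (measure_ne_top _ _)),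
      ENNReal.toReal_mul, ENNReal.toReal_pow, ENNReal.toReal_pow, hq1, ← hρ, ← hq0'] at h5'
    have h6 : ρ ^ 2 ≤ (K * q0) ^ 2 := by gcongr
    have h7 : (1 - c) ^ (M + 1) * ρ ≤ (1 - c) ^ (M + 1) * (K * q0) := by
      apply mul_le_mul_of_nonneg_left hρ2
      have : 0 ≤ 1 - c := by linarith
      positivity
    have h8 : (1 - c) ^ (M + 1) * (K * q0) ≤ 1 / 2 * q0 := by
      calc (1 - c) ^ (M + 1) * (K * q0) = ((1 - c) ^ (M + 1) * K) * q0 := by ring
        _ ≤ 1 / 2 * q0 := by gcongr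
    have h9 : 1 / 2 * q0 ≤ (K ^ 2 * q0) * q0 := by nlinarith
    have h10 : 1 / 2 ≤ K ^ 2 * q0 := le_of_mul_le_mul_right h9 hq0pos
    rw [div_le_iff₀ (by positivity)]
    nlinarith
  · push Not at h4
    rw [div_le_iff₀ (by positivity)]
    have h5 : c < 4 * ((D + 1) * q0) := by linarith
    have h6 : c < 2 * (K * c) * q0 := by rw [hKc]; linarith
    have h7 : 1 < 2 * K * q0 := by
      by_contra hcon
      push Not at hcon
      nlinarith
    nlinarith

theorem no_pos (hpq : ∀ k : ℕ, ((k : ℝ≥0∞) + 1) * p {k + 1} = m * q {k})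
    (hbR : ∀ᵐ x ∂(Rm p q), Bdd D x) (hbQ : ∀ᵐ x ∂(Qm q), Bdd D x) (hm : m ≠ 0)
    (h0 : p {0} = 0) (h1 : p {1} = 0) (hq0 : q {0} = 0) :
    ∃ M : ℕ, ∀ lam : ℝ, (∀ x, Bdd D x → Pos lam x → SZ lam x ≠ ⊤ → (M : ℝ≥0∞) + 1 ≤ SZ lam x) →
      Rm p q {x | Pos lam x} = 0 := by
  classical
  by_cases hc0 : c2 q = 0
  · -- the deterministic line
    refine ⟨0, fun lam _ => ?_⟩
    apply Rm_pos_zero q p hpq hbR hbQ h0 hq0
    have hq1 : q {1} = 1 := by
      have := c12 q hq0
      rwa [hc0, add_zero] at this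
    have hall : ∀ᵐ x ∂(Qm q), ∀ w, x w = 1 := by
      rw [ae_all_iff]
      intro w
      have hmap := infinitePi_map_eval (fun _ : List ℕ => q) w
      have hmw : Measurable (fun x : Tr => x w) := measurable_pi_apply w
      rw [ae_iff, Qm_eq]
      have h2 : q ({1}ᶜ) = 0 := by
        rw [prob_compl_eq_zero_iff (measurableSet_singleton 1)]
        exact hq1
      have h3 : (infinitePi fun _ : List ℕ => q) {x | ¬ x w = 1} =
          ((infinitePi fun _ : List ℕ => q).map (fun x => x w)) ({1}ᶜ) := by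
        rw [map_apply hmw (MeasurableSet.of_discrete)]
        rfl
      rw [h3, hmap, h2]
    have hnull : ∀ᵐ x ∂(Qm q), ¬ Pos lam x := by
      filter_upwards [hall, hbQ] with x hx hb hp
      have hch : child x 0 = x := by
        funext w
        simp only [child]
        rw [hx, hx]
      have h4 := ((pos_iff hb).mp hp).1 0 (by rw [hx]; norm_num)
      rw [hch] at h4
      exact not_pos_and_solv hb hp h4
    rw [ae_iff] at hnull
    simpa using hnull
  · have hc2le : c2 q ≤ 1 := by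
      rw [← c12 q hq0]
      exact le_add_self
    have hc2top : c2 q ≠ ⊤ := (hc2le.trans_lt ENNReal.one_lt_top).ne
    set c := (c2 q).toReal with hc
    have hcpos : 0 < c := ENNReal.toReal_pos hc0 hc2top
    have hc1 : c ≤ 1 := by
      have := ENNReal.toReal_mono ENNReal.one_ne_top hc2le
      simpa using this
    set K : ℝ := 2 * (D + 1) / c with hK
    have hKpos : 0 < K := by rw [hK]; positivity
    obtain ⟨M1, hM1⟩ : ∃ M1 : ℕ, (1 - c) ^ M1 < 1 / (2 * K) :=
      exists_pow_lt_of_lt_one (by positivity) (by linarith)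
    obtain ⟨M2, hM2⟩ := exists_nat_gt ((2 * K ^ 2) ^ 2)
    refine ⟨max M1 M2, fun lam hM => ?_⟩
    by_contra hne
    have hq : Qm q {x | Pos lam x} ≠ 0 := fun h => hne
      (Rm_pos_zero q p hpq hbR hbQ h0 hq0 lam h)
    have hKM : (1 - c) ^ (max M1 M2 + 1) * K ≤ 1 / 2 := by
      have h2 : (1 - c) ^ (max M1 M2 + 1) ≤ (1 - c) ^ M1 :=
        pow_le_pow_of_le_one (by linarith) (by linarith) (by omega)
      calc (1 - c) ^ (max M1 M2 + 1) * K ≤ (1 / (2 * K)) * K := by
            gcongr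
            exact h2.trans hM1.le
        _ = 1 / 2 := by field_simp
    have h3 := pos_lower q p hpq hbR hbQ hm hq0 hc.symm hcpos hK hKM lam hM hq
    have h4 := size_ineq q p hpq hbR hbQ h0 h1 lam
    have h5 : ∫⁻ x, (if Pos lam x then (SZ lam x)⁻¹ else 0) ∂(Rm p q) ≤
        (((max M1 M2 : ℕ) : ℝ≥0∞) + 1)⁻¹ := by
      calc ∫⁻ x, (if Pos lam x then (SZ lam x)⁻¹ else 0) ∂(Rm p q)
          ≤ ∫⁻ _, (((max M1 M2 : ℕ) : ℝ≥0∞) + 1)⁻¹ ∂(Rm p q) := by
            apply lintegral_mono_ae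
            filter_upwards [hbR] with x hx
            split_ifs with hp
            · by_cases hs : SZ lam x = ⊤
              · rw [hs]; simp
              · exact ENNReal.inv_le_inv.mpr (hM x hx hp hs)
            · exact zero_le
        _ = _ := by rw [lintegral_const, measure_univ, mul_one]
    have h6 := h4.trans h5
    have h7 := ENNReal.toReal_mono (by simp) h6
    rw [ENNReal.toReal_pow, ENNReal.toReal_inv, ENNReal.toReal_add (by simp) (by simp)] at h7
    simp only [ENNReal.toReal_natCast, ENNReal.toReal_one] at h7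
    have h8 : (1 / (2 * K ^ 2)) ^ 2 ≤ (Qm q {x | Pos lam x}).toReal ^ 2 := by gcongr
    have h9 : (1 / (2 * K ^ 2)) ^ 2 ≤ (((max M1 M2 : ℕ) : ℝ) + 1)⁻¹ := h8.trans h7
    rw [div_pow, one_pow, one_div] at h9
    have h10 : (((max M1 M2 : ℕ) : ℝ) + 1) ≤ (2 * K ^ 2) ^ 2 :=
      (inv_le_inv₀ (by positivity) (by positivity)).mp h9
    have h11 : (M2 : ℝ) ≤ ((max M1 M2 : ℕ) : ℝ) := by exact_mod_cast le_max_right _ _
    linarith

end

end Pool.Agent.J4.H90.UGW
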