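import Pool.Agent.J4.H90.UGW.Block

set_option autoImplicit false
open Finset MeasureTheory Measure ProbabilityTheory
open scoped ENNReal

namespace Pool.Agent.J4.H90.UGW

section

variable (q : Measure ℕ) [IsProbabilityMeasure q]

/-- integral over independent pairs of cavity trees -/
noncomputable def J (F : Tr → Tr → ℝ≥0∞) : ℝ≥0∞ := ∫⁻ y, ∫⁻ z, F y z ∂(Qm q) ∂(Qm q)

theorem J_swap {F : Tr → Tr → ℝ≥0∞} (hF : Measurable (Function.uncurry F)) :
    J q F = J q (fun y z => F z y) := by
  unfold J
  rw [lintegral_lintegral_swap hF.aemeasurable]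

theorem J_add {F G : Tr → Tr → ℝ≥0∞} (hF : Measurable (Function.uncurry F)) :
    J q (fun y z => F y z + G y z) = J q F + J q G := by
  unfold J
  rw [← lintegral_add_left (Measurable.lintegral_prod_right hF)]
  apply lintegral_congr
  intro y
  rw [lintegral_add_left]
  exact hF.comp (measurable_const.prodMk measurable_id)

omit [IsProbabilityMeasure q] in
theorem J_mono {D : ℕ} (hb : ∀ᵐ x ∂(Qm q), Bdd D x) {F G : Tr → Tr → ℝ≥0∞}
    (h : ∀ y z, Bdd D y → Bdd D z → F y z ≤ G y z) : J q F ≤ J q G := by
  unfold J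
  apply lintegral_mono_ae
  filter_upwards [hb] with y hy
  apply lintegral_mono_ae
  filter_upwards [hb] with z hz
  exact h y z hy hz

variable (p : Measure ℕ) [IsProbabilityMeasure p] {m : ℝ≥0∞} {D : ℕ} {lam : ℝ}

theorem mtpJ (hpq : ∀ k : ℕ, ((k : ℝ≥0∞) + 1) * p {k + 1} = m * q {k})
    {F : Tr → Tr → ℝ≥0∞} (hF : Measurable (Function.uncurry F)) :
    ∫⁻ x, ∑ i ∈ range (x []), F (rem x i) (child x i) ∂(Rm p q) = m * J q F :=
  mtp p q hpq hF

open Classical in
theorem finite_block (hpq : ∀ k : ℕ, ((k : ℝ≥0∞) + 1) * p {k + 1} = m * q {k})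
    (hbR : ∀ᵐ x ∂(Rm p q), Bdd D x) (hbQ : ∀ᵐ x ∂(Qm q), Bdd D x) (lam : ℝ) :
    Rm p q {x | Pos lam x ∧ SZ lam x = ⊤} = 0 := by
  have hSt : MeasurableSet {x | SZ lam x = ⊤} :=
    measurable_SZ lam (measurableSet_singleton _)
  have hS : MeasurableSet {x | Pos lam x ∧ SZ lam x = ⊤} := (measurableSet_pos lam).inter hSt
  set A := Rm p q {x | Pos lam x ∧ SZ lam x = ⊤} with hA
  have hA1 : A ≤ 1 := prob_le_one
  have hszt : MeasurableSet {x | sz lam x = ⊤} := measurable_sz lam (measurableSet_singleton _)
  let F1 : Tr → Tr → ℝ≥0∞ := fun y z => if SZ lam (add y z) = ⊤ then Psi lam y z else 0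
  have hF1 : Measurable (Function.uncurry F1) :=
    Measurable.ite (measurable_add hSt) (measurable_Psi lam) measurable_const
  let F2 : Tr → Tr → ℝ≥0∞ := fun y z => if Both lam y z ∧ sz lam y + sz lam z = ⊤ then 1 else 0
  let F3 : Tr → Tr → ℝ≥0∞ := fun y z => if Both lam y z ∧ sz lam z = ⊤ then 1 else 0
  let F4 : Tr → Tr → ℝ≥0∞ := fun y z =>
    if Both lam z y ∧ sz lam y ≠ ⊤ ∧ sz lam z = ⊤ then 1 else 0
  have hF3 : Measurable (Function.uncurry F3) :=
    Measurable.ite ((measurableSet_both lam).inter (measurable_snd hszt)) measurable_const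
      measurable_const
  have hF4 : Measurable (Function.uncurry F4) :=
    Measurable.ite ((measurable_swap (measurableSet_both lam)).inter
      ((measurable_fst hszt).compl.inter (measurable_snd hszt))) measurable_const measurable_const
  let a0 : ℝ≥0∞ := ∫⁻ x, (if SZ lam x = ⊤ then (al lam x)⁻¹ else 0) ∂(Rm p q)
  have hg0 : Measurable (fun x => if SZ lam x = ⊤ then (al lam x)⁻¹ else 0) :=
    Measurable.ite hSt (measurable_al lam).inv measurable_const
  have e1 : A = a0 + m * J q F1 := by
    rw [← mtpJ q p hpq hF1, ← lintegral_add_left hg0, hA, ← lintegral_indicator_one hS]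
    apply lintegral_congr_ae
    filter_upwards [hbR] with x hx
    by_cases hs : SZ lam x = ⊤
    · have h1 : ∑ i ∈ range (x []), F1 (rem x i) (child x i) =
          ∑ i ∈ range (x []), Psi lam (rem x i) (child x i) := by
        apply Finset.sum_congr rfl
        intro i hi
        simp only [F1]
        rw [SZ_add_rem (mem_range.mp hi), if_pos hs]
      rw [h1, if_pos hs, ← ind_pos_eq hx]
      by_cases hp : Pos lam x
      · rw [Set.indicator_of_mem (show x ∈ {x | Pos lam x ∧ SZ lam x = ⊤} from ⟨hp, hs⟩), if_pos hp]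
        rfl
      · rw [Set.indicator_of_notMem (fun h => hp h.1), if_neg hp]
    · have h1 : ∑ i ∈ range (x []), F1 (rem x i) (child x i) = 0 := by
        apply Finset.sum_eq_zero
        intro i hi
        simp only [F1]
        rw [SZ_add_rem (mem_range.mp hi), if_neg hs]
      rw [h1, if_neg hs, Set.indicator_of_notMem (fun h => hs h.2), add_zero]
  have e2 : J q F2 ≤ 2 * J q F1 := by
    calc J q F2 ≤ J q (fun y z => F1 y z + F1 z y) := by
          apply J_mono q hbQ
          intro y z hy hz
          simp only [F2]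
          split_ifs with h
          · obtain ⟨hB, hs⟩ := h
            simp only [F1]
            rw [SZ_add_both hy hz hB, SZ_add_both hz hy hB.symm, if_pos hs,
              if_pos (by rw [add_comm]; exact hs), psi_both hy hz hB]
          · exact zero_le
      _ = 2 * J q F1 := by
          rw [J_add q hF1, ← J_swap q hF1, two_mul]
  have e3 : 2 * A ≤ m * J q F2 := by
    have h1 : J q (fun y z => F3 y z + F4 y z) ≤ J q F2 := by
      rw [J_add q hF3, J_swap q hF4, ← J_add q hF3]
      apply J_mono q hbQ
      intro y z hy hz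
      simp only [F2, F3, F4]
      by_cases hB : Both lam y z
      · by_cases hz1 : sz lam z = ⊤
        · simp [hB, hz1]
        · by_cases hy1 : sz lam y = ⊤
          · simp [hB, hz1, hy1]
          · simp [hz1, hy1]
      · simp [hB]
    refine le_trans ?_ (mul_le_mul_right h1 m)
    rw [← mtpJ q p hpq (F := fun y z => F3 y z + F4 y z) (hF3.add hF4), hA, ← lintegral_indicator_one hS, ← lintegral_const_mul]
    swap
    · exact measurable_one.indicator hS
    apply lintegral_mono_ae
    filter_upwards [hbR] with x hx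
    by_cases hxS : x ∈ {x | Pos lam x ∧ SZ lam x = ⊤}
    · rw [Set.indicator_of_mem hxS]
      obtain ⟨hp, hs⟩ := hxS
      have hex : ∃ i < x [], sz lam (child x i) = ⊤ := by
        unfold SZ at hs
        rw [sum_ch] at hs
        have h3 : ∑ b ∈ range (x []), sz lam (child x b) = ⊤ := by
          rcases ENNReal.add_eq_top.mp hs with h | h
          · exact absurd h ENNReal.one_ne_top
          · exact h
        obtain ⟨i, hi, h4⟩ := ENNReal.sum_eq_top.mp h3
        exact ⟨i, mem_range.mp hi, h4⟩
      have hkey : ∀ i < x [], sz lam (child x i) = ⊤ → Both lam (rem x i) (child x i) := by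
        intro i hi h4
        rw [both_rem_iff hx hp hi]
        by_contra hno
        rw [sz_of_not hno] at h4
        exact ENNReal.zero_ne_top h4
      obtain ⟨i, hi, h4⟩ := hex
      have hBi := hkey i hi h4
      have hF3i : ∀ i < x [], sz lam (child x i) = ⊤ → F3 (rem x i) (child x i) = 1 := by
        intro i hi h4
        simp only [F3]
        rw [if_pos ⟨hkey i hi h4, h4⟩]
      by_cases hr : sz lam (rem x i) = ⊤
      · -- another infinite direction
        have hZr : Zt lam (rem x i) := (both_zt (hx.rem i) (hx.child i) hBi).1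
        rw [sz_eq hZr] at hr
        unfold SZ at hr
        rw [sum_ch] at hr
        have h5 : ∑ b ∈ range ((rem x i) []), sz lam (child (rem x i) b) = ⊤ := by
          rcases ENNReal.add_eq_top.mp hr with h | h
          · exact absurd h ENNReal.one_ne_top
          · exact h
        obtain ⟨b, hb, h6⟩ := ENNReal.sum_eq_top.mp h5
        have hb' : b < x [] - 1 := mem_range.mp hb
        rw [child_rem] at h6
        set j := if b < i then b else b + 1 with hj
        have hjx : j < x [] := by rw [hj]; split_ifs <;> omega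
        have hji : j ≠ i := by rw [hj]; split_ifs <;> omega
        have hsub : ({i, j} : Finset ℕ) ⊆ range (x []) := by
          intro a ha
          simp only [mem_insert, mem_singleton] at ha
          rcases ha with rfl | rfl
          · exact mem_range.mpr hi
          · exact mem_range.mpr hjx
        refine le_trans ?_ (Finset.sum_le_sum_of_subset hsub)
        rw [Finset.sum_pair (Ne.symm hji), hF3i i hi h4, hF3i j hjx h6]
        simp only [Pi.one_apply, mul_one]
        calc (2 : ℝ≥0∞) = 1 + 1 := one_add_one_eq_two.symm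
          _ ≤ _ := add_le_add le_self_add le_self_add
      · refine le_trans ?_ (Finset.single_le_sum (f := fun i => F3 (rem x i) (child x i) +
          F4 (rem x i) (child x i)) (fun i _ => zero_le) (mem_range.mpr hi))
        simp only [F3, F4]
        rw [if_pos ⟨hBi, h4⟩, if_pos ⟨hBi.symm, hr, h4⟩]
        simp [one_add_one_eq_two]
    · rw [Set.indicator_of_notMem hxS, mul_zero]
      exact zero_le
  have hAtop : A ≠ ⊤ := (hA1.trans_lt ENNReal.one_lt_top).ne
  have h5 : 2 * a0 + 2 * A ≤ 0 + 2 * A := by
    rw [zero_add]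
    calc 2 * a0 + 2 * A ≤ 2 * a0 + m * J q F2 := by gcongr
      _ ≤ 2 * a0 + m * (2 * J q F1) := by gcongr
      _ = 2 * (a0 + m * J q F1) := by ring
      _ = 2 * A := by rw [← e1]
  have h6 : 2 * a0 ≤ 0 := (ENNReal.add_le_add_iff_right (ENNReal.mul_ne_top (by simp) hAtop)).mp h5
  have h7 : a0 = 0 := by
    have := le_antisymm h6 zero_le
    rcases mul_eq_zero.mp this with h | h
    · exact absurd h two_ne_zero
    · exact h
  have h8 := (lintegral_eq_zero_iff hg0).mp h7
  rw [hA]
  refine measure_mono_null ?_ (ae_iff.mp h8)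
  intro x hx
  obtain ⟨hp, hs⟩ := hx
  simp only [Set.mem_ofPred_eq, Pi.zero_apply]
  rw [if_pos hs]
  exact ENNReal.inv_ne_zero.mpr hp.ne

theorem Qs_pair {S : Set Tr} (hS : MeasurableSet S) :
    Qs q {Y | Y 0 ∈ S ∧ Y 1 ∈ S} = Qm q S ^ 2 := by
  have h := infinitePi_map_eval_prod (P := fun _ : ℕ => Qm q) (i := 0) (j := 1) (by norm_num)
  have hm : Measurable (fun Y : ℕ → Tr => (Y 0, Y 1)) :=
    (measurable_pi_apply 0).prodMk (measurable_pi_apply 1)
  have h2 : Qs q {Y | Y 0 ∈ S ∧ Y 1 ∈ S} =
      ((infinitePi fun _ : ℕ => Qm q).map (fun Y => (Y 0, Y 1))) (S ×ˢ S) := by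
    rw [map_apply hm (hS.prod hS)]
    rfl
  rw [h2, h, prod_prod, sq]

omit [IsProbabilityMeasure q] in
theorem tsum_p : ∑' k : ℕ, p {k} = 1 := by
  have h := lintegral_countable' (μ := p) (fun _ : ℕ => (1 : ℝ≥0∞))
  simpa using h.symm

open Classical in
theorem size_ineq (hpq : ∀ k : ℕ, ((k : ℝ≥0∞) + 1) * p {k + 1} = m * q {k})
    (hbR : ∀ᵐ x ∂(Rm p q), Bdd D x) (hbQ : ∀ᵐ x ∂(Qm q), Bdd D x) (h0 : p {0} = 0)
    (h1 : p {1} = 0) (lam : ℝ) :
    Qm q {x | Pos lam x} ^ 2 ≤
      ∫⁻ x, (if Pos lam x then (SZ lam x)⁻¹ else 0) ∂(Rm p q) := by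
  have hfb := finite_block q p hpq hbR hbQ lam
  set s0 := ∫⁻ x, (if Pos lam x then (SZ lam x)⁻¹ else 0) ∂(Rm p q) with hs0
  set P0 := Rm p q {x | Pos lam x} with hP0
  have hP1 : P0 ≤ 1 := prob_le_one
  let T : Tr → Tr → ℝ≥0∞ := fun y z =>
    if Both lam y z then (sz lam y + sz lam z)⁻¹ * sz lam z else 0
  have hT : Measurable (Function.uncurry T) :=
    Measurable.ite (measurableSet_both lam)
      ((((measurable_sz lam).comp measurable_fst).add ((measurable_sz lam).comp measurable_snd)).inv.mul
        ((measurable_sz lam).comp measurable_snd)) measurable_const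
  let B : Tr → Tr → ℝ≥0∞ := fun y z => if Both lam y z then 1 else 0
  have hB : Measurable (Function.uncurry B) :=
    Measurable.ite (measurableSet_both lam) measurable_const measurable_const
  let R1 : Tr → Tr → ℝ≥0∞ := fun y z => if Edge lam y z then rho lam y z else 0
  have hR1 : Measurable (Function.uncurry R1) :=
    Measurable.ite (measurableSet_edge lam) (measurable_rho lam) measurable_const
  have hPsi : Measurable (Function.uncurry (Psi lam)) := measurable_Psi lam
  have hs0m : Measurable (fun x => if Pos lam x then (SZ lam x)⁻¹ else 0) :=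
    Measurable.ite (measurableSet_pos lam) (measurable_SZ lam).inv measurable_const
  have e1 : P0 ≤ s0 + m * J q T := by
    rw [← mtpJ q p hpq hT, hs0, ← lintegral_add_left hs0m, hP0,
      ← lintegral_indicator_one (measurableSet_pos lam)]
    apply lintegral_mono_ae
    have hfb' : ∀ᵐ x ∂(Rm p q), ¬ (Pos lam x ∧ SZ lam x = ⊤) := by
      rw [ae_iff]
      simpa using hfb
    filter_upwards [hbR, hfb'] with x hx hnf
    by_cases hp : Pos lam x
    · rw [Set.indicator_of_mem (show x ∈ {x | Pos lam x} from hp), if_pos hp]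
      have hfin : SZ lam x ≠ ⊤ := fun h => hnf ⟨hp, h⟩
      have h1 : (SZ lam x)⁻¹ * SZ lam x = 1 :=
        ENNReal.inv_mul_cancel (zero_lt_one.trans_le (one_le_SZ lam x)).ne' hfin
      have h2 : (1 : Tr → ℝ≥0∞) x = (SZ lam x)⁻¹ + ∑ i ∈ range (x []),
          (SZ lam x)⁻¹ * sz lam (child x i) := by
        rw [← Finset.mul_sum]
        conv_lhs => rw [Pi.one_apply, ← h1]
        nth_rewrite 2 [SZ]
        rw [sum_ch, mul_add, mul_one]
      rw [h2]
      gcongr with i hi
      have hi' := mem_range.mp hi
      by_cases hz : Zt lam (child x i)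
      · have hBo := (both_rem_iff hx hp hi').mpr hz
        simp only [T]
        rw [if_pos hBo, ← SZ_add_both (hx.rem i) (hx.child i) hBo, SZ_add_rem hi']
      · rw [sz_of_not hz, mul_zero]
        exact zero_le
    · rw [Set.indicator_of_notMem (show x ∉ {x | Pos lam x} from hp)]
      exact zero_le
  have e2 : 2 * J q T ≤ J q B := by
    rw [two_mul]
    nth_rewrite 2 [J_swap q hT]
    rw [← J_add q hT]
    apply J_mono q hbQ
    intro y z _ _
    simp only [T, B]
    by_cases hbo : Both lam y z
    · rw [if_pos hbo, if_pos hbo.symm, if_pos hbo, add_comm (sz lam z) (sz lam y), ← mul_add,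
        add_comm (sz lam z) (sz lam y)]
      exact ENNReal.inv_mul_le_one _
    · rw [if_neg hbo, if_neg (fun h => hbo (Both.symm h)), if_neg hbo, add_zero]
  have e3 : m * J q (Psi lam) ≤ P0 := by
    rw [← mtpJ q p hpq hPsi, hP0, ← lintegral_indicator_one (measurableSet_pos lam)]
    apply lintegral_mono_ae
    filter_upwards [hbR] with x hx
    have h2 := ind_pos_eq (lam := lam) hx
    by_cases hp : Pos lam x
    · rw [Set.indicator_of_mem (show x ∈ {x | Pos lam x} from hp)]
      rw [if_pos hp] at h2
      rw [Pi.one_apply, h2]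
      exact le_add_self
    · rw [if_neg hp] at h2
      rw [Set.indicator_of_notMem (show x ∉ {x | Pos lam x} from hp), h2]
      exact le_add_self
  have e4 : J q B + 2 * J q R1 ≤ 2 * J q (Psi lam) := by
    rw [two_mul, two_mul]
    nth_rewrite 2 [J_swap q hR1]
    nth_rewrite 2 [J_swap q hPsi]
    rw [← J_add q hR1, ← J_add q hB, ← J_add q hPsi]
    apply J_mono q hbQ
    intro y z hy hz
    by_cases hbo : Both lam y z
    · have n1 : ¬ Edge lam y z := fun h => (edge_pos hy hz h).2 hbo.2
      have n2 : ¬ Edge lam z y := fun h => (edge_pos hz hy h).2 hbo.1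
      simp only [B, R1]
      rw [if_pos hbo, if_neg n1, if_neg n2, psi_both hy hz hbo]
      simp
    · simp only [B, R1]
      rw [if_neg hbo, zero_add]
      gcongr
      · split_ifs with h
        · rw [psi_edge hy hz h]
        · exact zero_le
      · split_ifs with h
        · rw [psi_edge hz hy h]
        · exact zero_le
  set T2 := Rm p q {x | 2 ≤ x [] ∧ Pos lam (child x 0) ∧ Pos lam (child x 1)} with hT2
  have hT2m : MeasurableSet {x : Tr | 2 ≤ x [] ∧ Pos lam (child x 0) ∧ Pos lam (child x 1)} :=
    (measurable_root (MeasurableSet.of_discrete (s := Set.Ici 2))).inter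
      ((measurable_child 0 (measurableSet_pos lam)).inter
        (measurable_child 1 (measurableSet_pos lam)))
  have e5 : T2 ≤ m * J q R1 := by
    rw [J_swap q hR1, ← mtpJ q p hpq (F := fun y z => R1 z y) (hR1.comp measurable_swap), hT2,
      ← lintegral_indicator_one hT2m]
    apply lintegral_mono_ae
    filter_upwards [hbR] with x hx
    by_cases hx2 : x ∈ {x : Tr | 2 ≤ x [] ∧ Pos lam (child x 0) ∧ Pos lam (child x 1)}
    · rw [Set.indicator_of_mem hx2]
      obtain ⟨hk, hp0, hp1⟩ := hx2
      set S := ∑ b ∈ range (x []), (al lam (child x b))⁻¹ with hS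
      have hS0 : S ≠ 0 := by
        intro h
        rw [hS, Finset.sum_eq_zero_iff] at h
        have h3 := h 0 (mem_range.mpr (by omega))
        rw [ENNReal.inv_eq_zero] at h3
        exact hp0.ne h3
      have hStop : S ≠ ⊤ := by
        rw [hS]
        refine (ENNReal.sum_lt_top.mpr (fun b _ => ?_)).ne
        exact (ENNReal.inv_le_one.mpr (one_le_al lam _)).trans_lt ENNReal.one_lt_top
      have h3 : (1 : Tr → ℝ≥0∞) x = ∑ b ∈ range (x []), (al lam (child x b))⁻¹ * S⁻¹ := by
        rw [← Finset.sum_mul, ← hS, ENNReal.mul_inv_cancel hS0 hStop]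
        rfl
      rw [h3]
      apply Finset.sum_le_sum
      intro i hi
      have hi' := mem_range.mp hi
      by_cases hpi : Pos lam (child x i)
      · have hE : Edge lam (child x i) (rem x i) := by
          refine ⟨hpi, ?_⟩
          rw [hasPos_iff]
          have hr0 : (rem x i) [] = x [] - 1 := rfl
          rw [hr0]
          rcases Nat.eq_zero_or_pos i with h | h
          · refine ⟨0, by omega, ?_⟩
            rw [child_rem, h, if_neg (by omega)]
            exact hp1
          · refine ⟨0, by omega, ?_⟩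
            rw [child_rem, if_pos h]
            exact hp0
        simp only [R1]
        rw [if_pos hE]
        unfold rho
        apply le_of_eq
        congr 2
        rw [hS, ← sum_ch x (fun u => (al lam u)⁻¹), ← ch_rem x hi', Multiset.map_cons,
          Multiset.sum_cons]
      · rw [not_lt_top_iff.mp hpi, ENNReal.inv_top, zero_mul]
        exact zero_le
    · rw [Set.indicator_of_notMem hx2]
      exact zero_le
  have e6 : T2 = Qm q {x | Pos lam x} ^ 2 := by
    rw [hT2, ← lintegral_indicator_one hT2m, lintegral_Rm p q (measurable_one.indicator hT2m)]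
    have h3 : ∀ k : ℕ, (∫⁻ Y, ({x : Tr | 2 ≤ x [] ∧ Pos lam (child x 0) ∧
        Pos lam (child x 1)}.indicator 1 (nodeT k Y)) ∂(Qs q)) * p {k} =
        Qm q {x | Pos lam x} ^ 2 * p {k} := by
      intro k
      rcases Nat.lt_or_ge k 2 with hk | hk
      · have : p {k} = 0 := by
          interval_cases k
          · exact h0
          · exact h1
        rw [this, mul_zero, mul_zero]
      · congr 1
        rw [← Qs_pair q (measurableSet_pos lam)]
        have a0 : Measurable (fun Y : ℕ → Tr => Y 0) := measurable_pi_apply 0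
        have a1 : Measurable (fun Y : ℕ → Tr => Y 1) := measurable_pi_apply 1
        have hms : MeasurableSet {Y : ℕ → Tr | Y 0 ∈ {x | Pos lam x} ∧ Y 1 ∈ {x | Pos lam x}} :=
          (a0 (measurableSet_pos lam)).inter (a1 (measurableSet_pos lam))
        rw [← lintegral_indicator_one hms]
        apply lintegral_congr
        intro Y
        have hiff : nodeT k Y ∈ {x : Tr | 2 ≤ x [] ∧ Pos lam (child x 0) ∧ Pos lam (child x 1)} ↔
            Y ∈ {Y : ℕ → Tr | Y 0 ∈ {x | Pos lam x} ∧ Y 1 ∈ {x | Pos lam x}} := by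
          constructor
          · rintro ⟨-, h4, h5⟩
            exact ⟨h4, h5⟩
          · rintro ⟨h4, h5⟩
            exact ⟨hk, h4, h5⟩
        by_cases hY : Y ∈ {Y : ℕ → Tr | Y 0 ∈ {x | Pos lam x} ∧ Y 1 ∈ {x | Pos lam x}}
        · rw [Set.indicator_of_mem hY, Set.indicator_of_mem (hiff.mpr hY)]
          rfl
        · rw [Set.indicator_of_notMem hY, Set.indicator_of_notMem (fun h => hY (hiff.mp h))]
    rw [tsum_congr h3, ENNReal.tsum_mul_left, tsum_p, mul_one]
  rw [← e6]
  have hJB : m * J q B ≤ 2 * P0 := by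
    calc m * J q B ≤ m * (2 * J q (Psi lam)) := by
          gcongr
          exact le_self_add.trans e4
      _ = 2 * (m * J q (Psi lam)) := by ring
      _ ≤ 2 * P0 := by gcongr
  have hJBtop : m * J q B ≠ ⊤ := by
    refine (hJB.trans_lt ?_).ne
    exact ENNReal.mul_lt_top (by simp) (hP1.trans_lt ENNReal.one_lt_top)
  have e7 : m * J q B + 2 * T2 ≤ m * J q B + 2 * s0 := by
    calc m * J q B + 2 * T2 ≤ m * J q B + 2 * (m * J q R1) := by gcongr
      _ = m * (J q B + 2 * J q R1) := by ring
      _ ≤ m * (2 * J q (Psi lam)) := by gcongr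
      _ = 2 * (m * J q (Psi lam)) := by ring
      _ ≤ 2 * P0 := by gcongr
      _ ≤ 2 * (s0 + m * J q T) := by gcongr
      _ = m * (2 * J q T) + 2 * s0 := by ring
      _ ≤ m * J q B + 2 * s0 := by gcongr
  have e8 : 2 * T2 ≤ 2 * s0 := (ENNReal.add_le_add_iff_left hJBtop).mp e7
  exact (ENNReal.mul_le_mul_iff_right two_ne_zero (by simp)).mp e8

end

end Pool.Agent.J4.H90.UGW
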