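import Pool.Agent.J4.H90.UGW.Fin
import Pool.Agent.J4.H90.UGW.Hilb

set_option autoImplicit false
open Finset
open scoped ENNReal

namespace Pool.Agent.J4.H90.UGW

/-- square summable functions on words -/
abbrev HH := lp (fun _ : List ℕ => ℝ) 2

theorem HH_summable (f : HH) : Summable (fun w => f w ^ 2) := by
  have h := lp.summable_inner (𝕜 := ℝ) f f
  refine h.congr (fun w => ?_)
  simp [sq]

theorem HH_normsq (f : HH) : ‖f‖ ^ 2 = ∑' w, f w ^ 2 := by
  rw [← real_inner_self_eq_norm_sq, lp.inner_eq_tsum]
  apply tsum_congr
  intro w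
  simp [sq]

theorem inj_append (a : ℕ) : Function.Injective (fun w : List ℕ => w ++ [a]) := by
  intro u v h
  exact (List.append_inj' h rfl).1

open Classical in
/-- the function `w ↦ f (w ++ [a])` on the tree -/
noncomputable def Lfun (x : Tr) (a : ℕ) (f : HH) : HH :=
  ⟨fun w => if Valid (w ++ [a]) x then f (w ++ [a]) else 0, by
    apply memℓp_gen
    have h := (HH_summable f).comp_injective (inj_append a)
    refine Summable.of_nonneg_of_le (fun w => by positivity) (fun w => ?_) h
    simp only [ENNReal.toReal_ofNat, Function.comp_apply]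
    split_ifs
    · rw [Real.norm_eq_abs]
      norm_cast
      rw [sq_abs]
    · simp
      positivity⟩

open Classical in
theorem Lfun_apply (x : Tr) (a : ℕ) (f : HH) (w : List ℕ) :
    Lfun x a f w = if Valid (w ++ [a]) x then f (w ++ [a]) else 0 := rfl

theorem Lfun_norm (x : Tr) (a : ℕ) (f : HH) : ‖Lfun x a f‖ ≤ ‖f‖ := by
  have h : ‖Lfun x a f‖ ^ 2 ≤ ‖f‖ ^ 2 := by
    rw [HH_normsq, HH_normsq]
    apply Summable.tsum_le_tsum_of_inj (fun w : List ℕ => w ++ [a]) (inj_append a)
    · intro c _; positivity
    · intro w
      rw [Lfun_apply]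
      split_ifs
      · exact le_rfl
      · simp
        positivity
    · exact HH_summable _
    · exact HH_summable _
  exact le_of_sq_le_sq h (norm_nonneg _)

noncomputable def L (x : Tr) (a : ℕ) : HH →L[ℝ] HH :=
  LinearMap.mkContinuous
    { toFun := Lfun x a
      map_add' := by
        intro f g
        ext w
        simp only [lp.coeFn_add, Pi.add_apply, Lfun_apply]
        split_ifs <;> simp
      map_smul' := by
        intro c f
        ext w
        simp only [lp.coeFn_smul, Pi.smul_apply, Lfun_apply, RingHom.id_apply]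
        split_ifs <;> simp } 1
    (by
      intro f
      rw [one_mul]
      exact Lfun_norm x a f)

open Classical in
theorem L_apply (x : Tr) (a : ℕ) (f : HH) (w : List ℕ) :
    L x a f w = if Valid (w ++ [a]) x then f (w ++ [a]) else 0 := rfl

theorem L_norm (x : Tr) (a : ℕ) : ‖L x a‖ ≤ 1 :=
  LinearMap.mkContinuous_norm_le _ zero_le_one _

/-- unit vector -/
noncomputable def ee (w : List ℕ) : HH := lp.single 2 w (1 : ℝ)

theorem ee_inner (w : List ℕ) (f : HH) : inner ℝ (ee w) f = f w := by
  unfold ee
  rw [lp.inner_single_left]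
  simp

theorem ee_apply (w v : List ℕ) : ee w v = if v = w then 1 else 0 := by
  unfold ee
  rw [lp.single_apply, Pi.single_apply]

theorem adj_apply (T : HH →L[ℝ] HH) (f : HH) (w : List ℕ) :
    (ContinuousLinearMap.adjoint T f) w = inner ℝ (T (ee w)) f := by
  rw [← ee_inner, ContinuousLinearMap.adjoint_inner_right]

open Classical in
theorem Ladj_append (x : Tr) (a b : ℕ) (f : HH) (u : List ℕ) :
    (ContinuousLinearMap.adjoint (L x a) f) (u ++ [b]) =
      if b = a ∧ Valid (u ++ [b]) x then f u else 0 := by
  rw [adj_apply]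
  have h : L x a (ee (u ++ [b])) = if b = a ∧ Valid (u ++ [b]) x then ee u else 0 := by
    ext v
    rw [L_apply]
    by_cases hc : b = a ∧ Valid (u ++ [b]) x
    · obtain ⟨rfl, hv⟩ := hc
      rw [if_pos (show b = b ∧ Valid (u ++ [b]) x from ⟨rfl, hv⟩), ee_apply, ee_apply]
      by_cases huv : v = u
      · subst huv
        simp [hv]
      · rw [if_neg huv, if_neg (fun h => huv (inj_append b h))]
        simp
    · rw [if_neg hc, ee_apply]
      by_cases h1 : v ++ [a] = u ++ [b]
      · have hab : a = b := by
          have := (List.append_inj' h1 rfl).2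
          simpa using this
        subst hab
        have hnv : ¬ Valid (v ++ [a]) x := by
          rw [h1]
          exact fun hv => hc ⟨rfl, hv⟩
        rw [if_neg hnv]
        rfl
      · rw [if_neg h1]
        simp
  rw [h]
  split_ifs
  · exact ee_inner u f
  · exact inner_zero_left _

theorem Ladj_nil (x : Tr) (a : ℕ) (f : HH) :
    (ContinuousLinearMap.adjoint (L x a) f) [] = 0 := by
  rw [adj_apply]
  have h : L x a (ee []) = 0 := by
    ext v
    rw [L_apply, ee_apply]
    have hne : ¬ (v ++ [a] = []) := by simp
    rw [if_neg hne]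
    simp
  rw [h]
  exact inner_zero_left _

/-- adjacency operator of the tree -/
noncomputable def AA (D : ℕ) (x : Tr) : HH →L[ℝ] HH :=
  ∑ a ∈ range D, (L x a + ContinuousLinearMap.adjoint (L x a))

theorem AA_sym (D : ℕ) (x : Tr) (u v : HH) : inner ℝ (AA D x u) v = inner ℝ u (AA D x v) := by
  unfold AA
  rw [_root_.sum_apply, _root_.sum_apply, sum_inner, inner_sum]
  apply Finset.sum_congr rfl
  intro a _
  rw [_root_.add_apply, _root_.add_apply, inner_add_left,
    inner_add_right, ContinuousLinearMap.adjoint_inner_left,
    ContinuousLinearMap.adjoint_inner_right, add_comm]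

theorem AA_norm (D : ℕ) (x : Tr) : ‖AA D x‖ ≤ 2 * D := by
  unfold AA
  refine (norm_sum_le _ _).trans ?_
  calc ∑ a ∈ range D, ‖L x a + ContinuousLinearMap.adjoint (L x a)‖
      ≤ ∑ _a ∈ range D, (2 : ℝ) := by
        apply Finset.sum_le_sum
        intro a _
        refine (norm_add_le _ _).trans ?_
        rw [LinearIsometryEquiv.norm_map]
        linarith [L_norm x a]
    _ = 2 * D := by
        rw [Finset.sum_const, card_range, nsmul_eq_mul, mul_comm]

theorem valid_append (w : List ℕ) (a : ℕ) : ∀ x : Tr, Valid (w ++ [a]) x ↔ Valid w x ∧ a < x w := by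
  induction w with
  | nil =>
    intro x
    simp [Valid]
  | cons b w ih =>
    intro x
    simp only [List.cons_append, Valid, ih]
    simp only [child]
    tauto

theorem par_append (s : ℝ) (f : List ℕ → ℝ) (u : List ℕ) (b : ℕ) : par s f (u ++ [b]) = f u := by
  cases u with
  | nil => rfl
  | cons a u =>
    have h2 : (a :: (u ++ [b])).dropLast = a :: u := by
      rw [← List.cons_append]; exact List.dropLast_concat
    simp only [par, List.cons_append]
    rw [h2]

theorem AA_apply {D : ℕ} {x : Tr} (hD : Bdd D x) (f : HH) {w : List ℕ} (hw : Valid w x) :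
    AA D x f w = par 0 f w + ∑ a ∈ range (x w), f (w ++ [a]) := by
  classical
  have h1 : AA D x f w = ∑ a ∈ range D, L x a f w +
      ∑ a ∈ range D, (ContinuousLinearMap.adjoint (L x a) f) w := by
    rw [← Finset.sum_add_distrib]
    unfold AA
    rw [_root_.sum_apply, lp.coeFn_sum, Finset.sum_apply]
    rfl
  rw [h1, add_comm]
  congr 1
  · rcases List.eq_nil_or_concat w with rfl | ⟨u, b, rfl⟩
    · simp [Ladj_nil, par]
    · rw [List.concat_eq_append] at hw ⊢
      rw [par_append]
      simp only [Ladj_append]
      have hb : b < D := ((valid_append u b x).mp hw).2.trans_le (hD u)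
      rw [Finset.sum_eq_single b]
      · rw [if_pos ⟨rfl, hw⟩]
      · intro a _ hne
        rw [if_neg (fun h => hne h.1.symm)]
      · intro h
        exact absurd (mem_range.mpr hb) h
  · have hsub : range (x w) ⊆ range D := by
      intro a ha
      exact mem_range.mpr ((mem_range.mp ha).trans_le (hD w))
    rw [← Finset.sum_subset hsub]
    · apply Finset.sum_congr rfl
      intro a ha
      rw [L_apply, if_pos ((valid_append w a x).mpr ⟨hw, mem_range.mp ha⟩)]
    · intro a _ ha
      rw [L_apply, if_neg]
      intro hv
      exact ha (mem_range.mpr ((valid_append w a x).mp hv).2)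

/-- an eigenvector of the operator seen from the root gives `Pos` -/
theorem pos_of_eigen {D : ℕ} {x : Tr} {lam : ℝ} (hD : Bdd D x) {v : HH}
    (hv : AA D x v = lam • v) (h0 : v [] ≠ 0) : Pos lam x := by
  classical
  let f : List ℕ → ℝ := fun w => if Valid w x then v w else 0
  have hf : IsSol lam x 0 f := by
    intro w
    rw [good_iff]
    constructor
    · intro hw
      have h1 := congrFun (congrArg (fun g : HH => (g : List ℕ → ℝ)) hv) w
      simp only at h1
      rw [AA_apply hD v hw] at h1
      have h2 : f w = v w := if_pos hw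
      rw [h2]
      have h3 : par 0 f w = par 0 v w := by
        rcases List.eq_nil_or_concat w with rfl | ⟨u, b, rfl⟩
        · rfl
        · rw [List.concat_eq_append] at hw ⊢
          rw [par_append, par_append]
          exact if_pos ((valid_append u b x).mp hw).1
      have h4 : ∑ a ∈ range (x w), f (w ++ [a]) = ∑ a ∈ range (x w), v (w ++ [a]) := by
        apply Finset.sum_congr rfl
        intro a ha
        exact if_pos ((valid_append w a x).mpr ⟨hw, mem_range.mp ha⟩)
      rw [h3, h4, h1]
      rfl
    · intro hw
      exact if_neg hw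
  have hn : nrm f < ⊤ := by
    unfold nrm
    have h1 : ∑' w, ENNReal.ofReal (f w ^ 2) ≤ ∑' w, ENNReal.ofReal (v w ^ 2) := by
      apply ENNReal.tsum_le_tsum
      intro w
      apply ENNReal.ofReal_le_ofReal
      simp only [f]
      split_ifs
      · exact le_rfl
      · rw [zero_pow two_ne_zero]
        positivity
    refine h1.trans_lt ?_
    rw [← ENNReal.ofReal_tsum_of_nonneg (fun w => sq_nonneg _) (HH_summable v)]
    exact ENNReal.ofReal_lt_top
  exact pos_of hf hn (by simp only [f]; rw [if_pos]; exact h0; trivial)

end Pool.Agent.J4.H90.UGW
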