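import Pool.Agent.J4.H90.UGW.Cavity

set_option autoImplicit false
open Finset MeasureTheory
open scoped ENNReal

namespace Pool.Agent.J4.H90.UGW

/-- the multiset of subtrees at the children of the root -/
def ch (x : Tr) : Multiset Tr := (Multiset.range (x [])).map (child x)

/-- graft `z` as a new last child of the root of `y` -/
def add (y z : Tr) : Tr
  | [] => y [] + 1
  | a :: w => if a < y [] then y (a :: w) else z w

/-- remove the child `i` of the root -/
def rem (x : Tr) (i : ℕ) : Tr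
  | [] => x [] - 1
  | a :: w => x ((if a < i then a else a + 1) :: w)

theorem mem_ch {x y : Tr} : y ∈ ch x ↔ ∃ b < x [], child x b = y := by
  simp [ch]

theorem sum_ch {M : Type*} [AddCommMonoid M] (x : Tr) (φ : Tr → M) :
    ((ch x).map φ).sum = ∑ b ∈ range (x []), φ (child x b) := by
  simp [ch, Finset.sum]

theorem ch_add (y z : Tr) : ch (add y z) = z ::ₘ ch y := by
  unfold ch
  have h0 : (add y z) [] = y [] + 1 := rfl
  rw [h0, Multiset.range_succ, Multiset.map_cons]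
  congr 1
  · funext w
    simp [child, add]
  · apply Multiset.map_congr rfl
    intro b hb
    funext w
    simp [child, add, Multiset.mem_range.mp hb]

theorem child_rem (x : Tr) (i a : ℕ) :
    child (rem x i) a = child x (if a < i then a else a + 1) := rfl

theorem ch_rem (x : Tr) {i : ℕ} (hi : i < x []) : child x i ::ₘ ch (rem x i) = ch x := by
  unfold ch
  have h0 : (rem x i) [] = x [] - 1 := rfl
  have h1 : (Multiset.range ((rem x i) [])).map (child (rem x i)) =
      ((Multiset.range (x [] - 1)).map (fun a => if a < i then a else a + 1)).map (child x) := by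
    rw [h0, Multiset.map_map]
    rfl
  rw [h1, ← Multiset.map_cons]
  congr 1
  have hinj : Function.Injective (fun a : ℕ => if a < i then a else a + 1) := by
    intro a b h
    simp only at h
    split_ifs at h <;> omega
  have hnd : (i ::ₘ (Multiset.range (x [] - 1)).map (fun a => if a < i then a else a + 1)).Nodup := by
    rw [Multiset.nodup_cons]
    refine ⟨?_, (Multiset.nodup_range _).map hinj⟩
    simp only [Multiset.mem_map, Multiset.mem_range, not_exists, not_and]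
    intro a _
    split_ifs <;> omega
  rw [Multiset.Nodup.ext hnd (Multiset.nodup_range _)]
  intro b
  simp only [Multiset.mem_cons, Multiset.mem_map, Multiset.mem_range]
  constructor
  · rintro (rfl | ⟨a, ha, rfl⟩)
    · exact hi
    · split_ifs <;> omega
  · intro hb
    rcases lt_trichotomy b i with h | h | h
    · right; exact ⟨b, by omega, by simp [h]⟩
    · left; exact h
    · right; exact ⟨b - 1, by omega, by rw [if_neg (by omega)]; omega⟩

theorem Bdd.add {D : ℕ} {y z : Tr} (hy : Bdd D y) (hz : Bdd D z) : Bdd (D + 1) (add y z) := by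
  intro w
  cases w with
  | nil => exact Nat.succ_le_succ (hy [])
  | cons a w =>
    simp only [UGW.add]
    split_ifs
    · exact (hy _).trans (Nat.le_succ _)
    · exact (hz _).trans (Nat.le_succ _)

theorem Bdd.rem {D : ℕ} {x : Tr} (hx : Bdd D x) (i : ℕ) : Bdd D (rem x i) := by
  intro w
  cases w with
  | nil => exact (Nat.sub_le _ _).trans (hx [])
  | cons a w => exact hx _

theorem Bdd.mem {D : ℕ} {x y : Tr} (hx : Bdd D x) (hy : y ∈ ch x) : Bdd D y := by
  obtain ⟨b, _, rfl⟩ := mem_ch.mp hy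
  exact hx.child b

/-- some child of the root carries an eigenfunction not vanishing there -/
def HasPos (lam : ℝ) (x : Tr) : Prop := ∃ u ∈ ch x, Pos lam u

theorem hasPos_iff {lam : ℝ} {x : Tr} : HasPos lam x ↔ ∃ b < x [], Pos lam (child x b) := by
  unfold HasPos
  constructor
  · rintro ⟨u, hu, hp⟩
    obtain ⟨b, hb, rfl⟩ := mem_ch.mp hu
    exact ⟨b, hb, hp⟩
  · rintro ⟨b, hb, hp⟩
    exact ⟨_, mem_ch.mpr ⟨b, hb, rfl⟩, hp⟩

variable {lam : ℝ} {D : ℕ} {x y z : Tr}

theorem pos_ch (hD : Bdd D x) :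
    Pos lam x ↔ (∀ u ∈ ch x, Solv lam u) ∧ ((ch x).map (tt lam)).sum = lam := by
  rw [pos_iff hD, sum_ch]
  constructor
  · rintro ⟨h1, h2⟩
    refine ⟨?_, h2⟩
    intro u hu
    obtain ⟨b, hb, rfl⟩ := mem_ch.mp hu
    exact h1 b hb
  · rintro ⟨h1, h2⟩
    exact ⟨fun b hb => h1 _ (mem_ch.mpr ⟨b, hb, rfl⟩), h2⟩

theorem al_ch (hD : Bdd D x) (h : Pos lam x) : al lam x = 1 + ((ch x).map (nn lam)).sum := by
  rw [sum_ch]; exact al_eq hD h

theorem solv_ch (hD : Bdd D x) (hno : ¬ HasPos lam x) :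
    Solv lam x ↔ (∀ u ∈ ch x, Solv lam u) ∧ ((ch x).map (tt lam)).sum ≠ lam := by
  have hno' : ∀ b < x [], ¬ Pos lam (child x b) := by
    intro b hb hp
    exact hno (hasPos_iff.mpr ⟨b, hb, hp⟩)
  rw [solv_iff3 hD hno', sum_ch]
  constructor
  · rintro ⟨h1, h2⟩
    refine ⟨?_, h2⟩
    intro u hu
    obtain ⟨b, hb, rfl⟩ := mem_ch.mp hu
    exact h1 b hb
  · rintro ⟨h1, h2⟩
    exact ⟨fun b hb => h1 _ (mem_ch.mpr ⟨b, hb, rfl⟩), h2⟩

theorem tt_ch (hD : Bdd D x) (hno : ¬ HasPos lam x) (h : Solv lam x) :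
    tt lam x * (lam - ((ch x).map (tt lam)).sum) = 1 := by
  have hno' : ∀ b < x [], ¬ Pos lam (child x b) := by
    intro b hb hp
    exact hno (hasPos_iff.mpr ⟨b, hb, hp⟩)
  rw [sum_ch]
  exact tt_eq3 hD hno' h

theorem nn_ch (hD : Bdd D x) (hno : ¬ HasPos lam x) (h : Solv lam x) :
    nn lam x = ENNReal.ofReal (tt lam x ^ 2) * (1 + ((ch x).map (nn lam)).sum) := by
  have hno' : ∀ b < x [], ¬ Pos lam (child x b) := by
    intro b hb hp
    exact hno (hasPos_iff.mpr ⟨b, hb, hp⟩)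
  rw [sum_ch]
  exact nn_eq3 hD hno' h

theorem rec2_ch (hD : Bdd D x) (hex : HasPos lam x) :
    Solv lam x ∧ tt lam x = 0 ∧ nn lam x = (((ch x).map (fun u => (al lam u)⁻¹)).sum)⁻¹ := by
  rw [sum_ch]
  exact rec2 hD (hasPos_iff.mp hex)

theorem al_congr {D' : ℕ} {x' : Tr} (hD : Bdd D x) (hD' : Bdd D' x') (h : ch x = ch x') :
    al lam x = al lam x' := by
  by_cases hp : Pos lam x
  · have hp' : Pos lam x' := by
      rw [pos_ch hD'] ; rw [pos_ch hD] at hp
      rwa [← h]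
    rw [al_ch hD hp, al_ch hD' hp', h]
  · have hp' : ¬ Pos lam x' := by
      rw [pos_ch hD'] ; rw [pos_ch hD] at hp
      rwa [← h]
    rw [not_lt_top_iff.mp hp, not_lt_top_iff.mp hp']

theorem al_add_rem (hD : Bdd D x) {i : ℕ} (hi : i < x []) :
    al lam (add (rem x i) (child x i)) = al lam x :=
  al_congr ((hD.rem i).add (hD.child i)) hD (by rw [ch_add, ch_rem x hi])

def Both (lam : ℝ) (y z : Tr) : Prop := Pos lam (add y z) ∧ Pos lam (add z y)
def Edge (lam : ℝ) (y z : Tr) : Prop := Pos lam y ∧ HasPos lam z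

theorem pos_add (hy : Bdd D y) (hz : Bdd D z) : Pos lam (add y z) ↔
    (∀ u ∈ ch y, Solv lam u) ∧ Solv lam z ∧ tt lam z + ((ch y).map (tt lam)).sum = lam := by
  rw [pos_ch (hy.add hz), ch_add]
  simp only [Multiset.mem_cons, forall_eq_or_imp, Multiset.map_cons, Multiset.sum_cons]
  tauto

theorem edge_pos (hy : Bdd D y) (hz : Bdd D z) (h : Edge lam y z) :
    Pos lam (add y z) ∧ ¬ Pos lam (add z y) := by
  obtain ⟨hp, hh⟩ := h
  obtain ⟨h1, h2, -⟩ := rec2_ch hz hh
  constructor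
  · rw [pos_add hy hz]
    rw [pos_ch hy] at hp
    exact ⟨hp.1, h1, by rw [h2, zero_add]; exact hp.2⟩
  · rw [pos_add hz hy]
    rintro ⟨h3, -, -⟩
    obtain ⟨u, hu, hpu⟩ := hh
    exact not_pos_and_solv (hz.mem hu) hpu (h3 u hu)

theorem pos_add_tt0 (hy : Bdd D y) (hz : Bdd D z) (h : Pos lam (add y z)) (h0 : tt lam z = 0) :
    Edge lam y z := by
  rw [pos_add hy hz] at h
  obtain ⟨h1, h2, h3⟩ := h
  rw [h0, zero_add] at h3
  refine ⟨(pos_ch hy).mpr ⟨h1, h3⟩, ?_⟩
  by_contra hno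
  have := tt_ch hz hno h2
  rw [h0] at this
  norm_num at this

theorem pos_add_tt1 (hy : Bdd D y) (hz : Bdd D z) (h : Pos lam (add y z)) (h0 : tt lam z ≠ 0) :
    ¬ HasPos lam z ∧ ¬ HasPos lam y ∧ Solv lam y ∧ Solv lam z ∧ tt lam y * tt lam z = 1 ∧
      Pos lam (add z y) := by
  rw [pos_add hy hz] at h
  obtain ⟨h1, h2, h3⟩ := h
  have hz1 : ¬ HasPos lam z := fun hh => h0 (rec2_ch hz hh).2.1
  have hy1 : ¬ HasPos lam y := by
    rintro ⟨u, hu, hp⟩
    exact not_pos_and_solv (hy.mem hu) hp (h1 u hu)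
  have hne : ((ch y).map (tt lam)).sum ≠ lam := by
    intro h4
    rw [h4] at h3
    exact h0 (by linarith)
  have hsy : Solv lam y := (solv_ch hy hy1).mpr ⟨h1, hne⟩
  have ht : tt lam y * tt lam z = 1 := by
    have := tt_ch hy hy1 hsy
    have h3' : lam - ((ch y).map (tt lam)).sum = tt lam z := by linarith
    rw [h3'] at this
    exact this
  refine ⟨hz1, hy1, hsy, h2, ht, ?_⟩
  rw [pos_add hz hy]
  obtain ⟨h5, h6⟩ := (solv_ch hz hz1).mp h2
  refine ⟨h5, hsy, ?_⟩
  have h7 := tt_ch hz hz1 h2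
  have h8 : tt lam z * (lam - ((ch z).map (tt lam)).sum - tt lam y) = 0 := by linarith
  rcases mul_eq_zero.mp h8 with h9 | h9
  · exact absurd h9 h0
  · linarith

theorem both_iff (hy : Bdd D y) (hz : Bdd D z) :
    Both lam y z ↔ Pos lam (add y z) ∧ ¬ HasPos lam z := by
  constructor
  · rintro ⟨h1, h2⟩
    refine ⟨h1, fun hh => ?_⟩
    obtain ⟨u, hu, hpu⟩ := hh
    rw [pos_add hz hy] at h2
    exact not_pos_and_solv (hz.mem hu) hpu (h2.1 u hu)
  · rintro ⟨h1, h2⟩
    refine ⟨h1, ?_⟩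
    by_cases h0 : tt lam z = 0
    · exact absurd (pos_add_tt0 hy hz h1 h0).2 h2
    · exact (pos_add_tt1 hy hz h1 h0).2.2.2.2.2

theorem both_facts (hy : Bdd D y) (hz : Bdd D z) (h : Both lam y z) :
    ¬ HasPos lam z ∧ ¬ HasPos lam y ∧ Solv lam y ∧ Solv lam z ∧ tt lam y * tt lam z = 1 := by
  obtain ⟨h1, h2⟩ := (both_iff hy hz).mp h
  have h0 : tt lam z ≠ 0 := fun h0 => h2 (pos_add_tt0 hy hz h1 h0).2
  obtain ⟨a, b, c, d, e, -⟩ := pos_add_tt1 hy hz h1 h0
  exact ⟨a, b, c, d, e⟩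

theorem Both.symm (h : Both lam y z) : Both lam z y := ⟨h.2, h.1⟩

/-- fraction of the squared norm beyond the edge -/
noncomputable def Psi (lam : ℝ) (y z : Tr) : ℝ≥0∞ := (al lam (add y z))⁻¹ * nn lam z

theorem psi_both (hy : Bdd D y) (hz : Bdd D z) (h : Both lam y z) :
    Psi lam y z + Psi lam z y = 1 := by
  obtain ⟨h1, h2, h3, h4, h5⟩ := both_facts hy hz h
  unfold Psi
  rw [al_ch (hy.add hz) h.1, al_ch (hz.add hy) h.2, ch_add, ch_add, Multiset.map_cons,
    Multiset.sum_cons, Multiset.map_cons, Multiset.sum_cons]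
  have ey := nn_ch hy h2 h3
  have ez := nn_ch hz h1 h4
  set U := 1 + ((ch y).map (nn lam)).sum with hU
  set V := 1 + ((ch z).map (nn lam)).sum with hV
  have e1 : 1 + (nn lam z + ((ch y).map (nn lam)).sum) = U + nn lam z := by rw [hU]; ring
  have e2 : 1 + (nn lam y + ((ch z).map (nn lam)).sum) = V + nn lam y := by rw [hV]; ring
  rw [e1, e2]
  set c := ENNReal.ofReal (tt lam z ^ 2) with hc
  set c' := ENNReal.ofReal (tt lam y ^ 2) with hc'
  have hcc : c * c' = 1 := by
    rw [hc, hc', ← ENNReal.ofReal_mul (sq_nonneg _), ← mul_pow, mul_comm (tt lam z), h5]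
    simp
  have hctop : c ≠ ⊤ := ENNReal.ofReal_ne_top
  have hc'top : c' ≠ ⊤ := ENNReal.ofReal_ne_top
  have hc0 : c ≠ 0 := by
    intro h0
    rw [h0, zero_mul] at hcc
    exact zero_ne_one hcc
  have hUtop : U ≠ ⊤ := by
    have := h3
    unfold Solv at this
    rw [ey] at this
    intro h0
    rw [h0] at this
    have hc'0 : c' ≠ 0 := by
      intro h0
      rw [h0, mul_zero] at hcc
      exact zero_ne_one hcc
    rw [ENNReal.mul_top hc'0] at this
    exact lt_irrefl _ this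
  have hU0 : U ≠ 0 := by
    rw [hU]
    simp
  have e3 : (V + nn lam y)⁻¹ * nn lam y = (U + nn lam z)⁻¹ * U := by
    rw [ey, ez]
    have e4 : U + c * V = c * (V + c' * U) := by
      calc U + c * V = c * V + (c * c') * U := by rw [hcc, one_mul, add_comm]
        _ = c * (V + c' * U) := by ring
    have e5 : c⁻¹ = c' :=
      (ENNReal.eq_inv_of_mul_eq_one_left (by rw [mul_comm]; exact hcc)).symm
    rw [e4, ENNReal.mul_inv (Or.inl hc0) (Or.inl hctop), e5]
    ring
  rw [e3, ← mul_add, add_comm (nn lam z) U]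
  apply ENNReal.inv_mul_cancel
  · simp [hU0]
  · exact ENNReal.add_ne_top.mpr ⟨hUtop, h4.ne⟩

noncomputable def rho (lam : ℝ) (y z : Tr) : ℝ≥0∞ :=
  (al lam y)⁻¹ * ((al lam y)⁻¹ + ((ch z).map (fun u => (al lam u)⁻¹)).sum)⁻¹

theorem psi_edge (hy : Bdd D y) (hz : Bdd D z) (h : Edge lam y z) :
    Psi lam y z = rho lam y z := by
  have hp := (edge_pos hy hz h).1
  obtain ⟨h1, h2, h3⟩ := rec2_ch hz h.2
  unfold Psi rho
  rw [al_ch (hy.add hz) hp, ch_add, Multiset.map_cons, Multiset.sum_cons, h3]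
  have e1 : 1 + ((((ch z).map (fun u => (al lam u)⁻¹)).sum)⁻¹ + ((ch y).map (nn lam)).sum) =
      al lam y + (((ch z).map (fun u => (al lam u)⁻¹)).sum)⁻¹ := by
    rw [al_ch hy h.1]; ring
  rw [e1]
  set S := ((ch z).map (fun u => (al lam u)⁻¹)).sum with hS
  have hS0 : S ≠ 0 := by
    intro h0
    have h4 := h1
    unfold Solv at h4
    rw [h3, h0] at h4
    simp at h4
  have hStop : S ≠ ⊤ := by
    rw [hS, sum_ch]
    refine (ENNReal.sum_lt_top.mpr (fun b _ => ?_)).ne
    exact (ENNReal.inv_le_one.mpr (one_le_al lam _)).trans_lt ENNReal.one_lt_top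
  have ha0 : al lam y ≠ 0 := (zero_lt_one.trans_le (one_le_al lam y)).ne'
  have hatop : al lam y ≠ ⊤ := h.1.ne
  rw [← ENNReal.mul_inv (Or.inr hStop) (Or.inr hS0),
    ← ENNReal.mul_inv (Or.inl ha0) (Or.inl hatop)]
  congr 1
  rw [add_mul, mul_add, ENNReal.inv_mul_cancel hS0 hStop, ENNReal.mul_inv_cancel ha0 hatop, add_comm]

theorem psi_none (h : ¬ Pos lam (add y z)) : Psi lam y z = 0 := by
  unfold Psi
  rw [not_lt_top_iff.mp h]
  simp

end Pool.Agent.J4.H90.UGW
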