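import Pool.Agent.J4.H90.UGW.Walk

set_option autoImplicit false
open Finset MeasureTheory Filter Topology
open scoped ENNReal

namespace Pool.Agent.J4.H90.UGW

/-- shifted and scaled adjacency operator -/
noncomputable def KK (D : ℕ) (lam s : ℝ) (x : Tr) : HH →L[ℝ] HH := s⁻¹ • (AA D x - lam • 1)

theorem KK_sym (D : ℕ) (lam s : ℝ) (x : Tr) (u v : HH) :
    inner ℝ (KK D lam s x u) v = inner ℝ u (KK D lam s x v) := by
  change inner ℝ (s⁻¹ • (AA D x u - lam • u)) v = inner ℝ u (s⁻¹ • (AA D x v - lam • v))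
  rw [inner_smul_left, inner_smul_right, inner_sub_left, inner_sub_right, AA_sym,
    inner_smul_left, inner_smul_right]
  simp

theorem KK_norm (D : ℕ) (lam : ℝ) {s : ℝ} (hs : 2 * D + |lam| ≤ s) (hs0 : 0 < s) (x : Tr) (u : HH) :
    ‖KK D lam s x u‖ ≤ ‖u‖ := by
  change ‖s⁻¹ • (AA D x u - lam • u)‖ ≤ ‖u‖
  rw [norm_smul, norm_inv, Real.norm_eq_abs, abs_of_pos hs0, inv_mul_le_iff₀ hs0]
  calc ‖AA D x u - lam • u‖ ≤ ‖AA D x u‖ + ‖lam • u‖ := norm_sub_le _ _
    _ ≤ 2 * D * ‖u‖ + |lam| * ‖u‖ := by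
      gcongr
      · exact (ContinuousLinearMap.le_opNorm _ _).trans (by gcongr; exact AA_norm D x)
      · rw [norm_smul, Real.norm_eq_abs]
    _ = (2 * D + |lam|) * ‖u‖ := by ring
    _ ≤ s * ‖u‖ := by gcongr

open Polynomial in
/-- testing polynomials -/
noncomputable def PP (lam s : ℝ) (m : ℕ) : Polynomial ℝ :=
  (1 - (C s⁻¹ * (X - C lam)) * (C s⁻¹ * (X - C lam))) ^ (2 * m)

theorem PP_eval_nonneg (lam s : ℝ) (m : ℕ) (y : ℝ) : 0 ≤ (PP lam s m).eval y := by
  unfold PP
  rw [Polynomial.eval_pow, pow_mul]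
  positivity

theorem PP_eval_lam (lam s : ℝ) (m : ℕ) : (PP lam s m).eval lam = 1 := by
  unfold PP
  simp

theorem PP_aeval (D : ℕ) (lam s : ℝ) (m : ℕ) (x : Tr) :
    Polynomial.aeval (AA D x) (PP lam s m) = (1 - KK D lam s x * KK D lam s x) ^ (2 * m) := by
  have h : Polynomial.aeval (AA D x) (Polynomial.C s⁻¹ * (Polynomial.X - Polynomial.C lam)) =
      KK D lam s x := by
    rw [map_mul, map_sub, Polynomial.aeval_X, Polynomial.aeval_C, Polynomial.aeval_C,
      Algebra.algebraMap_eq_smul_one, Algebra.algebraMap_eq_smul_one, smul_mul_assoc, one_mul]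
    rfl
  unfold PP
  rw [map_pow, map_sub, map_mul, h, map_one]

/-- combinatorial form of the quadratic form of a polynomial of the operator -/
noncomputable def GG (lam s : ℝ) (m : ℕ) (x : Tr) : ℝ :=
  ∑ i ∈ range ((PP lam s m).natDegree + 1), (PP lam s m).coeff i * (W i [] x : ℝ)

theorem GG_eq {D : ℕ} {x : Tr} (hD : Bdd D x) (lam s : ℝ) (m : ℕ) :
    inner ℝ (((1 - KK D lam s x * KK D lam s x) ^ (2 * m)) (ee [])) (ee []) = GG lam s m x := by
  rw [← PP_aeval, Polynomial.aeval_eq_sum_range, _root_.sum_apply, sum_inner]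
  unfold GG
  apply Finset.sum_congr rfl
  intro i _
  rw [← AA_walk hD i]
  change inner ℝ ((PP lam s m).coeff i • ((AA D x ^ i) (ee []))) (ee []) = _
  rw [inner_smul_left]
  simp

theorem measurable_WR (k : ℕ) : Measurable (fun x : Tr => (W k [] x : ℝ)) :=
  (measurable_from_top (f := fun n : ℕ => (n : ℝ))).comp (measurable_W k [])

theorem integrable_WR {D : ℕ} (μ : Measure Tr) [IsProbabilityMeasure μ]
    (hb : ∀ᵐ x ∂μ, Bdd D x) (k : ℕ) : Integrable (fun x : Tr => (W k [] x : ℝ)) μ := by
  apply Integrable.of_bound (measurable_WR k).aestronglyMeasurable (((D : ℝ) + 1) ^ k)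
  filter_upwards [hb] with x hx
  rw [Real.norm_eq_abs, abs_of_nonneg (by positivity)]
  exact_mod_cast W_le hx k []

theorem norm_ee : ‖ee []‖ ^ 2 = 1 := by
  rw [← real_inner_self_eq_norm_sq, ee_inner, ee_apply, if_pos rfl]

theorem spectral {D : ℕ} (μ : Measure Tr) [IsProbabilityMeasure μ] (hb : ∀ᵐ x ∂μ, Bdd D x)
    (ν : Measure ℝ) [IsProbabilityMeasure ν] (hR : ∃ R : ℝ, ν (Set.Icc (-R) R)ᶜ = 0)
    (hmom : ∀ k : ℕ, ∫ y, y ^ k ∂ν = ∫ x, (W k [] x : ℝ) ∂μ) (lam : ℝ)
    (hp : μ {x | Pos lam x} = 0) : ν {lam} = 0 := by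
  set s : ℝ := 2 * D + |lam| + 1 with hs
  have hs0 : 0 < s := by positivity
  have hs1 : 2 * (D : ℝ) + |lam| ≤ s := by rw [hs]; linarith
  obtain ⟨R, hR⟩ := hR
  have hRae : ∀ᵐ y ∂ν, |y| ≤ R := by
    rw [ae_iff]
    convert hR using 2
    ext y
    simp only [Set.mem_ofPred_eq, Set.mem_compl_iff, Set.mem_Icc, abs_le]
  have hint : ∀ k : ℕ, Integrable (fun y : ℝ => y ^ k) ν := by
    intro k
    apply Integrable.of_bound (continuous_pow k).aestronglyMeasurable (R ^ k)
    filter_upwards [hRae] with y hy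
    rw [norm_pow, Real.norm_eq_abs]
    gcongr
  have hPeval : ∀ m, Integrable (fun y => (PP lam s m).eval y) ν := by
    intro m
    simp only [Polynomial.eval_eq_sum_range]
    exact integrable_finsetSum _ (fun i _ => (hint i).const_mul _)
  have hmean : ∀ m, ∫ y, (PP lam s m).eval y ∂ν = ∫ x, GG lam s m x ∂μ := by
    intro m
    simp only [Polynomial.eval_eq_sum_range]
    unfold GG
    rw [integral_finsetSum _ (fun i _ => (hint i).const_mul _),
      integral_finsetSum _ (fun i _ => (integrable_WR μ hb i).const_mul _)]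
    apply Finset.sum_congr rfl
    intro i _
    rw [integral_const_mul, integral_const_mul, hmom]
  have hlow : ∀ m, ν.real {lam} ≤ ∫ x, GG lam s m x ∂μ := by
    intro m
    rw [← hmean, ← integral_indicator_one (measurableSet_singleton lam)]
    apply integral_mono_of_nonneg
    · filter_upwards with y
      exact Set.indicator_nonneg (fun _ _ => zero_le_one) y
    · exact hPeval m
    · filter_upwards with y
      by_cases hy : y = lam
      · subst hy
        simp [PP_eval_lam]
      · rw [Set.indicator_of_notMem (by simpa using hy)]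
        exact PP_eval_nonneg lam s m y
  have hpae : ∀ᵐ x ∂μ, ¬ Pos lam x := by
    rw [ae_iff]
    simpa using hp
  have hGm : ∀ m, Measurable (GG lam s m) := by
    intro m
    unfold GG
    exact Finset.measurable_sum _ (fun i _ => (measurable_WR i).const_mul _)
  have hlim : Tendsto (fun m => ∫ x, GG lam s m x ∂μ) atTop (𝓝 (∫ _x, (0 : ℝ) ∂μ)) := by
    apply tendsto_integral_of_dominated_convergence (fun _ => (1 : ℝ))
    · exact fun m => (hGm m).aestronglyMeasurable
    · exact integrable_const _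
    · intro m
      filter_upwards [hb] with x hx
      rw [← GG_eq hx, g_sq (KK_sym D lam s x), Real.norm_eq_abs, abs_of_nonneg (by positivity),
        ← g_sq (KK_sym D lam s x)]
      have h1 := g_anti (KK_sym D lam s x) (KK_norm D lam hs1 hs0 x) (ee []) (Nat.zero_le m)
      refine h1.trans ?_
      change inner ℝ (ee []) (ee []) ≤ (1 : ℝ)
      rw [real_inner_self_eq_norm_sq, norm_ee]
    · filter_upwards [hb, hpae] with x hx hnp
      have hanti : Antitone (fun m => GG lam s m x) := by
        have h1 := g_anti (KK_sym D lam s x) (KK_norm D lam hs1 hs0 x) (ee [])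
        intro a b hab
        have h2 := h1 hab
        simp only [GG_eq hx] at h2
        exact h2
      have hnn : ∀ m, 0 ≤ GG lam s m x := by
        intro m
        rw [← GG_eq hx, g_sq (KK_sym D lam s x)]
        positivity
      have hbdd : BddBelow (Set.range (fun m => GG lam s m x)) :=
        ⟨0, by rintro _ ⟨m, rfl⟩; exact hnn m⟩
      have hl := tendsto_atTop_ciInf hanti hbdd
      have hL0 : 0 ≤ ⨅ m, GG lam s m x := le_ciInf hnn
      rcases hL0.eq_or_lt with h0 | h0
      · rw [← h0] at hl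
        exact hl
      · exfalso
        obtain ⟨v, hv, hv0⟩ := exists_kernel (KK_sym D lam s x) (KK_norm D lam hs1 hs0 x) (ee []) h0
          (fun m => by
            rw [GG_eq hx]
            exact ciInf_le hbdd m)
        apply hnp
        apply pos_of_eigen (v := v) hx
        · have h1 : s⁻¹ • (AA D x v - lam • v) = 0 := hv
          rcases smul_eq_zero.mp h1 with h2 | h2
          · exact absurd h2 (inv_ne_zero hs0.ne')
          · exact sub_eq_zero.mp h2
        · rwa [real_inner_comm, ee_inner] at hv0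
  rw [integral_zero] at hlim
  have h1 : ν.real {lam} ≤ 0 := ge_of_tendsto' hlim hlow
  have h2 : ν.real {lam} = 0 := le_antisymm h1 measureReal_nonneg
  rwa [measureReal_eq_zero_iff] at h2

end Pool.Agent.J4.H90.UGW
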