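import Mathlib

set_option autoImplicit false
open Finset
open scoped ENNReal

namespace Pool.Agent.J4.H90.UGW

/-- a tree coded by its numbers of children -/
abbrev Tr := List ℕ → ℕ

/-- the subtree at the child `a` of the root -/
def child (x : Tr) (a : ℕ) : Tr := fun w => x (a :: w)

/-- restriction of a function to the subtree at the child `a` -/
def sub (f : List ℕ → ℝ) (a : ℕ) : List ℕ → ℝ := fun w => f (a :: w)

/-- local eigenvalue equation; `s` is the value at the virtual parent of the root -/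
def Good (lam : ℝ) : List ℕ → Tr → ℝ → (List ℕ → ℝ) → Prop
  | [], x, s, f => s + ∑ a ∈ range (x []), f [a] = lam * f []
  | a :: w, x, _, f =>
      if a < x [] then Good lam w (child x a) (f []) (sub f a) else f (a :: w) = 0

def IsSol (lam : ℝ) (x : Tr) (s : ℝ) (f : List ℕ → ℝ) : Prop := ∀ w, Good lam w x s f

noncomputable def nrm (f : List ℕ → ℝ) : ℝ≥0∞ := ∑' w, ENNReal.ofReal (f w ^ 2)

/-- glueing -/
def node {α : Type*} (z c : α) (k : ℕ) (g : ℕ → List ℕ → α) : List ℕ → α
  | [] => c
  | a :: w => if a < k then g a w else z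

theorem isSol_iff {lam : ℝ} {x : Tr} {s : ℝ} {f : List ℕ → ℝ} :
    IsSol lam x s f ↔ (s + ∑ a ∈ range (x []), f [a] = lam * f []) ∧
      (∀ a < x [], IsSol lam (child x a) (f []) (sub f a)) ∧
      (∀ a, x [] ≤ a → ∀ w, f (a :: w) = 0) := by
  constructor
  · intro h
    refine ⟨h [], ?_, ?_⟩
    · intro a ha w
      have := h (a :: w)
      simp only [Good, if_pos ha] at this
      exact this
    · intro a ha w
      have := h (a :: w)
      simp only [Good, if_neg (not_lt.mpr ha)] at this
      exact this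
  · rintro ⟨h0, h1, h2⟩ w
    cases w with
    | nil => exact h0
    | cons a w =>
      simp only [Good]
      split_ifs with ha
      · exact h1 a ha w
      · exact h2 a (not_lt.mp ha) w

/-- splitting of sums over words -/
theorem tsum_list (F : List ℕ → ℝ≥0∞) : ∑' w, F w = F [] + ∑' a, ∑' w, F (a :: w) := by
  rw [ENNReal.tsum_eq_add_tsum_ite ([] : List ℕ)]
  congr 1
  have hinj : Function.Injective (fun p : ℕ × List ℕ => p.1 :: p.2) := by
    rintro ⟨a, w⟩ ⟨b, v⟩ h
    simp only [List.cons.injEq] at h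
    exact Prod.ext h.1 h.2
  have hsupp : Function.support (fun w : List ℕ => if w = [] then 0 else F w) ⊆
      Set.range (fun p : ℕ × List ℕ => p.1 :: p.2) := by
    intro w hw
    cases w with
    | nil => simp at hw
    | cons a w => exact ⟨(a, w), rfl⟩
  refine Eq.trans (tsum_congr (fun w => ?_)) ((hinj.tsum_eq hsupp).symm.trans ?_)
  · by_cases hw : w = [] <;> simp [hw]
  rw [← ENNReal.tsum_prod (f := fun a w => F (a :: w))]
  apply tsum_congr
  intro p
  simp

theorem tsum_list_of_zero (F : List ℕ → ℝ≥0∞) (k : ℕ) (h : ∀ a, k ≤ a → ∀ w, F (a :: w) = 0) :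
    ∑' w, F w = F [] + ∑ a ∈ range k, ∑' w, F (a :: w) := by
  rw [tsum_list]
  congr 1
  apply tsum_eq_sum
  intro a ha
  simp only [mem_range, not_lt] at ha
  simp [h a ha]

theorem nrm_eq {f : List ℕ → ℝ} (k : ℕ) (h : ∀ a, k ≤ a → ∀ w, f (a :: w) = 0) :
    nrm f = ENNReal.ofReal (f [] ^ 2) + ∑ a ∈ range k, nrm (sub f a) := by
  unfold nrm
  rw [tsum_list_of_zero _ k]
  · rfl
  · intro a ha w
    rw [h a ha w]
    simp

theorem nrm_node (c : ℝ) (k : ℕ) (g : ℕ → List ℕ → ℝ) :
    nrm (node 0 c k g) = ENNReal.ofReal (c ^ 2) + ∑ a ∈ range k, nrm (g a) := by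
  rw [nrm_eq k]
  · simp only [node]
    congr 1
    apply Finset.sum_congr rfl
    intro a ha
    congr 1
    funext w
    simp [sub, node, mem_range.mp ha]
  · intro a ha w
    simp [node, not_lt.mpr ha]

theorem sub_node {c : ℝ} {k : ℕ} {g : ℕ → List ℕ → ℝ} {a : ℕ} (ha : a < k) :
    sub (node 0 c k g) a = g a := by
  funext w
  simp [sub, node, ha]

theorem nrm_smul (c : ℝ) (f : List ℕ → ℝ) :
    nrm (fun w => c * f w) = ENNReal.ofReal (c ^ 2) * nrm f := by
  unfold nrm
  rw [← ENNReal.tsum_mul_left]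
  apply tsum_congr
  intro w
  rw [← ENNReal.ofReal_mul (sq_nonneg c)]
  congr 1
  ring

theorem isSol_smul {lam : ℝ} (c : ℝ) {x : Tr} {s : ℝ} {f : List ℕ → ℝ} (h : IsSol lam x s f) :
    IsSol lam x (c * s) (fun w => c * f w) := by
  intro w
  have key : ∀ (w : List ℕ) (x : Tr) (s : ℝ) (f : List ℕ → ℝ), Good lam w x s f →
      Good lam w x (c * s) (fun w => c * f w) := by
    intro w
    induction w with
    | nil =>
      intro x s f h
      simp only [Good] at h ⊢
      rw [← Finset.mul_sum]
      linear_combination c * h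
    | cons a w ih =>
      intro x s f h
      simp only [Good] at h ⊢
      split_ifs with ha
      · rw [if_pos ha] at h
        exact ih _ _ _ h
      · rw [if_neg ha] at h
        rw [h, mul_zero]
  exact key w x s f (h w)

/-- bounded numbers of children -/
def Bdd (D : ℕ) (x : Tr) : Prop := ∀ w, x w ≤ D

theorem Bdd.child {D : ℕ} {x : Tr} (h : Bdd D x) (a : ℕ) : Bdd D (child x a) := fun _ => h _

/-- level sums -/
def lev : ℕ → Tr → (List ℕ → ℝ) → ℝ
  | 0, _, f => f [] ^ 2
  | n + 1, x, f => ∑ a ∈ range (x []), lev n (child x a) (sub f a)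

theorem lev_nonneg (n : ℕ) : ∀ (x : Tr) (f : List ℕ → ℝ), 0 ≤ lev n x f := by
  induction n with
  | zero => intro x f; simp [lev, sq_nonneg]
  | succ n ih => intro x f; exact Finset.sum_nonneg (fun a _ => ih _ _)

theorem sum_lev_le {lam : ℝ} (N : ℕ) : ∀ (x : Tr) (s : ℝ) (f : List ℕ → ℝ), IsSol lam x s f →
    ENNReal.ofReal (∑ i ∈ range N, lev i x f) ≤ nrm f := by
  induction N with
  | zero => intro x s f _; simp
  | succ N ih =>
    intro x s f h
    obtain ⟨-, h1, h2⟩ := isSol_iff.mp h
    rw [nrm_eq (x []) h2, Finset.sum_range_succ', add_comm,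
      ENNReal.ofReal_add (lev_nonneg _ _ _) (Finset.sum_nonneg (fun i _ => lev_nonneg _ _ _))]
    gcongr
    · simp [lev]
    · simp only [lev]
      rw [Finset.sum_comm, ENNReal.ofReal_sum_of_nonneg
        (fun i _ => Finset.sum_nonneg (fun i _ => lev_nonneg _ _ _))]
      apply Finset.sum_le_sum
      intro a ha
      exact ih _ _ _ (h1 a (mem_range.mp ha))

theorem lev_tendsto {lam : ℝ} {x : Tr} {s : ℝ} {f : List ℕ → ℝ} (h : IsSol lam x s f)
    (hf : nrm f < ⊤) : Filter.Tendsto (fun n => lev n x f) Filter.atTop (nhds 0) := by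
  have hs : Summable (fun n => lev n x f) := by
    apply summable_of_sum_range_le (c := (nrm f).toReal) (fun n => lev_nonneg _ _ _)
    intro N
    rw [← ENNReal.ofReal_le_iff_le_toReal hf.ne]
    exact sum_lev_le N x s f h
  exact hs.tendsto_atTop_zero

theorem wron_le {lam : ℝ} (D : ℕ) (n : ℕ) : ∀ (x : Tr) (s r : ℝ) (f g : List ℕ → ℝ),
    Bdd D x → IsSol lam x s f → IsSol lam x r g →
    2 * |s * g [] - r * f []| ≤ D * (lev n x f + lev n x g) + (lev (n + 1) x f + lev (n + 1) x g) := by
  have hab : ∀ a b c d : ℝ, 2 * |a * b - c * d| ≤ (a ^ 2 + b ^ 2) + (c ^ 2 + d ^ 2) := by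
    intro a b c d
    rcases abs_cases (a * b - c * d) with ⟨h, -⟩ | ⟨h, -⟩ <;> rw [h] <;>
      linarith [sq_nonneg (a - b), sq_nonneg (a + b), sq_nonneg (c + d), sq_nonneg (c - d)]
  have heq : ∀ (x : Tr) (s r : ℝ) (f g : List ℕ → ℝ), IsSol lam x s f → IsSol lam x r g →
      s * g [] - r * f [] = ∑ a ∈ range (x []), (f [] * g [a] - g [] * f [a]) := by
    intro x s r f g hf hg
    obtain ⟨hf0, -, -⟩ := isSol_iff.mp hf
    obtain ⟨hg0, -, -⟩ := isSol_iff.mp hg
    rw [Finset.sum_sub_distrib, ← Finset.mul_sum, ← Finset.mul_sum]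
    linear_combination g [] * hf0 - f [] * hg0
  induction n with
  | zero =>
    intro x s r f g hD hf hg
    rw [heq x s r f g hf hg]
    have h1 : 2 * |∑ a ∈ range (x []), (f [] * g [a] - g [] * f [a])| ≤
        ∑ a ∈ range (x []), ((f [] ^ 2 + g [] ^ 2) + (f [a] ^ 2 + g [a] ^ 2)) := by
      calc 2 * |∑ a ∈ range (x []), (f [] * g [a] - g [] * f [a])|
          ≤ 2 * ∑ a ∈ range (x []), |f [] * g [a] - g [] * f [a]| := by
            gcongr
            exact Finset.abs_sum_le_sum_abs _ _
        _ = ∑ a ∈ range (x []), 2 * |f [] * g [a] - g [] * f [a]| := by rw [Finset.mul_sum]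
        _ ≤ _ := by
            apply Finset.sum_le_sum
            intro a _
            have := hab (f []) (g [a]) (g []) (f [a])
            linarith
    refine h1.trans ?_
    rw [Finset.sum_add_distrib, Finset.sum_const, card_range, nsmul_eq_mul]
    simp only [lev, sub]
    rw [← Finset.sum_add_distrib]
    have h2 : (x [] : ℝ) ≤ D := by exact_mod_cast hD []
    have h3 : (0 : ℝ) ≤ f [] ^ 2 + g [] ^ 2 := by positivity
    have := mul_le_mul_of_nonneg_right h2 h3
    linarith
  | succ n ih =>
    intro x s r f g hD hf hg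
    rw [heq x s r f g hf hg]
    obtain ⟨-, hf1, -⟩ := isSol_iff.mp hf
    obtain ⟨-, hg1, -⟩ := isSol_iff.mp hg
    calc 2 * |∑ a ∈ range (x []), (f [] * g [a] - g [] * f [a])|
          ≤ 2 * ∑ a ∈ range (x []), |f [] * g [a] - g [] * f [a]| := by
            gcongr
            exact Finset.abs_sum_le_sum_abs _ _
        _ = ∑ a ∈ range (x []), 2 * |f [] * g [a] - g [] * f [a]| := by rw [Finset.mul_sum]
        _ ≤ ∑ a ∈ range (x []), (D * (lev n (child x a) (sub f a) + lev n (child x a) (sub g a)) +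
              (lev (n + 1) (child x a) (sub f a) + lev (n + 1) (child x a) (sub g a))) := by
            apply Finset.sum_le_sum
            intro a ha
            have ha' := mem_range.mp ha
            exact ih (child x a) (f []) (g []) (sub f a) (sub g a) (hD.child a)
              (hf1 a ha') (hg1 a ha')
        _ = _ := by
            rw [Finset.sum_add_distrib, ← Finset.mul_sum, Finset.sum_add_distrib,
              Finset.sum_add_distrib]
            rfl

/-- two finite norm solutions have proportional boundary data -/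
theorem wron {lam : ℝ} {D : ℕ} {x : Tr} {s r : ℝ} {f g : List ℕ → ℝ} (hD : Bdd D x)
    (hf : IsSol lam x s f) (hg : IsSol lam x r g) (nf : nrm f < ⊤) (ng : nrm g < ⊤) :
    s * g [] = r * f [] := by
  have h1 := lev_tendsto hf nf
  have h2 := lev_tendsto hg ng
  have h3 : Filter.Tendsto (fun n => (D : ℝ) * (lev n x f + lev n x g) +
      (lev (n + 1) x f + lev (n + 1) x g)) Filter.atTop (nhds 0) := by
    have h4 := ((h1.add h2).const_mul (D : ℝ)).add
      ((h1.comp (Filter.tendsto_add_atTop_nat 1)).add (h2.comp (Filter.tendsto_add_atTop_nat 1)))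
    simpa using h4
  have h5 : 2 * |s * g [] - r * f []| ≤ 0 :=
    ge_of_tendsto' h3 (fun n => wron_le D n x s r f g hD hf hg)
  have h6 : |s * g [] - r * f []| = 0 := le_antisymm (by linarith) (abs_nonneg _)
  linarith [abs_eq_zero.mp h6]

end Pool.Agent.J4.H90.UGW
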