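import Pool.Agent.J4.H90.UGW.Op

set_option autoImplicit false
open Finset MeasureTheory
open scoped ENNReal

namespace Pool.Agent.J4.H90.UGW

def parN (f : List ℕ → ℕ) : List ℕ → ℕ
  | [] => 0
  | a :: w => f ((a :: w).dropLast)

/-- number of walks of length `k` from `w` to the root -/
def W : ℕ → List ℕ → Tr → ℕ
  | 0, w, _ => if w = [] then 1 else 0
  | k + 1, w, x => parN (fun u => W k u x) w + ∑ a ∈ range (x w), W k (w ++ [a]) x

theorem parN_append (f : List ℕ → ℕ) (u : List ℕ) (b : ℕ) : parN f (u ++ [b]) = f u := by
  cases u with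
  | nil => rfl
  | cons a u =>
    have h2 : (a :: (u ++ [b])).dropLast = a :: u := by
      rw [← List.cons_append]; exact List.dropLast_concat
    simp only [parN, List.cons_append]
    rw [h2]

theorem AA_pow {D : ℕ} {x : Tr} (hD : Bdd D x) (k : ℕ) : ∀ w, Valid w x →
    ((AA D x) ^ k) (ee []) w = (W k w x : ℝ) := by
  induction k with
  | zero =>
    intro w _
    change ee [] w = _
    rw [ee_apply, W]
    split_ifs <;> simp
  | succ k ih =>
    intro w hw
    rw [pow_succ']
    change AA D x (((AA D x) ^ k) (ee [])) w = _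
    rw [AA_apply hD _ hw, W, Nat.cast_add, Nat.cast_sum]
    congr 1
    · rcases List.eq_nil_or_concat w with rfl | ⟨u, b, rfl⟩
      · simp [par, parN]
      · rw [List.concat_eq_append] at hw ⊢
        rw [par_append, parN_append, ih u ((valid_append u b x).mp hw).1]
    · apply Finset.sum_congr rfl
      intro a ha
      exact ih _ ((valid_append w a x).mpr ⟨hw, mem_range.mp ha⟩)

theorem AA_walk {D : ℕ} {x : Tr} (hD : Bdd D x) (k : ℕ) :
    inner ℝ (((AA D x) ^ k) (ee [])) (ee []) = (W k [] x : ℝ) := by
  rw [real_inner_comm, ee_inner, AA_pow hD k [] trivial]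

theorem measurable_sum_rangeN {f : ℕ → Tr → ℕ} (hf : ∀ i, Measurable (f i)) (w : List ℕ) :
    Measurable (fun x : Tr => ∑ i ∈ range (x w), f i x) := by
  have h : Measurable (fun P : ℕ × Tr => ∑ i ∈ range P.1, f i P.2) := by
    apply measurable_from_prod_countable_right
    intro k
    change Measurable (fun y : Tr => ∑ i ∈ range k, f i y)
    exact Finset.measurable_sum _ (fun i _ => hf i)
  have h0 : Measurable (fun x : Tr => x w) := measurable_pi_apply _
  exact h.comp (h0.prodMk measurable_id)

theorem measurable_W (k : ℕ) : ∀ w, Measurable (fun x : Tr => W k w x) := by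
  induction k with
  | zero => intro w; exact measurable_const
  | succ k ih =>
    intro w
    change Measurable (fun x : Tr => parN (fun u => W k u x) w + ∑ a ∈ range (x w), W k (w ++ [a]) x)
    apply Measurable.add _ (measurable_sum_rangeN (fun i => ih _) w)
    cases w with
    | nil => exact measurable_const
    | cons a w => exact ih _

theorem W_le {D : ℕ} {x : Tr} (hD : Bdd D x) (k : ℕ) : ∀ w, W k w x ≤ (D + 1) ^ k := by
  induction k with
  | zero => intro w; rw [W]; split_ifs <;> simp
  | succ k ih =>
    intro w
    rw [W]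
    have h1 : parN (fun u => W k u x) w ≤ (D + 1) ^ k := by
      cases w with
      | nil => exact Nat.zero_le _
      | cons a w => exact ih _
    have h2 : ∑ a ∈ range (x w), W k (w ++ [a]) x ≤ D * (D + 1) ^ k := by
      calc ∑ a ∈ range (x w), W k (w ++ [a]) x ≤ ∑ _a ∈ range (x w), (D + 1) ^ k :=
            Finset.sum_le_sum (fun a _ => ih _)
        _ = x w * (D + 1) ^ k := by rw [Finset.sum_const, card_range, smul_eq_mul]
        _ ≤ D * (D + 1) ^ k := Nat.mul_le_mul_right _ (hD w)
    calc _ ≤ (D + 1) ^ k + D * (D + 1) ^ k := Nat.add_le_add h1 h2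
      _ = (D + 1) ^ (k + 1) := by ring

theorem valid_iff (w : List ℕ) : ∀ x : Tr,
    Valid w x ↔ ∀ j < w.length, w.getD j 0 < x (w.take j) := by
  induction w with
  | nil => intro x; simp [Valid]
  | cons a w ih =>
    intro x
    simp only [Valid, ih]
    constructor
    · rintro ⟨h1, h2⟩ j hj
      cases j with
      | zero => simpa using h1
      | succ j =>
        have := h2 j (by simpa using hj)
        simpa [child] using this
    · intro h
      refine ⟨by simpa using h 0 (by simp), ?_⟩
      intro j hj
      have := h (j + 1) (by simpa using hj)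
      simpa [child] using this

/-- the walks of length `k` from `w` to the root -/
def WS (k : ℕ) (w : List ℕ) (x : Tr) : Set (Fin (k + 1) → List ℕ) :=
  {f | f 0 = w ∧ f (Fin.last k) = [] ∧ (∀ i, Valid (f i) x) ∧
    ∀ i : Fin k, (∃ a : ℕ, f i.succ = f i.castSucc ++ [a]) ∨
      (∃ a : ℕ, f i.castSucc = f i.succ ++ [a])}

/-- neighbours -/
def Nb (w : List ℕ) (x : Tr) : Finset (List ℕ) :=
  (if w = [] then ∅ else {w.dropLast}) ∪ (range (x w)).image (fun a => w ++ [a])

/-- the walks as finite sets -/
def WF : (k : ℕ) → List ℕ → Tr → Finset (Fin (k + 1) → List ℕ)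
  | 0, w, _ => if w = [] then {fun _ => []} else ∅
  | k + 1, w, x => (Nb w x).biUnion (fun u => (WF k u x).image (fun f => Fin.cons w f))

theorem mem_Nb {w u : List ℕ} {x : Tr} (hw : Valid w x) :
    u ∈ Nb w x ↔ Valid u x ∧ ((∃ a : ℕ, u = w ++ [a]) ∨ (∃ a : ℕ, w = u ++ [a])) := by
  unfold Nb
  rw [mem_union, mem_image]
  constructor
  · rintro (h | ⟨a, ha, rfl⟩)
    · split_ifs at h with h0
      · simp at h
      · rw [mem_singleton] at h
        subst h
        obtain ⟨u, b, rfl⟩ := (List.eq_nil_or_concat w).resolve_left h0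
        rw [List.concat_eq_append] at hw ⊢
        rw [List.dropLast_concat]
        exact ⟨((valid_append u b x).mp hw).1, Or.inr ⟨b, rfl⟩⟩
    · exact ⟨(valid_append w a x).mpr ⟨hw, mem_range.mp ha⟩, Or.inl ⟨a, rfl⟩⟩
  · rintro ⟨hu, ⟨a, rfl⟩ | ⟨a, rfl⟩⟩
    · right
      exact ⟨a, mem_range.mpr ((valid_append w a x).mp hu).2, rfl⟩
    · left
      rw [if_neg (by simp), List.dropLast_concat, mem_singleton]

theorem mem_WF (k : ℕ) : ∀ (w : List ℕ) (x : Tr), Valid w x → ∀ f, f ∈ WF k w x ↔ f ∈ WS k w x := by
  induction k with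
  | zero =>
    intro w x hw f
    unfold WF WS
    constructor
    · intro h
      split_ifs at h with h0
      · rw [mem_singleton] at h
        subst h
        subst h0
        exact ⟨rfl, rfl, fun _ => trivial, fun i => i.elim0⟩
      · simp at h
    · rintro ⟨h1, h2, -, -⟩
      have h3 : Fin.last 0 = 0 := rfl
      rw [h3, h1] at h2
      rw [if_pos h2, mem_singleton]
      funext i
      have : i = 0 := Fin.ext (by have := i.isLt; simp)
      rw [this, h1, h2]
  | succ k ih =>
    intro w x hw f
    unfold WF
    simp only [mem_biUnion, mem_image]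
    constructor
    · rintro ⟨u, hu, g, hg, rfl⟩
      obtain ⟨hu1, hu2⟩ := (mem_Nb hw).mp hu
      obtain ⟨g1, g2, g3, g4⟩ := (ih u x hu1 g).mp hg
      refine ⟨rfl, ?_, ?_, ?_⟩
      · rw [← Fin.succ_last, Fin.cons_succ]
        exact g2
      · intro i
        refine Fin.cases ?_ (fun j => ?_) i
        · exact hw
        · rw [Fin.cons_succ]; exact g3 j
      · intro i
        refine Fin.cases ?_ (fun j => ?_) i
        · rw [Fin.cons_succ, Fin.castSucc_zero, Fin.cons_zero, g1]
          exact hu2
        · rw [Fin.cons_succ, Fin.castSucc_succ, Fin.cons_succ]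
          exact g4 j
    · rintro ⟨f1, f2, f3, f4⟩
      have hstep := f4 0
      rw [Fin.castSucc_zero, f1] at hstep
      refine ⟨f (Fin.succ 0), (mem_Nb hw).mpr ⟨f3 _, hstep⟩, Fin.tail f, ?_, ?_⟩
      · rw [ih _ x (f3 _)]
        refine ⟨rfl, ?_, fun i => f3 _, ?_⟩
        · change f (Fin.last k).succ = []
          rw [Fin.succ_last]
          exact f2
        · intro i
          have := f4 i.succ
          rw [Fin.castSucc_succ] at this
          exact this
      · rw [← f1]
        exact Fin.cons_self_tail f

theorem inj_snoc (w : List ℕ) : Function.Injective (fun a : ℕ => w ++ [a]) := by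
  intro a b h
  simpa using h

theorem inj_cons (k : ℕ) (w : List ℕ) : Function.Injective
    (fun f : Fin (k + 1) → List ℕ => (Fin.cons w f : Fin (k + 1 + 1) → List ℕ)) := by
  intro f g h
  exact Fin.cons_right_injective (α := fun _ => List ℕ) w h

theorem card_WF (k : ℕ) : ∀ (w : List ℕ) (x : Tr), Valid w x → (WF k w x).card = W k w x := by
  induction k with
  | zero =>
    intro w x _
    unfold WF W
    split_ifs <;> simp
  | succ k ih =>
    intro w x hw
    rw [WF, Finset.card_biUnion]
    · have h1 : ∀ u ∈ Nb w x, ((WF k u x).image (fun f => (Fin.cons w f : Fin (k + 1 + 1) → List ℕ))).card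
          = W k u x := by
        intro u hu
        rw [Finset.card_image_of_injective _ (inj_cons k w)]
        exact ih u x ((mem_Nb hw).mp hu).1
      rw [Finset.sum_congr rfl h1]
      unfold Nb
      rw [Finset.sum_union, Finset.sum_image ((inj_snoc w).injOn), W]
      · congr 1
        rcases List.eq_nil_or_concat w with rfl | ⟨u, b, rfl⟩
        · simp [parN]
        · rw [List.concat_eq_append, parN_append, if_neg (by simp), List.dropLast_concat,
            Finset.sum_singleton]
      · rw [Finset.disjoint_left]
        intro u h1 h2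
        split_ifs at h1 with h0
        · simp at h1
        · rw [mem_singleton] at h1
          obtain ⟨a, -, rfl⟩ := mem_image.mp h2
          have := congrArg List.length h1
          simp at this
          omega
    · intro u hu v hv huv
      rw [Function.onFun, Finset.disjoint_left]
      intro f h1 h2
      obtain ⟨g, hg, rfl⟩ := mem_image.mp h1
      obtain ⟨g', hg', he⟩ := mem_image.mp h2
      have h3 : g' = g := inj_cons k w he
      subst h3
      have e1 := ((mem_WF k u x ((mem_Nb hw).mp hu).1 _).mp hg).1
      have e2 := ((mem_WF k v x ((mem_Nb hw).mp hv).1 _).mp hg').1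
      exact huv (e1.symm.trans e2)

end Pool.Agent.J4.H90.UGW
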